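import Pool.Agent.MechAlpha.Defs

/-!
# Integer vectors and generic vectors

Every nonzero integer vector is a multiple of a primitive one, and for a primitive vector `k` there is
a real vector which is orthogonal to exactly the multiples of `k`.
-/

set_option autoImplicit false

namespace Pool.Agent.MechAlpha

open MeasureTheory Set
open scoped RealInnerProductSpace

variable {n : ℕ} {S : Vec n ≃L[ℝ] Vec n} {U : Vec n → ℝ} {k : Fin n → ℤ} {ω : Vec n} {W : ℝ → ℝ}
  {M : ℝ} {w : Vec n} {A : ℝ} {γ u : ℝ → Vec n} {a b c : ℝ} {x y z : Vec n} {g g' : ℝ}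

/-- every integer vector is a multiple of a primitive one -/
theorem exists_primitive {l : Fin n → ℤ} (hl : l ≠ 0) : ∃ (k : Fin n → ℤ) (d : ℤ),
    l = d • k ∧ d ≠ 0 ∧ k ≠ 0 ∧ ∀ (d' : ℤ) (l' : Fin n → ℤ), k = d' • l' → IsUnit d' := by
  obtain ⟨i₀, hi₀⟩ : ∃ i, l i ≠ 0 := by
    by_contra h
    push Not at h
    exact hl (funext h)
  obtain ⟨g, hg, hg1⟩ := Finset.extract_gcd l (Finset.univ_nonempty_iff.2 ⟨i₀⟩)
  have hmul : l = Finset.univ.gcd l • g := by
    funext i
    simpa using hg i (Finset.mem_univ i)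
  refine ⟨g, Finset.univ.gcd l, hmul, ?_, ?_, ?_⟩
  · intro h
    rw [h, zero_smul] at hmul
    exact hl hmul
  · intro h
    rw [h, smul_zero] at hmul
    exact hl hmul
  · intro d' l' h
    have hdvd : d' ∣ Finset.univ.gcd g := by
      refine Finset.dvd_gcd fun i _ => ?_
      rw [h]
      exact ⟨l' i, by simp⟩
    rw [hg1] at hdvd
    exact isUnit_of_dvd_one hdvd

/-- the coordinates of the generic vector -/
private noncomputable def gv (k : Fin n → ℤ) (t : ℝ) (j : Fin n) : ℝ :=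
  ((∑ i, k i * k i : ℤ) : ℝ) * t ^ (j : ℕ) - (k j : ℝ) * ∑ i, (k i : ℝ) * t ^ (i : ℕ)

private theorem gv_sum (k l : Fin n → ℤ) (t : ℝ) :
    ∑ j, (l j : ℝ) * gv k t j =
      ∑ i, (((∑ i, k i * k i) * l i - k i * ∑ j, k j * l j : ℤ) : ℝ) * t ^ (i : ℕ) := by
  have h1 : ∑ j, (l j : ℝ) * gv k t j =
      ∑ j, (((∑ i, k i * k i : ℤ) : ℝ) * (l j : ℝ) * t ^ (j : ℕ)) -
        (∑ j, (k j : ℝ) * (l j : ℝ)) * ∑ i, (k i : ℝ) * t ^ (i : ℕ) := by
    rw [Finset.sum_mul, ← Finset.sum_sub_distrib]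
    refine Finset.sum_congr rfl fun j _ => ?_
    unfold gv
    ring
  rw [h1, Finset.mul_sum, ← Finset.sum_sub_distrib]
  refine Finset.sum_congr rfl fun i _ => ?_
  push_cast
  ring

private theorem gv_poly (P : Fin n → ℤ) {t : ℝ} (ht : Transcendental ℤ t)
    (h : ∑ i, (P i : ℝ) * t ^ (i : ℕ) = 0) (i : Fin n) : P i = 0 := by
  have h1 : Polynomial.aeval t (∑ i : Fin n, Polynomial.monomial (i : ℕ) (P i)) = 0 := by
    rw [map_sum]
    simpa [Polynomial.aeval_monomial] using h
  have h2 : (∑ i : Fin n, Polynomial.monomial (i : ℕ) (P i)) = 0 := by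
    by_contra h0
    exact ht ⟨_, h0, h1⟩
  have h3 : (∑ j : Fin n, Polynomial.monomial (j : ℕ) (P j)).coeff (i : ℕ) = P i := by
    rw [Polynomial.finsetSum_coeff, Finset.sum_eq_single i]
    · simp
    · intro j _ hj
      rw [Polynomial.coeff_monomial, if_neg]
      intro h'
      exact hj (Fin.ext h')
    · intro h'
      exact absurd (Finset.mem_univ i) h'
  rw [← h3, h2, Polynomial.coeff_zero]

/-- a generic vector orthogonal to `k` -/
theorem exists_generic (hk : k ≠ 0)
    (hprim : ∀ (d' : ℤ) (l' : Fin n → ℤ), k = d' • l' → IsUnit d') :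
    ∃ ω : Vec n, ∀ l : Fin n → ℤ, ∑ i, (l i : ℝ) * ω i = 0 ↔ ∃ j : ℤ, l = j • k := by
  have ht : Transcendental ℤ (liouvilleNumber (2 : ℕ)) := transcendental_liouvilleNumber le_rfl
  set t : ℝ := liouvilleNumber (2 : ℕ) with ht_def
  have hK : (∑ i, k i * k i) ≠ 0 := by
    obtain ⟨i₀, hi₀⟩ : ∃ i, k i ≠ 0 := by
      by_contra h
      push Not at h
      exact hk (funext h)
    have h1 : k i₀ * k i₀ ≤ ∑ i, k i * k i :=
      Finset.single_le_sum (f := fun i => k i * k i) (fun i _ => mul_self_nonneg (k i))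
        (Finset.mem_univ i₀)
    have h2 : 0 < k i₀ * k i₀ := mul_self_pos.2 hi₀
    omega
  refine ⟨WithLp.toLp 2 (gv k t), fun l => ?_⟩
  have hsum : ∑ i, (l i : ℝ) * (WithLp.toLp 2 (gv k t) : Vec n) i =
      ∑ i, (((∑ i, k i * k i) * l i - k i * ∑ j, k j * l j : ℤ) : ℝ) * t ^ (i : ℕ) := by
    rw [← gv_sum]
  rw [hsum]
  constructor
  · intro h
    have h1 := gv_poly _ ht h
    set K := ∑ i, k i * k i
    set c := ∑ j, k j * l j
    have hg : 0 < Int.gcd K c := Int.gcd_pos_of_ne_zero_left c hK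
    obtain ⟨q, p, hcop, hq, hp⟩ := Int.exists_gcd_one hg
    have hg0 : ((Int.gcd K c : ℕ) : ℤ) ≠ 0 := by exact_mod_cast hg.ne'
    have h2 : ∀ i, q * l i = p * k i := by
      intro i
      have h3 := h1 i
      have h4 : (q * l i - p * k i) * ((Int.gcd K c : ℕ) : ℤ) = 0 := by
        have : K * l i - k i * c = (q * l i - p * k i) * ((Int.gcd K c : ℕ) : ℤ) := by
          calc K * l i - k i * c = (q * ((Int.gcd K c : ℕ) : ℤ)) * l i -
                k i * (p * ((Int.gcd K c : ℕ) : ℤ)) := by rw [← hq, ← hp]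
            _ = _ := by ring
        rw [← this]
        exact h3
      have h5 := (mul_eq_zero.1 h4).resolve_right hg0
      omega
    have hcop' : IsCoprime q p := Int.isCoprime_iff_gcd_eq_one.2 hcop
    have h6 : ∀ i, q ∣ k i := fun i =>
      hcop'.dvd_of_dvd_mul_left (by rw [← h2 i]; exact dvd_mul_right q (l i))
    choose l' hl' using h6
    have hu : IsUnit q := hprim q l' (funext fun i => by simpa using hl' i)
    have hqq : q * q = 1 := by
      rcases Int.isUnit_iff.1 hu with h | h <;> rw [h] <;> norm_num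
    refine ⟨q * p, funext fun i => ?_⟩
    have : l i = q * (q * l i) := by rw [← mul_assoc, hqq, one_mul]
    rw [this, h2 i]
    simp [mul_assoc]
  · rintro ⟨j, rfl⟩
    refine Finset.sum_eq_zero fun i _ => ?_
    have : (∑ i, k i * k i) * (j • k) i - k i * ∑ i, k i * (j • k) i = 0 := by
      simp only [Pi.smul_apply, smul_eq_mul]
      rw [Finset.sum_mul, Finset.mul_sum, ← Finset.sum_sub_distrib]
      refine Finset.sum_eq_zero fun a _ => ?_
      ring
    rw [this]
    simp

end Pool.Agent.MechAlpha
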