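import Pool.Agent.MechAlpha.Defs
import Pool.Agent.MechAlpha.Generic

/-!
# Uniform averages over the leaves (Fourier series on the torus)
-/

set_option autoImplicit false

namespace Pool.Agent.MechAlpha

open MeasureTheory Set Topology
open scoped RealInnerProductSpace

variable {n : ℕ} {S : Vec n ≃L[ℝ] Vec n} {U : Vec n → ℝ} {k : Fin n → ℤ} {ω : Vec n} {W : ℝ → ℝ}
  {M : ℝ} {w : Vec n} {A : ℝ} {γ u : ℝ → Vec n} {a b c : ℝ} {x y z : Vec n} {g g' : ℝ}

private theorem proj_isOpenQuotientMap : IsOpenQuotientMap (proj : Vec n → Torus n) := by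
  have h1 : IsOpenQuotientMap (Pi.map (fun _ : Fin n => ((↑) : ℝ → UnitAddCircle))) :=
    IsOpenQuotientMap.piMap fun i => QuotientAddGroup.isOpenQuotientMap_mk
  have h2 := h1.comp (EuclideanSpace.equiv (Fin n) ℝ).toHomeomorph.isOpenQuotientMap
  exact h2

private theorem eq_add_of_proj_eq {x y : Vec n} (h : proj x = proj y) :
    ∃ m : Fin n → ℤ, x = y + zv m := by
  have h1 : ∀ i, ∃ m : ℤ, x i = y i + m := by
    intro i
    have h2 : ((x i : ℝ) : UnitAddCircle) = ((y i : ℝ) : UnitAddCircle) := congrFun h i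
    rw [QuotientAddGroup.eq_iff_sub_mem, AddSubgroup.mem_zmultiples_iff] at h2
    obtain ⟨m, hm⟩ := h2
    refine ⟨m, ?_⟩
    simp only [zsmul_eq_mul, mul_one] at hm
    linarith
  choose m hm using h1
  refine ⟨m, ?_⟩
  ext i
  simp [zv, hm i]

private theorem exists_descent {E : Type} [TopologicalSpace E] {f : Vec n → E} (hf : Continuous f)
    (hper : ∀ x m, f (x + zv m) = f x) : ∃ F : C(Torus n, E), ∀ x, F (proj x) = f x := by
  let p : C(Vec n, Torus n) := ⟨proj, proj_isOpenQuotientMap.continuous⟩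
  have hp : IsQuotientMap p := proj_isOpenQuotientMap.isQuotientMap
  have hfac : Function.FactorsThrough (⟨f, hf⟩ : C(Vec n, E)) p := by
    intro x y hxy
    obtain ⟨m, rfl⟩ := eq_add_of_proj_eq hxy
    exact hper y m
  refine ⟨hp.lift ⟨f, hf⟩ hfac, fun x => ?_⟩
  exact DFunLike.congr_fun (hp.lift_comp ⟨f, hf⟩ hfac) x

/-- complex averages -/
private def AvgC (k : Fin n → ℤ) (ω : Vec n) (F : C(Torus n, ℂ)) (W : C(UnitAddCircle, ℂ)) :
    Prop :=
  ∀ δ > 0, ∃ w : Vec n → ℂ, ContDiff ℝ 1 w ∧ (∀ x m, w (x + zv m) = w x) ∧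
    ∀ x, ‖fderiv ℝ w x ω - (F (proj x) - W ((∑ i, (k i : ℝ) * x i : ℝ) : UnitAddCircle))‖ ≤ δ

private theorem AvgC.add {F F' : C(Torus n, ℂ)} {W W' : C(UnitAddCircle, ℂ)} (h : AvgC k ω F W)
    (h' : AvgC k ω F' W') : AvgC k ω (F + F') (W + W') := by
  intro δ hδ
  obtain ⟨w, h1, h2, h3⟩ := h (δ / 2) (by positivity)
  obtain ⟨w', h1', h2', h3'⟩ := h' (δ / 2) (by positivity)
  refine ⟨w + w', h1.add h1', fun x m => by simp [h2, h2'], fun x => ?_⟩
  rw [fderiv_add (h1.differentiable (by simp) x) (h1'.differentiable (by simp) x)]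
  have h4 := norm_add_le (fderiv ℝ w x ω - (F (proj x) -
    W ((∑ i, (k i : ℝ) * x i : ℝ) : UnitAddCircle))) (fderiv ℝ w' x ω - (F' (proj x) -
    W' ((∑ i, (k i : ℝ) * x i : ℝ) : UnitAddCircle)))
  refine le_trans (le_of_eq ?_) (h4.trans (by linarith [h3 x, h3' x]))
  congr 1
  simp only [add_apply, ContinuousMap.add_apply]
  ring

private theorem AvgC.smul {F : C(Torus n, ℂ)} {W : C(UnitAddCircle, ℂ)} (h : AvgC k ω F W)
    (c : ℂ) : AvgC k ω (c • F) (c • W) := by
  intro δ hδ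
  obtain ⟨w, h1, h2, h3⟩ := h (δ / (‖c‖ + 1)) (by positivity)
  refine ⟨c • w, h1.const_smul c, fun x m => by simp [h2], fun x => ?_⟩
  rw [fderiv_const_smul (h1.differentiable (by simp) x)]
  have h4 : (c • fderiv ℝ w x) ω - ((c • F) (proj x) -
      (c • W) ((∑ i, (k i : ℝ) * x i : ℝ) : UnitAddCircle)) = c * (fderiv ℝ w x ω - (F (proj x) -
      W ((∑ i, (k i : ℝ) * x i : ℝ) : UnitAddCircle))) := by
    simp only [smul_apply, ContinuousMap.smul_apply, smul_eq_mul]
    ring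
  rw [h4, norm_mul]
  calc ‖c‖ * ‖fderiv ℝ w x ω - (F (proj x) - W ((∑ i, (k i : ℝ) * x i : ℝ) : UnitAddCircle))‖
      ≤ (‖c‖ + 1) * (δ / (‖c‖ + 1)) := by
        apply mul_le_mul _ (h3 x) (norm_nonneg _) (by positivity)
        linarith
    _ = δ := by field_simp

private theorem AvgC.zero : AvgC k ω (0 : C(Torus n, ℂ)) 0 := by
  intro δ hδ
  refine ⟨fun _ => 0, contDiff_const, fun x m => rfl, fun x => ?_⟩
  simp [hδ.le]

private theorem AvgC.of_close {F : C(Torus n, ℂ)} {W : C(UnitAddCircle, ℂ)}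
    (h : ∀ δ > 0, ∃ F' W', AvgC k ω F' W' ∧ ‖F - F'‖ ≤ δ ∧ ‖W - W'‖ ≤ δ) : AvgC k ω F W := by
  intro δ hδ
  obtain ⟨F', W', h1, h2, h3⟩ := h (δ / 3) (by positivity)
  obtain ⟨w, h4, h5, h6⟩ := h1 (δ / 3) (by positivity)
  refine ⟨w, h4, h5, fun x => ?_⟩
  have h7 := ContinuousMap.norm_coe_le_norm (F - F') (proj x)
  have h8 := ContinuousMap.norm_coe_le_norm (W - W')
    ((∑ i, (k i : ℝ) * x i : ℝ) : UnitAddCircle)
  have h9 : fderiv ℝ w x ω - (F (proj x) - W ((∑ i, (k i : ℝ) * x i : ℝ) : UnitAddCircle)) =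
      (fderiv ℝ w x ω - (F' (proj x) - W' ((∑ i, (k i : ℝ) * x i : ℝ) : UnitAddCircle))) -
      (F - F') (proj x) + (W - W') ((∑ i, (k i : ℝ) * x i : ℝ) : UnitAddCircle) := by
    simp only [ContinuousMap.sub_apply]
    ring
  rw [h9]
  have h10 := norm_add_le ((fderiv ℝ w x ω - (F' (proj x) -
    W' ((∑ i, (k i : ℝ) * x i : ℝ) : UnitAddCircle))) -
      (F - F') (proj x)) ((W - W') ((∑ i, (k i : ℝ) * x i : ℝ) : UnitAddCircle))
  have h11 := norm_sub_le (fderiv ℝ w x ω - (F' (proj x) -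
    W' ((∑ i, (k i : ℝ) * x i : ℝ) : UnitAddCircle))) ((F - F') (proj x))
  linarith [h6 x]

private theorem exists_leaf (hk : k ≠ 0) (θ : ℝ) : ∃ x : Vec n, ∑ i, (k i : ℝ) * x i = θ := by
  obtain ⟨i, hi⟩ := Function.ne_iff.mp hk
  have hi' : (k i : ℝ) ≠ 0 := by exact_mod_cast hi
  refine ⟨EuclideanSpace.single i (θ / k i), ?_⟩
  rw [Finset.sum_eq_single i]
  · simp only [PiLp.single_apply, if_true]
    field_simp
  · intro j _ hj
    simp [hj]
  · simp

/-- the average is bounded by the function -/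
private theorem AvgC.norm_le (hk : k ≠ 0) (hω : ∑ i, (k i : ℝ) * ω i = 0) {F : C(Torus n, ℂ)}
    {W : C(UnitAddCircle, ℂ)} (h : AvgC k ω F W) : ‖W‖ ≤ ‖F‖ := by
  rw [ContinuousMap.norm_le _ (norm_nonneg _)]
  intro t
  obtain ⟨θ, rfl⟩ := QuotientAddGroup.mk_surjective t
  obtain ⟨x, rfl⟩ := exists_leaf hk θ
  apply le_of_forall_pos_le_add
  intro ε hε
  obtain ⟨w, h1, h2, h3⟩ := h (ε / 2) (by positivity)
  obtain ⟨G, hG⟩ := exists_descent h1.continuous h2
  have hC : ∀ x, ‖w x‖ ≤ ‖G‖ := fun x => by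
    rw [← hG]
    exact ContinuousMap.norm_coe_le_norm G _
  set v : ℂ := W ((∑ i, (k i : ℝ) * x i : ℝ) : UnitAddCircle) with hv
  have hd : ∀ s : ℝ, HasDerivAt (fun s : ℝ => w (x + s • ω) + s • v)
      (fderiv ℝ w (x + s • ω) ω + v) s := by
    intro s
    have h4 : HasDerivAt (fun s : ℝ => x + s • ω) ω s := by
      simpa using ((hasDerivAt_id s).smul_const ω).const_add x
    have h5 := (h1.differentiable (by simp) (x + s • ω)).hasFDerivAt.comp_hasDerivAt s h4
    have h6 : HasDerivAt (fun s : ℝ => s • v) v s := by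
      simpa using (hasDerivAt_id s).smul_const v
    exact h5.add h6
  have hb : ∀ s : ℝ, ‖fderiv ℝ w (x + s • ω) ω + v‖ ≤ ‖F‖ + ε / 2 := by
    intro s
    have h4 := h3 (x + s • ω)
    have h5 : ∑ i, (k i : ℝ) * (x + s • ω) i = ∑ i, (k i : ℝ) * x i := by
      have h6 : ∀ i, (k i : ℝ) * (x + s • ω) i = (k i : ℝ) * x i + s * ((k i : ℝ) * ω i) := by
        intro i
        simp only [PiLp.add_apply, PiLp.smul_apply, smul_eq_mul]
        ring
      rw [Finset.sum_congr rfl fun i _ => h6 i, Finset.sum_add_distrib, ← Finset.mul_sum, hω]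
      ring
    rw [h5, ← hv] at h4
    have h7 : fderiv ℝ w (x + s • ω) ω + v = (fderiv ℝ w (x + s • ω) ω -
      (F (proj (x + s • ω)) - v)) + F (proj (x + s • ω)) := by ring
    rw [h7]
    refine (norm_add_le _ _).trans ?_
    linarith [ContinuousMap.norm_coe_le_norm F (proj (x + s • ω))]
  set T : ℝ := 4 * ‖G‖ / ε + 1 with hT
  have hTpos : 0 < T := by positivity
  have h8 := (convex_univ (𝕜 := ℝ) (E := ℝ)).norm_image_sub_le_of_norm_deriv_le
    (f := fun s : ℝ => w (x + s • ω) + s • v) (C := ‖F‖ + ε / 2)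
    (fun s _ => (hd s).differentiableAt) (fun s _ => by rw [(hd s).deriv]; exact hb s)
    (mem_univ (0 : ℝ)) (mem_univ T)
  simp only [zero_smul, add_zero, sub_zero, Real.norm_of_nonneg hTpos.le] at h8
  have h9 : ‖T • v‖ ≤ ‖w (x + T • ω) + T • v - w x‖ + ‖w (x + T • ω)‖ + ‖w x‖ := by
    have h10 : T • v = (w (x + T • ω) + T • v - w x) - w (x + T • ω) + w x := by ring
    calc ‖T • v‖ = ‖(w (x + T • ω) + T • v - w x) - w (x + T • ω) + w x‖ := by rw [← h10]
      _ ≤ ‖(w (x + T • ω) + T • v - w x) - w (x + T • ω)‖ + ‖w x‖ := norm_add_le _ _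
      _ ≤ _ := by linarith [norm_sub_le (w (x + T • ω) + T • v - w x) (w (x + T • ω))]
  rw [norm_smul, Real.norm_of_nonneg hTpos.le] at h9
  have h11 : T * ‖v‖ ≤ (‖F‖ + ε) * T := by
    have h12 : 2 * ‖G‖ ≤ ε / 2 * T := by
      rw [hT]
      have : ε / 2 * (4 * ‖G‖ / ε + 1) = 2 * ‖G‖ + ε / 2 := by
        field_simp
        ring
      rw [this]
      linarith
    nlinarith [hC (x + T • ω), hC x]
  have h13 : ‖v‖ * T ≤ (‖F‖ + ε) * T := by linarith [mul_comm T ‖v‖]
  exact le_of_mul_le_mul_right h13 hTpos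

open UnitAddTorus in
private theorem mcoeff_mFourier (l m : Fin n → ℤ) :
    mFourierCoeff (mFourier l) m = if l = m then 1 else 0 := by
  classical
  have h1 := mFourierBasis_repr (mFourierLp 2 l) m
  have h2 := mFourierCoeff_toLp (mFourier l) m
  rw [← h2]
  refine h1.symm.trans ?_
  have h3 : mFourierLp 2 l = mFourierBasis (d := Fin n) l := by rw [coe_mFourierBasis]
  rw [h3, HilbertBasis.repr_self]
  by_cases h : l = m
  · subst h
    simp
  · rw [if_neg h]
    exact lp.single_apply_ne (E := fun _ => ℂ) 2 l (1 : ℂ) (Ne.symm h)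

private theorem fcoeff_fourier (j d : ℤ) :
    fourierCoeff (T := 1) (fourier j) d = if j = d then 1 else 0 := by
  classical
  have h1 := fourierBasis_repr (T := 1) (fourierLp 2 j) d
  have h2 := fourierCoeff_toLp (T := 1) (fourier j) d
  rw [← h2]
  refine h1.symm.trans ?_
  have h3 : fourierLp (T := 1) 2 j = fourierBasis j := by rw [coe_fourierBasis]
  rw [h3, HilbertBasis.repr_self]
  by_cases h : j = d
  · subst h
    simp
  · rw [if_neg h]
    exact lp.single_apply_ne (E := fun _ => ℂ) 2 j (1 : ℂ) (Ne.symm h)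

open UnitAddTorus in
private theorem mFourier_proj (l : Fin n → ℤ) (x : Vec n) :
    mFourier l (proj x) =
      Complex.exp (2 * Real.pi * Complex.I * ((∑ i, (l i : ℝ) * x i : ℝ) : ℂ)) := by
  have h1 : mFourier l (proj x) = ∏ i, fourier (l i) ((x i : ℝ) : UnitAddCircle) := rfl
  rw [h1]
  simp only [fourier_coe_apply]
  rw [← Complex.exp_sum]
  congr 1
  push_cast
  rw [Finset.mul_sum]
  apply Finset.sum_congr rfl
  intro i _
  ring

private theorem proj_add_zv (x : Vec n) (m : Fin n → ℤ) : proj (x + zv m) = proj x := by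
  funext i
  simp only [proj, zv, PiLp.add_apply]
  rw [← sub_eq_zero, ← QuotientAddGroup.mk_sub, QuotientAddGroup.eq_zero_iff,
    AddSubgroup.mem_zmultiples_iff]
  exact ⟨m i, by simp⟩

open UnitAddTorus in
private theorem avg_mFourier (hgen : ∀ l : Fin n → ℤ, ∑ i, (l i : ℝ) * ω i = 0 ↔
    ∃ j : ℤ, l = j • k) (l : Fin n → ℤ) (hl : ¬ ∃ j : ℤ, l = j • k) :
    AvgC k ω (mFourier l) 0 := by
  intro δ hδ
  have hne : ∑ i, (l i : ℝ) * ω i ≠ 0 := fun h => hl ((hgen l).mp h)
  let L : Vec n →L[ℝ] ℂ := (2 * Real.pi * Complex.I : ℂ) •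
    (Complex.ofRealCLM.comp (innerSL ℝ (zv l)))
  have hL : ∀ x, L x = 2 * Real.pi * Complex.I * ((∑ i, (l i : ℝ) * x i : ℝ) : ℂ) := by
    intro x
    have h1 : ⟪zv l, x⟫ = ∑ i, (l i : ℝ) * x i := by
      rw [PiLp.inner_apply]
      apply Finset.sum_congr rfl
      intro i _
      simp [zv, mul_comm]
    simp only [L, smul_apply, ContinuousLinearMap.comp_apply, innerSL_apply_apply,
      Complex.ofRealCLM_apply, h1, smul_eq_mul]
  have hLω : L ω ≠ 0 := by
    rw [hL]
    have h1 : ((∑ i, (l i : ℝ) * ω i : ℝ) : ℂ) ≠ 0 := by exact_mod_cast hne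
    exact mul_ne_zero Complex.two_pi_I_ne_zero h1
  have hF : ∀ x, mFourier l (proj x) = Complex.exp (L x) := fun x => by
    rw [mFourier_proj, hL]
  have hper : ∀ (x : Vec n) (m : Fin n → ℤ), proj (x + zv m) = proj x := proj_add_zv
  refine ⟨fun x => (L ω)⁻¹ * Complex.exp (L x), ?_, ?_, ?_⟩
  · exact contDiff_const.mul (Complex.contDiff_exp.comp L.contDiff)
  · intro x m
    simp only [← hF, hper]
  · intro x
    have h1 : HasFDerivAt (fun x => (L ω)⁻¹ * Complex.exp (L x))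
        ((L ω)⁻¹ • (Complex.exp (L x) • L)) x :=
      (L.hasFDerivAt.cexp).const_mul ((L ω)⁻¹)
    rw [h1.fderiv, hF]
    simp only [smul_apply, smul_eq_mul, ContinuousMap.zero_apply, sub_zero]
    have h2 : (L ω)⁻¹ * (Complex.exp (L x) * L ω) - Complex.exp (L x) = 0 := by
      field_simp
      ring
    rw [h2, norm_zero]
    exact hδ.le

open UnitAddTorus in
private theorem avg_mFourier' (j : ℤ) : AvgC k ω (mFourier (j • k)) (fourier j) := by
  intro δ hδ
  refine ⟨fun _ => 0, contDiff_const, fun x m => rfl, fun x => ?_⟩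
  have h1 : mFourier (j • k) (proj x) =
      fourier j ((∑ i, (k i : ℝ) * x i : ℝ) : UnitAddCircle) := by
    rw [mFourier_proj, fourier_coe_apply]
    congr 1
    have h2 : ∑ i, (((j • k) i : ℤ) : ℝ) * x i = (j : ℝ) * ∑ i, (k i : ℝ) * x i := by
      rw [Finset.mul_sum]
      apply Finset.sum_congr rfl
      intro i _
      simp only [Pi.smul_apply, smul_eq_mul, Int.cast_mul]
      ring
    rw [h2]
    push_cast
    ring
  rw [h1]
  simp [hδ.le]

/-- the normalised measure of the torus -/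
private noncomputable abbrev tor (n : ℕ) : Measure (Torus n) :=
  Measure.pi fun _ => AddCircle.haarAddCircle

open UnitAddTorus in
private theorem mcoeff_def (F : C(Torus n, ℂ)) (l : Fin n → ℤ) :
    mFourierCoeff F l = ∫ t, mFourier (-l) t * F t ∂(tor n) := rfl

private theorem fcoeff_def (F : C(UnitAddCircle, ℂ)) (l : ℤ) :
    fourierCoeff (T := 1) F l = ∫ t, fourier (-l) t * F t ∂(AddCircle.haarAddCircle (T := 1)) := rfl

open UnitAddTorus in
/-- the coefficient of a continuous function is linear -/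
private theorem mcoeff_add (F G : C(Torus n, ℂ)) (l : Fin n → ℤ) :
    mFourierCoeff (F + G : C(Torus n, ℂ)) l = mFourierCoeff F l + mFourierCoeff G l := by
  rw [mcoeff_def, mcoeff_def, mcoeff_def, ← integral_add]
  · apply integral_congr_ae
    filter_upwards with t
    simp [mul_add]
  · exact (((mFourier (-l)) * F).continuous.integrable_of_hasCompactSupport
      (HasCompactSupport.of_compactSpace _))
  · exact (((mFourier (-l)) * G).continuous.integrable_of_hasCompactSupport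
      (HasCompactSupport.of_compactSpace _))

open UnitAddTorus in
private theorem mcoeff_smul (c : ℂ) (F : C(Torus n, ℂ)) (l : Fin n → ℤ) :
    mFourierCoeff (c • F : C(Torus n, ℂ)) l = c * mFourierCoeff F l := by
  rw [mcoeff_def, mcoeff_def, ← integral_const_mul]
  apply integral_congr_ae
  filter_upwards with t
  simp only [ContinuousMap.smul_apply, smul_eq_mul]
  ring

open UnitAddTorus in
private theorem mcoeff_norm (F : C(Torus n, ℂ)) (l : Fin n → ℤ) :
    ‖mFourierCoeff F l‖ ≤ ‖F‖ := by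
  rw [mcoeff_def]
  refine (norm_integral_le_of_norm_le_const (C := ‖F‖) ?_).trans ?_
  · filter_upwards with t
    rw [norm_mul]
    have h1 := (mFourier (-l)).norm_coe_le_norm t
    rw [mFourier_norm] at h1
    calc ‖mFourier (-l) t‖ * ‖F t‖ ≤ 1 * ‖F‖ :=
          mul_le_mul h1 (F.norm_coe_le_norm t) (norm_nonneg _) zero_le_one
      _ = ‖F‖ := one_mul _
  · simp

private theorem fcoeff_add (F G : C(UnitAddCircle, ℂ)) (l : ℤ) :
    fourierCoeff (T := 1) (F + G : C(UnitAddCircle, ℂ)) l =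
      fourierCoeff (T := 1) F l + fourierCoeff (T := 1) G l := by
  rw [fcoeff_def, fcoeff_def, fcoeff_def, ← integral_add]
  · apply integral_congr_ae
    filter_upwards with t
    simp [mul_add]
  · exact (((fourier (T := 1) (-l)) * F).continuous.integrable_of_hasCompactSupport
      (HasCompactSupport.of_compactSpace _))
  · exact (((fourier (T := 1) (-l)) * G).continuous.integrable_of_hasCompactSupport
      (HasCompactSupport.of_compactSpace _))

private theorem fcoeff_smul (c : ℂ) (F : C(UnitAddCircle, ℂ)) (l : ℤ) :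
    fourierCoeff (T := 1) (c • F : C(UnitAddCircle, ℂ)) l = c * fourierCoeff (T := 1) F l := by
  rw [fcoeff_def, fcoeff_def, ← integral_const_mul]
  apply integral_congr_ae
  filter_upwards with t
  simp only [ContinuousMap.smul_apply, smul_eq_mul]
  ring

private theorem fcoeff_norm (F : C(UnitAddCircle, ℂ)) (l : ℤ) :
    ‖fourierCoeff (T := 1) F l‖ ≤ ‖F‖ := by
  rw [fcoeff_def]
  refine (norm_integral_le_of_norm_le_const (C := ‖F‖) ?_).trans ?_
  · filter_upwards with t
    rw [norm_mul]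
    have h1 := (fourier (T := 1) (-l)).norm_coe_le_norm t
    rw [fourier_norm] at h1
    calc ‖fourier (T := 1) (-l) t‖ * ‖F t‖ ≤ 1 * ‖F‖ :=
          mul_le_mul h1 (F.norm_coe_le_norm t) (norm_nonneg _) zero_le_one
      _ = ‖F‖ := one_mul _
  · simp

open UnitAddTorus in
/-- the coefficients as continuous linear maps -/
private noncomputable def mcoeffL (l : Fin n → ℤ) : C(Torus n, ℂ) →L[ℂ] ℂ :=
  LinearMap.mkContinuous ⟨⟨fun F => mFourierCoeff F l, fun F G => mcoeff_add F G l⟩,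
    fun c F => mcoeff_smul c F l⟩ 1 fun F => by simpa using mcoeff_norm F l

private noncomputable def fcoeffL (l : ℤ) : C(UnitAddCircle, ℂ) →L[ℂ] ℂ :=
  LinearMap.mkContinuous ⟨⟨fun F => fourierCoeff (T := 1) F l, fun F G => fcoeff_add F G l⟩,
    fun c F => fcoeff_smul c F l⟩ 1 fun F => by simpa using fcoeff_norm F l

/-- the pairs of functions and averages -/
private noncomputable def pairs (k : Fin n → ℤ) (ω : Vec n) (d : ℤ) :
    Submodule ℂ (C(Torus n, ℂ) × C(UnitAddCircle, ℂ)) where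
  carrier := {p | AvgC k ω p.1 p.2 ∧ fcoeffL d p.2 = mcoeffL (d • k) p.1}
  add_mem' := by
    rintro p q ⟨h1, h2⟩ ⟨h3, h4⟩
    exact ⟨h1.add h3, by rw [Prod.snd_add, Prod.fst_add, map_add, map_add, h2, h4]⟩
  zero_mem' := ⟨AvgC.zero, by simp⟩
  smul_mem' := by
    rintro c p ⟨h1, h2⟩
    exact ⟨h1.smul c, by rw [Prod.smul_snd, Prod.smul_fst, map_smul, map_smul, h2]⟩

private theorem isClosed_pairs (k : Fin n → ℤ) (ω : Vec n) (d : ℤ) :
    IsClosed (pairs k ω d : Set (C(Torus n, ℂ) × C(UnitAddCircle, ℂ))) := by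
  have h1 : IsClosed {p : C(Torus n, ℂ) × C(UnitAddCircle, ℂ) |
      fcoeffL d p.2 = mcoeffL (d • k) p.1} :=
    isClosed_eq ((fcoeffL d).continuous.comp continuous_snd)
      ((mcoeffL (d • k)).continuous.comp continuous_fst)
  have h2 : IsClosed {p : C(Torus n, ℂ) × C(UnitAddCircle, ℂ) | AvgC k ω p.1 p.2} := by
    rw [← closure_subset_iff_isClosed]
    intro p hp
    rw [Metric.mem_closure_iff] at hp
    apply AvgC.of_close
    intro δ hδ
    obtain ⟨q, hq, hd⟩ := hp δ hδ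
    rw [Prod.dist_eq] at hd
    have h3 := (le_max_left _ _).trans hd.le
    have h4 := (le_max_right _ _).trans hd.le
    rw [dist_eq_norm] at h3 h4
    exact ⟨q.1, q.2, hq, h3, h4⟩
  exact h2.inter h1

open UnitAddTorus in
/-- every function has an average -/
private theorem exists_avg (hk : k ≠ 0) (hgen : ∀ l : Fin n → ℤ, ∑ i, (l i : ℝ) * ω i = 0 ↔
    ∃ j : ℤ, l = j • k) (d : ℤ) (F : C(Torus n, ℂ)) :
    ∃ W, AvgC k ω F W ∧ fcoeffL d W = mcoeffL (d • k) F := by
  have hω : ∑ i, (k i : ℝ) * ω i = 0 := (hgen k).mpr ⟨1, by simp⟩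
  have hanti : AntilipschitzWith 1 (fun p : pairs k ω d => p.1.1) := by
    apply AntilipschitzWith.of_le_mul_dist
    intro p q
    have h1 : AvgC k ω (p - q).1.1 (p - q).1.2 := (p - q).2.1
    have h2 := h1.norm_le hk hω
    have h3 : ‖((p - q).1 : C(Torus n, ℂ) × C(UnitAddCircle, ℂ))‖ ≤ ‖(p - q).1.1‖ := by
      rw [Prod.norm_def]
      exact max_le le_rfl h2
    have h4 : dist p q = ‖((p - q).1 : C(Torus n, ℂ) × C(UnitAddCircle, ℂ))‖ :=
      dist_eq_norm (p.1 : C(Torus n, ℂ) × C(UnitAddCircle, ℂ)) q.1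
    have h5 : dist p.1.1 q.1.1 = ‖(p - q).1.1‖ := dist_eq_norm p.1.1 q.1.1
    rw [h4, h5, NNReal.coe_one, one_mul]
    exact h3
  have huc : UniformContinuous (fun p : pairs k ω d => p.1.1) :=
    uniformContinuous_fst.comp uniformContinuous_subtype_val
  have : CompleteSpace (pairs k ω d) := (isClosed_pairs k ω d).completeSpace_coe
  have hcl : IsClosed (range (fun p : pairs k ω d => p.1.1)) := hanti.isClosed_range huc
  have hrange : range (fun p : pairs k ω d => p.1.1) =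
      ((pairs k ω d).map (LinearMap.fst ℂ C(Torus n, ℂ) C(UnitAddCircle, ℂ)) :
        Set C(Torus n, ℂ)) := by
    ext G
    simp
  have hsub : Submodule.span ℂ (range (mFourier (d := Fin n))) ≤
      (pairs k ω d).map (LinearMap.fst ℂ C(Torus n, ℂ) C(UnitAddCircle, ℂ)) := by
    rw [Submodule.span_le]
    rintro _ ⟨l, rfl⟩
    by_cases hl : ∃ j : ℤ, l = j • k
    · obtain ⟨j, rfl⟩ := hl
      refine ⟨(mFourier (j • k), fourier j), ⟨avg_mFourier' j, ?_⟩, rfl⟩
      change fourierCoeff (T := 1) (fourier j) d = mFourierCoeff (mFourier (j • k)) (d • k)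
      rw [fcoeff_fourier, mcoeff_mFourier]
      by_cases hjd : j = d
      · simp [hjd]
      · rw [if_neg hjd, if_neg]
        intro h
        apply hjd
        exact smul_left_injective ℤ hk h
    · refine ⟨(mFourier l, 0), ⟨avg_mFourier hgen l hl, ?_⟩, rfl⟩
      rw [map_zero]
      change 0 = mFourierCoeff (mFourier l) (d • k)
      rw [mcoeff_mFourier, if_neg]
      intro h
      exact hl ⟨d, h⟩
  have htop : (⊤ : Submodule ℂ C(Torus n, ℂ)) ≤
      (pairs k ω d).map (LinearMap.fst ℂ C(Torus n, ℂ) C(UnitAddCircle, ℂ)) := by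
    rw [← span_mFourier_closure_eq_top]
    apply Submodule.topologicalClosure_minimal _ hsub
    rw [← hrange]
    exact hcl
  obtain ⟨p, hp, rfl⟩ := htop (Submodule.mem_top : F ∈ ⊤)
  exact ⟨p.2, hp.1, hp.2⟩

open UnitAddTorus in
/-- a function all of whose non-constant coefficients vanish is constant -/
private theorem exists_coeff {F : C(Torus n, ℂ)} (hF : ∃ x y, F x ≠ F y) :
    ∃ l : Fin n → ℤ, l ≠ 0 ∧ mFourierCoeff F l ≠ 0 := by
  classical
  by_contra hcon
  push Not at hcon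
  have h1 : Summable (mFourierCoeff F) := by
    apply summable_of_ne_finset_zero (s := {0})
    intro l hl
    exact hcon l (by simpa using hl)
  have h2 : ∀ x, F x = mFourierCoeff F 0 • mFourier 0 x := by
    intro x
    have h3 := hasSum_mFourier_series_apply_of_summable h1 x
    have h4 : HasSum (fun i ↦ mFourierCoeff F i • mFourier i x)
        (mFourierCoeff F 0 • mFourier 0 x) := by
      apply hasSum_single 0
      intro l hl
      rw [hcon l hl, zero_smul]
    exact h3.unique h4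
  obtain ⟨x, y, hxy⟩ := hF
  apply hxy
  rw [h2 x, h2 y, mFourier_zero]
  rfl

private theorem AvgC.im {F : C(Torus n, ℂ)} {W : C(UnitAddCircle, ℂ)} (h : AvgC k ω F W) :
    AvgC k ω ((⟨fun z => ((z.im : ℝ) : ℂ), by fun_prop⟩ : C(ℂ, ℂ)).comp F)
      ((⟨fun z => ((z.im : ℝ) : ℂ), by fun_prop⟩ : C(ℂ, ℂ)).comp W) := by
  intro δ hδ
  obtain ⟨w, h1, h2, h3⟩ := h δ hδ
  let L : ℂ →L[ℝ] ℂ := Complex.ofRealCLM.comp Complex.imCLM
  refine ⟨fun x => L (w x), L.contDiff.comp h1, fun x m => by simp only [h2], fun x => ?_⟩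
  have h4 : HasFDerivAt (fun x => L (w x)) (L.comp (fderiv ℝ w x)) x :=
    L.hasFDerivAt.comp x (h1.differentiable (by simp) x).hasFDerivAt
  rw [h4.fderiv]
  have h5 := h3 x
  set t : ℂ := fderiv ℝ w x ω - (F (proj x) -
    W ((∑ i, (k i : ℝ) * x i : ℝ) : UnitAddCircle)) with ht
  have h6 : (L.comp (fderiv ℝ w x)) ω - (((⟨fun z => ((z.im : ℝ) : ℂ), by fun_prop⟩ :
      C(ℂ, ℂ)).comp F) (proj x) - ((⟨fun z => ((z.im : ℝ) : ℂ), by fun_prop⟩ : C(ℂ, ℂ)).comp W)
      ((∑ i, (k i : ℝ) * x i : ℝ) : UnitAddCircle)) = ((t.im : ℝ) : ℂ) := by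
    rw [ht]
    simp only [L, ContinuousLinearMap.comp_apply, ContinuousMap.comp_apply,
      ContinuousMap.coe_mk, Complex.ofRealCLM_apply, Complex.imCLM_apply, Complex.sub_im,
      Complex.ofReal_sub]
  rw [h6, Complex.norm_real]
  exact (Complex.abs_im_le_norm t).trans h5

theorem exists_average {f : Vec n → ℝ} (hf : Continuous f) (hper : ∀ x m, f (x + zv m) = f x)
    (hne : ∃ x y, f x ≠ f y) : ∃ (k : Fin n → ℤ) (ω : Vec n) (W : ℝ → ℝ), k ≠ 0 ∧
      ∑ i, (k i : ℝ) * ω i = 0 ∧ (2 ≤ n → ω ≠ 0) ∧ Continuous W ∧ (∀ θ, W (θ + 1) = W θ) ∧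
      (∃ θ θ', W θ ≠ W θ') ∧ ∀ δ > 0, ∃ w : Vec n → ℝ, ContDiff ℝ 1 w ∧
        (∀ x m, w (x + zv m) = w x) ∧
        ∀ x, |fderiv ℝ w x ω - (f x - W (∑ i, (k i : ℝ) * x i))| ≤ δ := by
  obtain ⟨F, hF⟩ := exists_descent (f := fun x => ((f x : ℝ) : ℂ)) (by fun_prop)
    (fun x m => by simp only [hper])
  have hFne : ∃ x y, F x ≠ F y := by
    obtain ⟨x, y, hxy⟩ := hne
    refine ⟨proj x, proj y, ?_⟩
    rw [hF, hF]
    exact_mod_cast hxy
  obtain ⟨l, hl, hcoeff⟩ := exists_coeff hFne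
  obtain ⟨k, d, rfl, hd, hk, hprim⟩ := exists_primitive hl
  obtain ⟨ω, hgen⟩ := exists_generic hk hprim
  have hω : ∑ i, (k i : ℝ) * ω i = 0 := (hgen k).mpr ⟨1, by simp⟩
  obtain ⟨W, hW, hWd⟩ := exists_avg hk hgen d F
  have hreal : ∀ t, ((W t).re : ℂ) = W t := by
    intro t
    have h1 := hW.im.norm_le hk hω
    have h2 : ((⟨fun z => ((z.im : ℝ) : ℂ), by fun_prop⟩ : C(ℂ, ℂ)).comp F) = 0 := by
      ext s
      obtain ⟨x, rfl⟩ := proj_isOpenQuotientMap.surjective s
      simp [hF]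
    rw [h2, norm_zero] at h1
    have h3 := (ContinuousMap.norm_coe_le_norm
      ((⟨fun z => ((z.im : ℝ) : ℂ), by fun_prop⟩ : C(ℂ, ℂ)).comp W) t).trans h1
    have h4 : (W t).im = 0 := by
      have h5 : ‖(((W t).im : ℝ) : ℂ)‖ ≤ 0 := h3
      rw [Complex.norm_real] at h5
      exact norm_le_zero_iff.mp h5
    apply Complex.ext <;> simp [h4]
  refine ⟨k, ω, fun θ => (W (θ : UnitAddCircle)).re, hk, hω, ?_, ?_, ?_, ?_, ?_⟩
  · intro hn h0
    have h1 : ∀ l : Fin n → ℤ, ∃ j : ℤ, l = j • k := by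
      intro l
      rw [← hgen l, h0]
      simp
    obtain ⟨j0, hj0⟩ := h1 (Pi.single ⟨0, by omega⟩ 1)
    obtain ⟨j1, hj1⟩ := h1 (Pi.single ⟨1, by omega⟩ 1)
    have h2 := congrFun hj0 ⟨0, by omega⟩
    have h3 := congrFun hj0 ⟨1, by omega⟩
    have h4 := congrFun hj1 ⟨1, by omega⟩
    have h5 : (⟨1, by omega⟩ : Fin n) ≠ ⟨0, by omega⟩ := by
      intro h
      simp at h
    rw [Pi.single_eq_of_ne h5] at h3
    simp only [Pi.single_eq_same, Pi.smul_apply, smul_eq_mul] at h2 h3 h4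
    have h6 : j0 ≠ 0 := by
      rintro rfl
      simp at h2
    have h7 : k ⟨1, by omega⟩ = 0 := by
      rcases mul_eq_zero.mp h3.symm with h | h
      · exact absurd h h6
      · exact h
    rw [h7, mul_zero] at h4
    exact one_ne_zero h4
  · exact Complex.continuous_re.comp (W.continuous.comp (AddCircle.continuous_mk' 1))
  · intro θ
    have h1 : ((θ + 1 : ℝ) : UnitAddCircle) = (θ : UnitAddCircle) := by
      rw [← sub_eq_zero, ← QuotientAddGroup.mk_sub, QuotientAddGroup.eq_zero_iff,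
        AddSubgroup.mem_zmultiples_iff]
      exact ⟨1, by simp⟩
    simp only [h1]
  · by_contra hcon
    push Not at hcon
    have h1 : W = (W (0 : UnitAddCircle)) • (fourier (T := 1) 0) := by
      ext t
      obtain ⟨θ, rfl⟩ := QuotientAddGroup.mk_surjective t
      rw [ContinuousMap.smul_apply, fourier_zero, smul_eq_mul, mul_one, ← hreal, ← hreal 0]
      exact_mod_cast hcon θ 0
    have h2 : fcoeffL d W = 0 := by
      rw [h1, map_smul]
      change _ • fourierCoeff (T := 1) (fourier 0) d = 0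
      rw [fcoeff_fourier, if_neg (Ne.symm hd), smul_zero]
    rw [h2] at hWd
    exact hcoeff hWd.symm
  · intro δ hδ
    obtain ⟨w, h1, h2, h3⟩ := hW δ hδ
    refine ⟨fun x => (w x).re, Complex.reCLM.contDiff.comp h1, fun x m => by simp only [h2],
      fun x => ?_⟩
    have h4 : HasFDerivAt (fun x => (w x).re) (Complex.reCLM.comp (fderiv ℝ w x)) x :=
      Complex.reCLM.hasFDerivAt.comp x (h1.differentiable (by simp) x).hasFDerivAt
    rw [h4.fderiv]
    have h5 := (Complex.abs_re_le_norm _).trans (h3 x)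
    rw [Complex.sub_re, Complex.sub_re, hF, Complex.ofReal_re] at h5
    exact h5

end Pool.Agent.MechAlpha
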