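import Pool.Agent.MechAlpha.Curve

/-!
# Points which can be joined by curves
-/

set_option autoImplicit false

namespace Pool.Agent.MechAlpha

open MeasureTheory Set
open scoped RealInnerProductSpace

variable {n : ℕ} {S : Vec n ≃L[ℝ] Vec n} {U : Vec n → ℝ} {k : Fin n → ℤ} {ω : Vec n} {W : ℝ → ℝ}
  {M : ℝ} {w : Vec n} {A : ℝ} {γ u : ℝ → Vec n} {a b c : ℝ} {x y z : Vec n} {g g' : ℝ}

theorem Crv.reach (h : Crv γ u a b) : Reach U w A (γ a) (γ b) (gain U w A γ u a b) :=
  ⟨γ, u, a, b, h, rfl, rfl, rfl⟩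

private lemma shift_int {E : Type} [NormedAddCommGroup E] {f : ℝ → E} {a b : ℝ}
    (hf : IntervalIntegrable f volume a b) (s : ℝ) :
    IntervalIntegrable (fun t => f (t - s)) volume (a + s) (b + s) :=
  hf.comp_sub_right s

theorem Reach.trans (hU : Continuous U) (h : Reach U w A x y g) (h' : Reach U w A y z g') :
    Reach U w A x z (g + g') := by
  obtain ⟨γ1, u1, a1, b1, h1, hx, hy, hg⟩ := h
  obtain ⟨γ2, u2, a2, b2, h2, hy', hz, hg'⟩ := h'
  set s := b1 - a2 with hs
  have hbs : a2 + s = b1 := by rw [hs]; ring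
  have hle1 := h1.le
  have hle2 : b1 ≤ b2 + s := by have := h2.le; linarith
  have hle : a1 ≤ b2 + s := hle1.trans hle2
  have e1 : ∀ t, t ≤ b1 → (if t ≤ b1 then γ1 t else γ2 (t - s)) = γ1 t := fun t ht => if_pos ht
  have e2 : ∀ t, b1 < t → (if t ≤ b1 then γ1 t else γ2 (t - s)) = γ2 (t - s) :=
    fun t ht => if_neg (not_le.2 ht)
  have e3 : ∀ t, b1 ≤ t → (if t ≤ b1 then γ1 t else γ2 (t - s)) = γ2 (t - s) := by
    intro t ht
    rcases eq_or_lt_of_le ht with h | h
    · rw [if_pos (le_of_eq h.symm), ← h, hy, ← hy']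
      congr 1
      rw [← hbs]
      ring
    · exact e2 t h
  have v1 : ∀ t, t ≤ b1 → (if t ≤ b1 then u1 t else u2 (t - s)) = u1 t := fun t ht => if_pos ht
  have v2 : ∀ t, b1 < t → (if t ≤ b1 then u1 t else u2 (t - s)) = u2 (t - s) :=
    fun t ht => if_neg (not_le.2 ht)
  have i1 : ∀ {E : Type} [NormedAddCommGroup E] (f1 f2 : ℝ → E),
      IntervalIntegrable f1 volume a1 b1 → IntervalIntegrable f2 volume a2 b2 →
      IntervalIntegrable (fun t => if t ≤ b1 then f1 t else f2 (t - s)) volume a1 (b2 + s) := by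
    intro E _ f1 f2 hf1 hf2
    have j1 : IntervalIntegrable (fun t => if t ≤ b1 then f1 t else f2 (t - s)) volume a1 b1 := by
      refine hf1.congr ?_
      intro t ht
      rw [uIoc_of_le hle1] at ht
      beta_reduce
      rw [if_pos ht.2]
    have j2 : IntervalIntegrable (fun t => if t ≤ b1 then f1 t else f2 (t - s)) volume
        (a2 + s) (b2 + s) := by
      refine (shift_int hf2 s).congr ?_
      intro t ht
      rw [hbs, uIoc_of_le hle2] at ht
      beta_reduce
      rw [if_neg (not_le.2 ht.1)]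
    rw [hbs] at j2
    exact j1.trans j2
  obtain ⟨N1, hN1, hd1⟩ := h1.der
  obtain ⟨N2, hN2, hd2⟩ := h2.der
  have hC : Crv (fun t => if t ≤ b1 then γ1 t else γ2 (t - s))
      (fun t => if t ≤ b1 then u1 t else u2 (t - s)) a1 (b2 + s) := by
    refine ⟨hle, ?_, ?_, i1 u1 u2 h1.int h2.int, ?_⟩
    · rw [← Icc_union_Icc_eq_Icc hle1 hle2]
      refine ContinuousOn.union_of_isClosed ?_ ?_ isClosed_Icc isClosed_Icc
      · exact h1.cont.congr fun t ht => e1 t ht.2
      · have h3 : ContinuousOn (fun t => γ2 (t - s)) (Icc b1 (b2 + s)) := by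
          refine h2.cont.comp (by fun_prop) ?_
          intro t ht
          exact ⟨by linarith [ht.1], by linarith [ht.2]⟩
        exact h3.congr fun t ht => e3 t ht.1
    · refine ⟨(N1 ∪ (fun t => t + s) '' N2) ∪ {b1},
        (hN1.union (hN2.image _)).union (countable_singleton b1), ?_⟩
      intro t ht htN
      have n1 : t ∉ N1 := fun h => htN (Or.inl (Or.inl h))
      have n2 : t - s ∉ N2 := fun h => htN (Or.inl (Or.inr ⟨t - s, h, by ring⟩))
      have n3 : t ≠ b1 := fun h => htN (Or.inr h)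
      rcases lt_or_gt_of_ne n3 with h | h
      · have h4 := hd1 t ⟨ht.1, h⟩ n1
        rw [v1 t h.le]
        refine h4.congr_of_eventuallyEq ?_
        filter_upwards [Iio_mem_nhds h] with r hr
        exact e1 r (le_of_lt hr)
      · have h4 := hd2 (t - s) ⟨by linarith, by linarith [ht.2]⟩ n2
        rw [v2 t h]
        refine (h4.comp_sub_const t s).congr_of_eventuallyEq ?_
        filter_upwards [Ioi_mem_nhds h] with r hr
        exact e2 r hr
    · have h5 := i1 (fun t => ‖u1 t‖ ^ 2) (fun t => ‖u2 t‖ ^ 2) h1.sq h2.sq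
      refine h5.congr ?_
      intro t _
      beta_reduce
      by_cases h : t ≤ b1
      · rw [if_pos h, if_pos h]
      · rw [if_neg h, if_neg h]
  refine ⟨_, _, a1, b2 + s, hC, ?_, ?_, ?_⟩
  · rw [e1 a1 hle1, hx]
  · rw [e3 (b2 + s) hle2, add_sub_cancel_right, hz]
  · rw [← gain_add hU hC hle1 hle2, ← hg, ← hg']
    congr 1
    · unfold gain
      apply intervalIntegral.integral_congr_Ioo_of_le hle1
      intro t ht
      beta_reduce
      rw [e1 t ht.2.le, v1 t ht.2.le]
    · unfold gain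
      have h6 : ∫ t in a2..b2, (U (γ2 t) - ‖u2 t - w‖ ^ 2 / 2 - A) =
          ∫ t in b1..(b2 + s), (U (γ2 (t - s)) - ‖u2 (t - s) - w‖ ^ 2 / 2 - A) := by
        rw [intervalIntegral.integral_comp_sub_right
          (fun t => U (γ2 t) - ‖u2 t - w‖ ^ 2 / 2 - A) s]
        congr 1
        · rw [← hbs]; ring
        · ring
      rw [h6]
      apply intervalIntegral.integral_congr_Ioo_of_le hle2
      intro t ht
      beta_reduce
      rw [e2 t ht.1, v2 t ht.1]

theorem Reach.translate (hU : Per S U) (h : Reach U w A x y g) (m : Fin n → ℤ) :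
    Reach U w A (x + iv S m) (y + iv S m) g := by
  obtain ⟨γ, u, a, b, h, hx, hy, hg⟩ := h
  obtain ⟨N, hN, hd⟩ := h.der
  refine ⟨fun t => γ t + iv S m, u, a, b, ⟨h.le, h.cont.add continuousOn_const,
    ⟨N, hN, fun t ht htN => (hd t ht htN).add_const _⟩, h.int, h.sq⟩, ?_, ?_, ?_⟩
  · beta_reduce
    rw [hx]
  · beta_reduce
    rw [hy]
  · rw [← hg]
    have hU' : ∀ x m, U (x + iv S m) = U x := hU
    unfold gain
    simp only [hU']

theorem Closed.reach (hc : Closed S U w A) (m : Fin n → ℤ) (h : Reach U w A x (x + iv S m) g) :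
    g ≤ 0 := by
  obtain ⟨γ, u, a, b, h, hx, hy, hg⟩ := h
  rw [← hg]
  exact hc γ u a b h m (by rw [hy, hx])

/-- a segment -/
theorem crv_line (x v : Vec n) {τ : ℝ} (hτ : 0 ≤ τ) :
    Crv (fun t => x + t • v) (fun _ => v) 0 τ := by
  refine ⟨hτ, by fun_prop, ⟨∅, countable_empty, ?_⟩, intervalIntegrable_const,
    intervalIntegrable_const⟩
  intro t _ _
  have h := ((hasDerivAt_id t).smul_const v).const_add x
  rw [one_smul] at h
  exact h

theorem reach_line (x y : Vec n) {τ : ℝ} (hτ : 0 ≤ τ) : Reach U w A x (x + τ • (w + y))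
    (∫ t in (0 : ℝ)..τ, (U (x + t • (w + y)) - ‖y‖ ^ 2 / 2 - A)) := by
  refine ⟨_, _, 0, τ, crv_line x (w + y) hτ, ?_, rfl, ?_⟩
  · rw [zero_smul, add_zero]
  · unfold gain
    simp only [add_sub_cancel_left]

/-- the fundamental theorem of calculus on a curve -/
theorem Crv.ftc (h : Crv γ u a b) {F : Vec n → ℝ} (hF : ContDiff ℝ 1 F) :
    IntervalIntegrable (fun t => fderiv ℝ F (γ t) (u t)) volume a b ∧
      ∫ t in a..b, fderiv ℝ F (γ t) (u t) = F (γ b) - F (γ a) := by
  have hc : ContinuousOn (fun t => fderiv ℝ F (γ t)) (Icc a b) :=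
    (hF.continuous_fderiv one_ne_zero).comp_continuousOn h.cont
  obtain ⟨C, hC⟩ := isCompact_Icc.exists_bound_of_continuousOn hc
  have hi : IntervalIntegrable (fun t => fderiv ℝ F (γ t) (u t)) volume a b := by
    rw [intervalIntegrable_iff_integrableOn_Icc_of_le h.le]
    have hu : IntegrableOn u (Icc a b) volume := by
      rw [← intervalIntegrable_iff_integrableOn_Icc_of_le h.le]
      exact h.int
    have hm : AEStronglyMeasurable (fun t => fderiv ℝ F (γ t)) (volume.restrict (Icc a b)) :=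
      hc.aestronglyMeasurable measurableSet_Icc
    have hm2 : AEStronglyMeasurable (fun t => fderiv ℝ F (γ t) (u t))
        (volume.restrict (Icc a b)) :=
      (ContinuousLinearMap.id ℝ (Vec n →L[ℝ] ℝ)).aestronglyMeasurable_comp₂ hm hu.1
    refine Integrable.mono' (hu.norm.const_mul C) hm2 ?_
    filter_upwards [ae_restrict_mem measurableSet_Icc] with t ht
    exact (ContinuousLinearMap.le_opNorm _ _).trans
      (mul_le_mul_of_nonneg_right (hC t ht) (norm_nonneg _))
  refine ⟨hi, ?_⟩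
  obtain ⟨N, hN, hd⟩ := h.der
  refine MeasureTheory.integral_eq_of_hasDerivAt_off_countable_of_le (fun t => F (γ t))
    (fun t => fderiv ℝ F (γ t) (u t)) h.le hN (hF.continuous.comp_continuousOn h.cont) ?_ hi
  intro t ht
  exact ((hF.differentiable one_ne_zero (γ t)).hasFDerivAt).comp_hasDerivAt t (hd t ht.1 ht.2)

end Pool.Agent.MechAlpha
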