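import Pool.Agent.MechAlpha.Vecs
import Pool.Agent.MechAlpha.Reach

/-!
# Averaging along curves
-/

set_option autoImplicit false

namespace Pool.Agent.MechAlpha

open MeasureTheory Set
open scoped RealInnerProductSpace

variable {n : ℕ} {S : Vec n ≃L[ℝ] Vec n} {U : Vec n → ℝ} {k : Fin n → ℤ} {ω : Vec n} {W : ℝ → ℝ}
  {M : ℝ} {w : Vec n} {A : ℝ} {γ u : ℝ → Vec n} {a b c : ℝ} {x y z : Vec n} {g g' : ℝ}

/-- continuous periodic functions are bounded -/
private lemma bdd_of_per {E : Type} [NormedAddCommGroup E] {f : Vec n → E} (hf : Continuous f)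
    (hp : Per S f) : ∃ K : ℝ, 0 ≤ K ∧ ∀ x, ‖f x‖ ≤ K := by
  obtain ⟨C, hC0, hC⟩ := exists_lattice' S
  obtain ⟨K, hK⟩ := (isCompact_closedBall (0 : Vec n) C).exists_bound_of_continuousOn
    hf.continuousOn
  refine ⟨K, ?_, fun x => ?_⟩
  · exact (norm_nonneg _).trans (hK 0 (by simp [hC0]))
  · obtain ⟨m, hm⟩ := hC x
    have h1 : f x = f (x - iv S m) := by
      have := hp (x - iv S m) m
      rwa [sub_add_cancel] at this
    rw [h1]
    apply hK
    rw [mem_closedBall_zero_iff, norm_sub_rev]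
    exact hm

private lemma fderiv_per {f : Vec n → ℝ} (hp : Per S f) : Per S (fderiv ℝ f) := by
  intro x m
  rw [← fderiv_comp_add_right]
  congr 1
  funext z
  exact hp z m

/-- averaging along curves which are close to lines -/
theorem avg_curve (D : Data S U k ω W M) {δ : ℝ} (hδ : 0 < δ) : ∃ T₀ : ℝ, ∀ T ≥ T₀,
    ∀ (γ u : ℝ → Vec n) (a b : ℝ), Crv γ u a b →
      |∫ t in a..b, (U (γ t) - W ⟪kap S k, γ t⟫)| ≤
        δ * (1 + (b - a) + ∫ t in a..b, ‖u t - T • ω‖ ^ 2) ∧
      ∀ m, γ b = γ a + iv S m → |∫ t in a..b, (U (γ t) - W ⟪kap S k, γ t⟫)| ≤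
        δ * ((b - a) + ∫ t in a..b, ‖u t - T • ω‖ ^ 2) := by
  obtain ⟨f, hf, hfp, hfa⟩ := D.avg (δ / 2) (by positivity)
  have hfc : Continuous f := hf.continuous
  have hf'c : Continuous (fderiv ℝ f) := hf.continuous_fderiv one_ne_zero
  obtain ⟨K1, hK10, hK1⟩ := bdd_of_per hfc hfp
  obtain ⟨K2, hK20, hK2⟩ := bdd_of_per hf'c (fderiv_per hfp)
  refine ⟨max 1 (4 * (K1 + K2) / δ), fun T hT γ u a b h => ?_⟩
  have hT1 : 1 ≤ T := (le_max_left _ _).trans hT
  have hT0 : 0 < T := by linarith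
  have hTK : 4 * (K1 + K2) ≤ δ * T := by
    have := (le_max_right _ _).trans hT
    rw [div_le_iff₀ hδ] at this
    linarith
  have hab := h.le
  have hu : uIcc a b = Icc a b := uIcc_of_le hab
  -- integrability
  have hI1 : IntervalIntegrable (fun t => U (γ t) - W ⟪kap S k, γ t⟫) volume a b := by
    apply ContinuousOn.intervalIntegrable
    rw [hu]
    exact (D.U_cont.comp_continuousOn h.cont).sub
      (D.W_cont.comp_continuousOn (continuousOn_const.inner h.cont))
  have hI2 : IntervalIntegrable (fun t => fderiv ℝ f (γ t) ω) volume a b := by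
    apply ContinuousOn.intervalIntegrable
    rw [hu]
    exact (hf'c.comp_continuousOn h.cont).clm_apply continuousOn_const
  obtain ⟨hI3, hftc⟩ := h.ftc hf
  have hI4 := h.intervalIntegrable_sq (T • ω)
  set J := ∫ t in a..b, ‖u t - T • ω‖ ^ 2 with hJ
  have hJ0 : 0 ≤ J := intervalIntegral.integral_nonneg hab fun t _ => sq_nonneg _
  -- the average
  have e1 : ∫ t in a..b, fderiv ℝ f (γ t) (u t - T • ω) =
      (f (γ b) - f (γ a)) - T * ∫ t in a..b, fderiv ℝ f (γ t) ω := by
    rw [← hftc, ← intervalIntegral.integral_const_mul,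
      ← intervalIntegral.integral_sub hI3 (hI2.const_mul T)]
    congr 1
    funext t
    rw [map_sub, map_smul, smul_eq_mul]
  have e2 : |∫ t in a..b, fderiv ℝ f (γ t) (u t - T • ω)| ≤ K2 / 2 * ((b - a) + J) := by
    have h2 : IntervalIntegrable (fun t => K2 / 2 * (1 + ‖u t - T • ω‖ ^ 2)) volume a b :=
      ((intervalIntegrable_const (c := (1 : ℝ))).add hI4).const_mul _
    have h3 : ∫ t in a..b, K2 / 2 * (1 + ‖u t - T • ω‖ ^ 2) = K2 / 2 * ((b - a) + J) := by
      rw [intervalIntegral.integral_const_mul,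
        intervalIntegral.integral_add intervalIntegrable_const hI4, ← hJ]
      simp
    rw [← h3]
    have := intervalIntegral.norm_integral_le_of_norm_le (f := fun t => fderiv ℝ f (γ t) (u t - T • ω))
      hab (Filter.Eventually.of_forall fun t _ => ?_) h2
    · exact this
    · refine ((fderiv ℝ f (γ t)).le_opNorm _).trans ?_
      have h4 := hK2 (γ t)
      have h5 : ‖u t - T • ω‖ ≤ (1 + ‖u t - T • ω‖ ^ 2) / 2 := by
        nlinarith [sq_nonneg (‖u t - T • ω‖ - 1)]
      calc _ ≤ K2 * ((1 + ‖u t - T • ω‖ ^ 2) / 2) :=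
            mul_le_mul h4 h5 (norm_nonneg _) hK20
        _ = _ := by ring
  have e3 : |∫ t in a..b, fderiv ℝ f (γ t) ω| ≤
      (|f (γ b) - f (γ a)| + K2 / 2 * ((b - a) + J)) / T := by
    rw [le_div_iff₀ hT0]
    have h1 : T * ∫ t in a..b, fderiv ℝ f (γ t) ω =
      (f (γ b) - f (γ a)) - ∫ t in a..b, fderiv ℝ f (γ t) (u t - T • ω) := by
      rw [e1]; ring
    calc |∫ t in a..b, fderiv ℝ f (γ t) ω| * T = |T * ∫ t in a..b, fderiv ℝ f (γ t) ω| := by
          rw [abs_mul, abs_of_pos hT0, mul_comm]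
      _ ≤ _ := by
          rw [h1]
          refine (abs_sub _ _).trans ?_
          linarith
  have e4 : |∫ t in a..b, (U (γ t) - W ⟪kap S k, γ t⟫)| ≤
      |∫ t in a..b, fderiv ℝ f (γ t) ω| + δ / 2 * (b - a) := by
    have h1 : |(∫ t in a..b, fderiv ℝ f (γ t) ω) -
        ∫ t in a..b, (U (γ t) - W ⟪kap S k, γ t⟫)| ≤ δ / 2 * (b - a) := by
      rw [← intervalIntegral.integral_sub hI2 hI1]
      have := intervalIntegral.norm_integral_le_of_norm_le_const (a := a) (b := b) (C := δ / 2)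
        (f := fun t => fderiv ℝ f (γ t) ω - (U (γ t) - W ⟪kap S k, γ t⟫))
        (fun t _ => by rw [Real.norm_eq_abs]; exact hfa (γ t))
      rw [abs_of_nonneg (sub_nonneg.2 hab)] at this
      exact this
    have h2 := abs_sub_abs_le_abs_sub (∫ t in a..b, (U (γ t) - W ⟪kap S k, γ t⟫))
      (∫ t in a..b, fderiv ℝ f (γ t) ω)
    rw [abs_sub_comm] at h2
    linarith
  have hba : 0 ≤ b - a := by linarith
  have e5 : K2 / 2 * ((b - a) + J) / T ≤ δ / 8 * ((b - a) + J) := by
    rw [div_le_iff₀ hT0]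
    have : K2 / 2 ≤ δ / 8 * T := by linarith
    nlinarith [add_nonneg hba hJ0]
  constructor
  · have h1 : |f (γ b) - f (γ a)| ≤ 2 * K1 := by
      have h2 := hK1 (γ b)
      have h3 := hK1 (γ a)
      rw [Real.norm_eq_abs] at h2 h3
      refine (abs_sub _ _).trans ?_
      linarith
    have h4 : |f (γ b) - f (γ a)| / T ≤ δ / 2 := by
      rw [div_le_iff₀ hT0]
      linarith
    rw [add_div] at e3
    nlinarith
  · intro m hm
    have h1 : f (γ b) - f (γ a) = 0 := by rw [hm, hfp, sub_self]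
    rw [h1, abs_zero, zero_add] at e3
    nlinarith

end Pool.Agent.MechAlpha
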