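import Pool.Agent.MechAlpha.Defs

/-!
# Curves and their gain
-/

set_option autoImplicit false

namespace Pool.Agent.MechAlpha

open MeasureTheory Set
open scoped RealInnerProductSpace

variable {n : ℕ} {S : Vec n ≃L[ℝ] Vec n} {U : Vec n → ℝ} {k : Fin n → ℤ} {ω : Vec n} {W : ℝ → ℝ}
  {M : ℝ} {w : Vec n} {A : ℝ} {γ u : ℝ → Vec n} {a b c : ℝ} {x y z : Vec n} {g g' : ℝ}

theorem Crv.restrict (h : Crv γ u a b) {a' b' : ℝ} (ha : a ≤ a') (hab : a' ≤ b') (hb : b' ≤ b) :
    Crv γ u a' b' := by
  obtain ⟨N, hN, hd⟩ := h.der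
  have hsub : uIcc a' b' ⊆ uIcc a b := by
    rw [uIcc_of_le hab, uIcc_of_le h.le]
    exact Icc_subset_Icc ha hb
  exact ⟨hab, h.cont.mono (Icc_subset_Icc ha hb),
    ⟨N, hN, fun t ht => hd t (Ioo_subset_Ioo ha hb ht)⟩, h.int.mono_set hsub, h.sq.mono_set hsub⟩

private lemma inner_int (h : Crv γ u a b) (v : Vec n) :
    IntervalIntegrable (fun t => ⟪v, u t⟫) volume a b :=
  ⟨h.int.1.const_inner v, h.int.2.const_inner v⟩

theorem Crv.intervalIntegrable_sq (h : Crv γ u a b) (w : Vec n) :
    IntervalIntegrable (fun t => ‖u t - w‖ ^ 2) volume a b := by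
  have h1 := (h.sq.sub ((inner_int h w).const_mul 2)).add
    (intervalIntegrable_const (c := ‖w‖ ^ 2) (μ := volume) (a := a) (b := b))
  refine h1.congr ?_
  intro t _
  beta_reduce
  rw [norm_sub_sq_real, real_inner_comm]

theorem Crv.intervalIntegrable (h : Crv γ u a b) (hU : Continuous U) (w : Vec n) (A : ℝ) :
    IntervalIntegrable (fun t => U (γ t) - ‖u t - w‖ ^ 2 / 2 - A) volume a b := by
  have h1 : IntervalIntegrable (fun t => U (γ t)) volume a b :=
    (hU.comp_continuousOn h.cont).intervalIntegrable_of_Icc h.le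
  exact (h1.sub ((h.intervalIntegrable_sq w).div_const 2)).sub intervalIntegrable_const

theorem gain_self : gain U w A γ u a a = 0 := by
  unfold gain
  exact intervalIntegral.integral_same

theorem gain_add (hU : Continuous U) (h : Crv γ u a c) (hab : a ≤ b) (hbc : b ≤ c) :
    gain U w A γ u a b + gain U w A γ u b c = gain U w A γ u a c := by
  unfold gain
  exact intervalIntegral.integral_add_adjacent_intervals
    ((h.restrict le_rfl hab hbc).intervalIntegrable hU w A)
    ((h.restrict hab hbc le_rfl).intervalIntegrable hU w A)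

private lemma integral_vel (h : Crv γ u a b) : ∫ t in a..b, u t = γ b - γ a := by
  obtain ⟨N, hN, hd⟩ := h.der
  exact MeasureTheory.integral_eq_of_hasDerivAt_off_countable_of_le γ u h.le hN h.cont
    (fun t ht => hd t ht.1 ht.2) h.int

/-- change of the velocity `w` -/
theorem gain_change (hU : Continuous U) (h : Crv γ u a b) (w v : Vec n) (A : ℝ) :
    gain U (w + v) (A - ⟪w, v⟫ - ‖v‖ ^ 2 / 2) γ u a b = gain U w A γ u a b + ⟪v, γ b - γ a⟫ := by
  have h1 : ∫ t in a..b, ⟪v, u t⟫ = ⟪v, γ b - γ a⟫ := by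
    rw [← integral_vel h]
    exact (innerSL ℝ v).intervalIntegral_comp_comm h.int
  unfold gain
  rw [← h1, ← intervalIntegral.integral_add (h.intervalIntegrable hU w A) (inner_int h v)]
  refine intervalIntegral.integral_congr ?_
  intro t _
  have h2 : ‖u t - (w + v)‖ ^ 2 = ‖u t - w‖ ^ 2 - 2 * ⟪u t - w, v⟫ + ‖v‖ ^ 2 := by
    rw [← sub_sub, norm_sub_sq_real]
  have h3 : ⟪u t - w, v⟫ = ⟪v, u t⟫ - ⟪w, v⟫ := by
    rw [inner_sub_left, real_inner_comm]
  simp only
  rw [h2, h3]
  ring

/-- change of the level -/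
theorem gain_level (hU : Continuous U) (h : Crv γ u a b) (w : Vec n) (A B : ℝ) :
    gain U w (A + B) γ u a b = gain U w A γ u a b - B * (b - a) := by
  have h1 : ∫ _ in a..b, B = B * (b - a) := by
    rw [intervalIntegral.integral_const, smul_eq_mul, mul_comm]
  unfold gain
  rw [← h1, ← intervalIntegral.integral_sub (h.intervalIntegrable hU w A)
    intervalIntegrable_const]
  refine intervalIntegral.integral_congr ?_
  intro t _
  simp only
  ring

end Pool.Agent.MechAlpha
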