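import Pool.Agent.MechAlpha.Vecs
import Pool.Agent.MechAlpha.Curve
import Pool.Agent.MechAlpha.AvgCurve

/-!
# Bounds for the critical level
-/

set_option autoImplicit false

namespace Pool.Agent.MechAlpha

open MeasureTheory Set
open scoped RealInnerProductSpace

variable {n : ℕ} {S : Vec n ≃L[ℝ] Vec n} {U : Vec n → ℝ} {k : Fin n → ℤ} {ω : Vec n} {W : ℝ → ℝ}
  {M : ℝ} {w : Vec n} {A : ℝ} {γ u : ℝ → Vec n} {a b c : ℝ} {x y z : Vec n} {g g' : ℝ}

private theorem bounds_int (D : Data S U k ω W M) (h : Crv γ u a b) :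
    IntervalIntegrable (fun t => U (γ t) - W ⟪kap S k, γ t⟫) volume a b := by
  apply ContinuousOn.intervalIntegrable
  rw [uIcc_of_le h.le]
  refine (D.U_cont.comp_continuousOn h.cont).sub (D.W_cont.comp_continuousOn ?_)
  exact continuousOn_const.inner h.cont

private theorem bounds_line (x v : Vec n) {τ : ℝ} (hτ : 0 ≤ τ) :
    Crv (fun t => x + t • v) (fun _ => v) 0 τ where
  le := hτ
  cont := (continuous_const.add (continuous_id.smul continuous_const)).continuousOn
  der := by
    refine ⟨∅, countable_empty, fun t _ _ => ?_⟩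
    have h := ((hasDerivAt_id t).smul_const v).const_add x
    rw [one_smul] at h
    exact h
  int := intervalIntegrable_const
  sq := intervalIntegrable_const

theorem closed_add (D : Data S U k ω W M) {η : ℝ} (hη : 0 < η) :
    ∃ T₀ : ℝ, ∀ T ≥ T₀, Closed S U (T • ω) (M + η) := by
  obtain ⟨T₀, hT₀⟩ := avg_curve D (δ := min η (1 / 2)) (lt_min hη (by norm_num))
  refine ⟨T₀, fun T hT γ u a b h m hm => ?_⟩
  have h1 := (hT₀ T hT γ u a b h).2 m hm
  set δ := min η (1 / 2) with hδ
  have hδ1 : δ ≤ η := min_le_left _ _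
  have hδ2 : δ ≤ 1 / 2 := min_le_right _ _
  set J := ∫ t in a..b, ‖u t - T • ω‖ ^ 2 with hJ
  have hJ0 : 0 ≤ J := intervalIntegral.integral_nonneg h.le fun t _ => by positivity
  have hi1 := bounds_int D h
  have hi2 := h.intervalIntegrable_sq (T • ω)
  have h2 : gain U (T • ω) (M + η) γ u a b ≤
      ∫ t in a..b, ((U (γ t) - W ⟪kap S k, γ t⟫) - ‖u t - T • ω‖ ^ 2 / 2 - η) := by
    refine intervalIntegral.integral_mono_on h.le
      (h.intervalIntegrable D.U_cont (T • ω) (M + η))
      ((hi1.sub (hi2.div_const 2)).sub intervalIntegrable_const) fun t _ => ?_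
    have := D.le ⟪kap S k, γ t⟫
    linarith
  have h3 : ∫ t in a..b, ((U (γ t) - W ⟪kap S k, γ t⟫) - ‖u t - T • ω‖ ^ 2 / 2 - η) =
      (∫ t in a..b, (U (γ t) - W ⟪kap S k, γ t⟫)) - J / 2 - η * (b - a) := by
    rw [intervalIntegral.integral_sub (hi1.sub (hi2.div_const 2)) intervalIntegrable_const,
      intervalIntegral.integral_sub hi1 (hi2.div_const 2), intervalIntegral.integral_div,
      intervalIntegral.integral_const, smul_eq_mul, mul_comm (b - a)]
  have h4 := le_of_abs_le h1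
  have hab := h.le
  have h5 : δ * ((b - a) + J) ≤ η * (b - a) + J / 2 := by
    have e1 : δ * (b - a) ≤ η * (b - a) := mul_le_mul_of_nonneg_right hδ1 (by linarith)
    have e2 : δ * J ≤ 1 / 2 * J := mul_le_mul_of_nonneg_right hδ2 hJ0
    linarith
  linarith

theorem le_of_closed (D : Data S U k ω W M) {η : ℝ} (hη : 0 < η) :
    ∃ T₀ : ℝ, ∀ T ≥ T₀, ∀ A, Closed S U (T • ω) A → M - η ≤ A := by
  obtain ⟨C, hC0, hC⟩ := exists_lattice S D.k_ne
  obtain ⟨T₀, hT₀⟩ := avg_curve D (δ := η / 2) (half_pos hη)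
  refine ⟨T₀, fun T hT A hA => ?_⟩
  -- the duration
  set K := (η / 2 + 1 / 2) * C ^ 2 with hK
  have hK0 : 0 ≤ K := by positivity
  set L := 1 + 2 * K / η with hL
  have hL1 : 1 ≤ L := by
    have : 0 ≤ 2 * K / η := by positivity
    linarith
  have hL0 : 0 < L := by linarith
  have hKL : K ≤ η / 2 * L ^ 2 := by
    have e1 : K = η / 2 * (2 * K / η) := by field_simp
    have e2 : 2 * K / η ≤ L ^ 2 := by
      have : L ≤ L ^ 2 := by nlinarith
      linarith
    calc K = η / 2 * (2 * K / η) := e1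
      _ ≤ η / 2 * L ^ 2 := mul_le_mul_of_nonneg_left e2 (by positivity)
  -- the point of the leaf
  obtain ⟨z, hz⟩ := D.max
  have hk := kap_ne (S := S) D.k_ne
  have hk2 : ⟪kap S k, kap S k⟫ ≠ 0 := by rw [inner_self_ne_zero]; exact hk
  set x₀ : Vec n := (z / ⟪kap S k, kap S k⟫) • kap S k with hx₀
  have hx₀z : ⟪kap S k, x₀⟫ = z := by
    rw [hx₀, real_inner_smul_right]
    field_simp
  -- the lattice vector
  obtain ⟨m, hm0, hm⟩ := hC (L • T • ω) (by
    rw [real_inner_smul_right, real_inner_smul_right, D.orth, mul_zero, mul_zero])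
  set v : Vec n := L⁻¹ • iv S m with hv
  have hcrv := bounds_line x₀ v hL0.le
  have hend : (fun t : ℝ => x₀ + t • v) L = (fun t : ℝ => x₀ + t • v) 0 + iv S m := by
    simp only [zero_smul, add_zero]
    rw [hv, smul_smul, mul_inv_cancel₀ hL0.ne', one_smul]
  have hleaf : ∀ t : ℝ, ⟪kap S k, x₀ + t • v⟫ = z := by
    intro t
    rw [inner_add_right, hx₀z, hv, real_inner_smul_right, real_inner_smul_right, hm0, mul_zero,
      mul_zero, add_zero]
  have hy : L * ‖v - T • ω‖ ≤ C := by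
    have e1 : iv S m - L • T • ω = L • (v - T • ω) := by
      rw [smul_sub, hv, smul_inv_smul₀ hL0.ne']
    rw [e1, norm_smul, Real.norm_of_nonneg hL0.le] at hm
    exact hm
  set Y := ‖v - T • ω‖ ^ 2 with hY
  have hY0 : 0 ≤ Y := by positivity
  have hY1 : L ^ 2 * Y ≤ C ^ 2 := by
    have := pow_le_pow_left₀ (by positivity) hy 2
    rw [mul_pow] at this
    exact this
  have h1 := (hT₀ T hT _ _ 0 L hcrv).2 m hend
  have h2 := hA _ _ 0 L hcrv m hend
  have hi1 := bounds_int D hcrv
  have hU : IntervalIntegrable (fun t : ℝ => U (x₀ + t • v)) volume 0 L := by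
    apply ContinuousOn.intervalIntegrable
    rw [uIcc_of_le hL0.le]
    exact D.U_cont.comp_continuousOn hcrv.cont
  have h3 : gain U (T • ω) A (fun t => x₀ + t • v) (fun _ => v) 0 L =
      (∫ t in (0 : ℝ)..L, U (x₀ + t • v)) - L * (Y / 2) - L * A := by
    show ∫ t in (0 : ℝ)..L, (U (x₀ + t • v) - ‖v - T • ω‖ ^ 2 / 2 - A) = _
    rw [intervalIntegral.integral_sub (hU.sub intervalIntegrable_const) intervalIntegrable_const,
      intervalIntegral.integral_sub hU intervalIntegrable_const,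
      intervalIntegral.integral_const, intervalIntegral.integral_const, smul_eq_mul, smul_eq_mul,
      sub_zero]
  have h4 : ∫ t in (0 : ℝ)..L, (U (x₀ + t • v) - W ⟪kap S k, x₀ + t • v⟫) =
      (∫ t in (0 : ℝ)..L, U (x₀ + t • v)) - L * M := by
    simp only [hleaf, hz]
    rw [intervalIntegral.integral_sub hU intervalIntegrable_const,
      intervalIntegral.integral_const, smul_eq_mul, sub_zero]
  have h5 : ∫ t in (0 : ℝ)..L, ‖v - T • ω‖ ^ 2 = L * Y := by
    rw [intervalIntegral.integral_const, smul_eq_mul, sub_zero]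
  rw [h3] at h2
  rw [h4, h5, sub_zero] at h1
  have h6 := neg_le_of_abs_le h1
  -- `L (M - A) ≤ η / 2 * (L + L Y) + L Y / 2`
  have h7 : L * (M - A) ≤ η / 2 * (L + L * Y) + L * Y / 2 := by nlinarith
  have h8 : (η / 2 + 1 / 2) * (L * Y) ≤ η / 2 * L := by
    have e1 : (η / 2 + 1 / 2) * (L ^ 2 * Y) ≤ η / 2 * L ^ 2 :=
      (mul_le_mul_of_nonneg_left hY1 (by positivity)).trans hKL
    have e2 : L * ((η / 2 + 1 / 2) * (L * Y)) ≤ L * (η / 2 * L) := by nlinarith
    exact le_of_mul_le_mul_left e2 hL0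
  have h9 : L * (M - A) ≤ L * η := by nlinarith
  have h10 := le_of_mul_le_mul_left h9 hL0
  linarith

end Pool.Agent.MechAlpha
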