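import Pool.Agent.MechAlpha.Defs

/-!
# Lattice vectors
-/

set_option autoImplicit false

namespace Pool.Agent.MechAlpha

open MeasureTheory Set
open scoped RealInnerProductSpace

variable {n : ℕ} {S : Vec n ≃L[ℝ] Vec n} {k : Fin n → ℤ}

private theorem zv_apply (m : Fin n → ℤ) (i : Fin n) : zv m i = (m i : ℝ) := rfl

private theorem zv_add (m m' : Fin n → ℤ) : zv (m + m') = zv m + zv m' := by
  ext i
  simp [zv_apply]

private theorem zv_zero : zv (0 : Fin n → ℤ) = 0 := by
  ext i
  simp [zv_apply]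

private theorem zv_neg (m : Fin n → ℤ) : zv (-m) = -zv m := by
  ext i
  simp [zv_apply]

theorem iv_zero : iv S 0 = 0 := by
  rw [iv, zv_zero, map_zero]

theorem iv_add (m m' : Fin n → ℤ) : iv S (m + m') = iv S m + iv S m' := by
  rw [iv, zv_add, map_add, iv, iv]

theorem iv_neg (m : Fin n → ℤ) : iv S (-m) = -iv S m := by
  rw [iv, zv_neg, map_neg, iv]

theorem inner_kap (k : Fin n → ℤ) (x : Vec n) :
    ⟪kap S k, x⟫ = ∑ i, (k i : ℝ) * (S.symm x) i := by
  unfold kap
  rw [ContinuousLinearMap.adjoint_inner_left, PiLp.inner_apply]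
  apply Finset.sum_congr rfl
  intro i _
  rw [zv_apply]
  simp only [RCLike.inner_apply, conj_trivial]
  exact mul_comm _ _

theorem inner_kap_iv (k m : Fin n → ℤ) : ⟪kap S k, iv S m⟫ = ((∑ i, k i * m i : ℤ) : ℝ) := by
  rw [inner_kap, iv, ContinuousLinearEquiv.symm_apply_apply]
  push_cast
  rfl

theorem kap_ne (hk : k ≠ 0) : kap S k ≠ 0 := by
  intro h
  have h1 := inner_kap_iv (S := S) k k
  rw [h, inner_zero_left] at h1
  have h2 : (∑ i, k i * k i : ℤ) = 0 := by exact_mod_cast h1.symm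
  apply hk
  funext i
  have h3 := (Finset.sum_eq_zero_iff_of_nonneg (fun i _ => mul_self_nonneg (k i))).1 h2 i
    (Finset.mem_univ i)
  exact mul_self_eq_zero.1 h3

theorem kap_neg : kap S (-k) = -kap S k := by
  unfold kap
  rw [zv_neg, map_neg]

/-- lattice points close to the vectors of a leaf -/
theorem exists_lattice (S : Vec n ≃L[ℝ] Vec n) (hk : k ≠ 0) : ∃ C : ℝ, 0 ≤ C ∧ ∀ p : Vec n,
    ⟪kap S k, p⟫ = 0 → ∃ m, ⟪kap S k, iv S m⟫ = 0 ∧ ‖iv S m - p‖ ≤ C := by
  classical
  set Q : ℤ := ∑ i, k i * k i with hQ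
  have hQ0 : 0 < Q := by
    rcases (Finset.sum_nonneg fun i _ => mul_self_nonneg (k i)).lt_or_eq with h | h
    · exact h
    · exfalso
      apply hk
      funext i
      exact mul_self_eq_zero.1 ((Finset.sum_eq_zero_iff_of_nonneg
        (fun i _ => mul_self_nonneg (k i))).1 h.symm i (Finset.mem_univ i))
  have hQR : (0 : ℝ) < Q := by exact_mod_cast hQ0
  let b : Fin n → Fin n → ℤ := fun i j => Q * (if j = i then 1 else 0) - k i * k j
  have hkb : ∀ i, ∑ j, k j * b i j = 0 := by
    intro i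
    have h1 : ∀ j, k j * b i j = Q * (if j = i then k j else 0) - k i * (k j * k j) := by
      intro j
      simp only [b]
      split_ifs <;> ring
    rw [Finset.sum_congr rfl fun j _ => h1 j, Finset.sum_sub_distrib, ← Finset.mul_sum,
      ← Finset.mul_sum, ← hQ]
    simp only [Finset.sum_ite_eq', Finset.mem_univ, if_true]
    ring
  refine ⟨∑ i, ‖iv S (b i)‖, Finset.sum_nonneg fun i _ => norm_nonneg _, ?_⟩
  intro p hp
  let y : Vec n := S.symm p
  have hy : ∑ i, (k i : ℝ) * y i = 0 := by rw [← hp, inner_kap]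
  let t : Fin n → ℝ := fun i => y i / Q
  let m : Fin n → ℤ := ∑ i, ⌊t i⌋ • b i
  have hm : iv S m = ∑ i, (⌊t i⌋ : ℝ) • iv S (b i) := by
    have h1 : zv m = ∑ i, (⌊t i⌋ : ℝ) • zv (b i) := by
      ext j
      simp [m, zv_apply, Finset.sum_apply]
    rw [iv, h1, map_sum]
    apply Finset.sum_congr rfl
    intro i _
    rw [map_smul, iv]
  have hpe : p = ∑ i, t i • iv S (b i) := by
    have h1 : y = ∑ i, t i • zv (b i) := by
      ext j
      have h2 : (∑ i, t i • zv (b i)) j = ∑ i, t i * (b i j : ℝ) := by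
        simp [zv_apply]
      rw [h2]
      have h3 : ∀ i, t i * (b i j : ℝ) = (if j = i then y i else 0) -
          ((k i : ℝ) * y i) * (k j / Q) := by
        intro i
        simp only [b, t]
        push_cast
        split_ifs
        · field_simp
        · field_simp
          ring
      rw [Finset.sum_congr rfl fun i _ => h3 i, Finset.sum_sub_distrib, ← Finset.sum_mul, hy,
        zero_mul, sub_zero]
      simp
    have h2 : p = S y := (S.apply_symm_apply p).symm
    rw [h2, h1, map_sum]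
    apply Finset.sum_congr rfl
    intro i _
    rw [map_smul, iv]
  refine ⟨m, ?_, ?_⟩
  · rw [inner_kap_iv]
    have h1 : (∑ j, k j * m j : ℤ) = 0 := by
      have h2 : ∀ j, k j * m j = ∑ i, ⌊t i⌋ * (k j * b i j) := by
        intro j
        simp only [m, Finset.sum_apply, Pi.smul_apply, smul_eq_mul, Finset.mul_sum]
        apply Finset.sum_congr rfl
        intro i _
        ring
      rw [Finset.sum_congr rfl fun j _ => h2 j, Finset.sum_comm]
      apply Finset.sum_eq_zero
      intro i _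
      rw [← Finset.mul_sum, hkb i, mul_zero]
    rw [h1, Int.cast_zero]
  · rw [hm]
    nth_rewrite 1 [hpe]
    rw [← Finset.sum_sub_distrib]
    refine (norm_sum_le _ _).trans ?_
    apply Finset.sum_le_sum
    intro i _
    rw [← sub_smul, norm_smul]
    have h1 : ‖(⌊t i⌋ : ℝ) - t i‖ ≤ 1 := by
      rw [Real.norm_eq_abs, abs_sub_comm, abs_le]
      have h2 := Int.floor_le (t i)
      have h3 := Int.lt_floor_add_one (t i)
      constructor <;> linarith
    calc ‖(⌊t i⌋ : ℝ) - t i‖ * ‖iv S (b i)‖ ≤ 1 * ‖iv S (b i)‖ :=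
          mul_le_mul_of_nonneg_right h1 (norm_nonneg _)
      _ = ‖iv S (b i)‖ := one_mul _

/-- lattice points close to a vector -/
theorem exists_lattice' (S : Vec n ≃L[ℝ] Vec n) : ∃ C : ℝ, 0 ≤ C ∧ ∀ p : Vec n,
    ∃ m, ‖iv S m - p‖ ≤ C := by
  classical
  let b : Fin n → Fin n → ℤ := fun i j => if j = i then 1 else 0
  refine ⟨∑ i, ‖iv S (b i)‖, Finset.sum_nonneg fun i _ => norm_nonneg _, ?_⟩
  intro p
  let t : Vec n := S.symm p
  let m : Fin n → ℤ := fun i => ⌊t i⌋
  have hm : iv S m = ∑ i, (⌊t i⌋ : ℝ) • iv S (b i) := by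
    have h1 : zv m = ∑ i, (⌊t i⌋ : ℝ) • zv (b i) := by
      ext j
      simp [m, b, zv_apply]
    rw [iv, h1, map_sum]
    apply Finset.sum_congr rfl
    intro i _
    rw [map_smul, iv]
  have hpe : p = ∑ i, t i • iv S (b i) := by
    have h1 : t = ∑ i, t i • zv (b i) := by
      ext j
      simp [b, zv_apply]
    have h2 : p = S t := (S.apply_symm_apply p).symm
    rw [h2]
    nth_rewrite 1 [h1]
    rw [map_sum]
    apply Finset.sum_congr rfl
    intro i _
    rw [map_smul, iv]
  refine ⟨m, ?_⟩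
  rw [hm]
  nth_rewrite 1 [hpe]
  rw [← Finset.sum_sub_distrib]
  refine (norm_sum_le _ _).trans ?_
  apply Finset.sum_le_sum
  intro i _
  rw [← sub_smul, norm_smul]
  have h1 : ‖(⌊t i⌋ : ℝ) - t i‖ ≤ 1 := by
    rw [Real.norm_eq_abs, abs_sub_comm, abs_le]
    have h2 := Int.floor_le (t i)
    have h3 := Int.lt_floor_add_one (t i)
    constructor <;> linarith
  calc ‖(⌊t i⌋ : ℝ) - t i‖ * ‖iv S (b i)‖ ≤ 1 * ‖iv S (b i)‖ :=
        mul_le_mul_of_nonneg_right h1 (norm_nonneg _)
    _ = ‖iv S (b i)‖ := one_mul _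

end Pool.Agent.MechAlpha
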