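import Pool.Agent.MechAlpha.Defs
import Pool.Agent.MechAlpha.Vecs
import Pool.Agent.MechAlpha.Curve
import Pool.Agent.MechAlpha.Reach
import Pool.Agent.MechAlpha.AvgCurve

/-!
# Joining points close to a leaf with the maximal average (MP_74f563_an)
-/

set_option autoImplicit false

namespace Pool.Agent.MechAlpha

open MeasureTheory Set
open scoped RealInnerProductSpace

variable {n : ℕ} {S : Vec n ≃L[ℝ] Vec n} {U : Vec n → ℝ} {k : Fin n → ℤ} {ω : Vec n} {W : ℝ → ℝ}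
  {M : ℝ} {w : Vec n} {A : ℝ} {γ u : ℝ → Vec n} {a b c : ℝ} {x y z : Vec n} {g g' : ℝ}

/-- the gain along a segment on which the average is at least `c` -/
private theorem seg (D : Data S U k ω W M) {δ : ℝ} (hδ : 0 < δ) : ∃ T₀ : ℝ, ∀ T ≥ T₀,
    ∀ (A c τ : ℝ) (x v : Vec n), 0 ≤ τ →
      (∀ t ∈ Icc 0 τ, c ≤ W (⟪kap S k, x⟫ + t * ⟪kap S k, v⟫)) →
      ∃ g, Reach U (T • ω) A x (x + τ • (T • ω + v)) g ∧
        τ * (c - ‖v‖ ^ 2 / 2 - A) - δ * (1 + τ + τ * ‖v‖ ^ 2) ≤ g := by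
  obtain ⟨T₀, hT₀⟩ := avg_curve D hδ
  refine ⟨T₀, fun T hT A c τ x v hτ hc => ⟨_, reach_line x v hτ, ?_⟩⟩
  have hcrv := crv_line x (T • ω + v) hτ
  have havg := (hT₀ T hT _ _ _ _ hcrv).1
  have hin : ∀ t : ℝ, ⟪kap S k, x + t • (T • ω + v)⟫ = ⟪kap S k, x⟫ + t * ⟪kap S k, v⟫ := by
    intro t
    simp only [inner_add_right, inner_smul_right, D.orth]
    ring
  have hsq : ∫ t in (0 : ℝ)..τ, ‖(T • ω + v) - T • ω‖ ^ 2 = τ * ‖v‖ ^ 2 := by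
    simp
  have hUc : Continuous fun t : ℝ => U (x + t • (T • ω + v)) :=
    D.U_cont.comp (by fun_prop)
  have hWc : Continuous fun t : ℝ => W ⟪kap S k, x + t • (T • ω + v)⟫ :=
    D.W_cont.comp (by fun_prop)
  have hsplit : (∫ t in (0 : ℝ)..τ, (U (x + t • (T • ω + v)) - ‖v‖ ^ 2 / 2 - A)) =
      (∫ t in (0 : ℝ)..τ, (U (x + t • (T • ω + v)) - W ⟪kap S k, x + t • (T • ω + v)⟫)) +
      ∫ t in (0 : ℝ)..τ, (W ⟪kap S k, x + t • (T • ω + v)⟫ - ‖v‖ ^ 2 / 2 - A) := by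
    rw [← intervalIntegral.integral_add]
    · congr 1
      funext t
      ring
    · exact (hUc.sub hWc).intervalIntegrable _ _
    · exact ((hWc.sub continuous_const).sub continuous_const).intervalIntegrable _ _
  have hlow : τ * (c - ‖v‖ ^ 2 / 2 - A) ≤
      ∫ t in (0 : ℝ)..τ, (W ⟪kap S k, x + t • (T • ω + v)⟫ - ‖v‖ ^ 2 / 2 - A) := by
    have h1 : τ * (c - ‖v‖ ^ 2 / 2 - A) = ∫ _t in (0 : ℝ)..τ, (c - ‖v‖ ^ 2 / 2 - A) := by
      rw [intervalIntegral.integral_const, smul_eq_mul, sub_zero]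
    rw [h1]
    apply intervalIntegral.integral_mono_on hτ
    · exact continuous_const.intervalIntegrable _ _
    · exact ((hWc.sub continuous_const).sub continuous_const).intervalIntegrable _ _
    · intro t ht
      have := hc t ht
      rw [hin t]
      linarith
  rw [hsplit]
  have h2 := (abs_le.mp havg).1
  rw [hsq] at h2
  have h3 : δ * (1 + (τ - 0) + τ * ‖v‖ ^ 2) = δ * (1 + τ + τ * ‖v‖ ^ 2) := by ring
  rw [h3] at h2
  linarith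

/-- a transversal direction -/
private theorem transv (hk : kap S k ≠ 0) {μ : ℝ} (hμ : 0 < μ) (d : ℝ) :
    ∃ (v : Vec n) (τ : ℝ), 0 ≤ τ ∧ τ = |d| / (Real.sqrt μ * ‖kap S k‖) ∧ ‖v‖ ^ 2 = μ ∧
      τ * ⟪kap S k, v⟫ = d ∧ ∀ t ∈ Icc 0 τ, |t * ⟪kap S k, v⟫| ≤ |d| ∧
        |t * ⟪kap S k, v⟫ - d| ≤ |d| := by
  have hN : 0 < ‖kap S k‖ := norm_pos_iff.mpr hk
  have hs : 0 < Real.sqrt μ := Real.sqrt_pos.mpr hμ
  obtain ⟨σ, hσ, hσd⟩ : ∃ σ : ℝ, |σ| = 1 ∧ σ * |d| = d := by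
    rcases le_or_gt 0 d with h | h
    · exact ⟨1, by simp, by rw [abs_of_nonneg h]; ring⟩
    · exact ⟨-1, by simp, by rw [abs_of_neg h]; ring⟩
  have hinner : ⟪kap S k, (σ * Real.sqrt μ / ‖kap S k‖) • kap S k⟫ =
      σ * (Real.sqrt μ * ‖kap S k‖) := by
    rw [inner_smul_right, real_inner_self_eq_norm_sq]
    field_simp
  have hτd : |d| / (Real.sqrt μ * ‖kap S k‖) * (σ * (Real.sqrt μ * ‖kap S k‖)) = d := by
    have : |d| / (Real.sqrt μ * ‖kap S k‖) * (σ * (Real.sqrt μ * ‖kap S k‖)) = σ * |d| := by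
      field_simp
    rw [this, hσd]
  refine ⟨(σ * Real.sqrt μ / ‖kap S k‖) • kap S k, |d| / (Real.sqrt μ * ‖kap S k‖), by positivity,
    rfl, ?_, ?_, ?_⟩
  · rw [norm_smul, mul_pow, Real.norm_eq_abs, sq_abs, div_pow, mul_pow, Real.sq_sqrt hμ.le]
    have : σ ^ 2 = 1 := by rw [← sq_abs, hσ]; norm_num
    rw [this]
    field_simp
  · rw [hinner, hτd]
  · intro t ht
    rw [hinner]
    have h0 : 0 < Real.sqrt μ * ‖kap S k‖ := mul_pos hs hN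
    have h1 : t * (Real.sqrt μ * ‖kap S k‖) ≤ |d| := by
      have := mul_le_mul_of_nonneg_right ht.2 h0.le
      rwa [div_mul_cancel₀ _ h0.ne'] at this
    have h2 : 0 ≤ t * (Real.sqrt μ * ‖kap S k‖) := mul_nonneg ht.1 h0.le
    have h3 : t * (σ * (Real.sqrt μ * ‖kap S k‖)) = σ * (t * (Real.sqrt μ * ‖kap S k‖)) := by ring
    constructor
    · rw [h3, abs_mul, hσ, one_mul, abs_of_nonneg h2]
      exact h1
    · have h4 : t * (σ * (Real.sqrt μ * ‖kap S k‖)) - d =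
          σ * (t * (Real.sqrt μ * ‖kap S k‖) - |d|) := by
        rw [h3]
        conv_lhs => rw [← hσd]
        ring
      rw [h4, abs_mul, hσ, one_mul, abs_le]
      constructor <;> linarith

/-- two points close to a leaf with the maximal average can be joined at a small cost -/
theorem exists_return (D : Data S U k ω W M) {μ ρ : ℝ} (hμ : 0 < μ) (hρ : 0 < ρ)
    (hW : ∀ θ θ', |θ - θ'| ≤ ρ → |W θ - W θ'| ≤ μ) {ε : ℝ} (hε : 0 < ε) :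
    ∃ η : ℝ, 0 < η ∧ ∃ T₀ : ℝ, ∀ T ≥ T₀, ∀ A ≤ M + η, ∀ θ, W θ = M → ∀ x y : Vec n,
      |⟪kap S k, x⟫ - θ| ≤ ρ → |⟪kap S k, y⟫ - θ| ≤ ρ →
      ∃ m g, Reach U (T • ω) A x (y + iv S m) g ∧
        -(3 * Real.sqrt μ * ρ / ‖kap S k‖ + ε) ≤ g := by
  have hk : kap S k ≠ 0 := kap_ne D.k_ne
  have hN : 0 < ‖kap S k‖ := norm_pos_iff.mpr hk
  have hs : 0 < Real.sqrt μ := Real.sqrt_pos.mpr hμ
  have hsN : 0 < Real.sqrt μ * ‖kap S k‖ := mul_pos hs hN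
  obtain ⟨C, hC, hlat⟩ := exists_lattice S D.k_ne
  set R : ℝ := ρ / (Real.sqrt μ * ‖kap S k‖) with hR
  have hR0 : 0 < R := div_pos hρ hsN
  have hRμ : R * (3 * μ / 2) * 2 = 3 * Real.sqrt μ * ρ / ‖kap S k‖ := by
    rw [hR]
    have : μ = Real.sqrt μ * Real.sqrt μ := (Real.mul_self_sqrt hμ.le).symm
    rw [div_mul_eq_mul_div, div_mul_eq_mul_div, div_eq_div_iff hsN.ne' hN.ne']
    nth_rewrite 1 [this]
    ring
  set τ₀ : ℝ := 3 * C ^ 2 / (2 * ε) + 1 with hτ₀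
  have hτ₀1 : 0 < τ₀ := by positivity
  have hCτ : C ^ 2 / (2 * τ₀) ≤ ε / 3 := by
    rw [div_le_div_iff₀ (by positivity) (by norm_num)]
    have : ε * (2 * τ₀) = 3 * C ^ 2 + 2 * ε := by
      rw [hτ₀]
      field_simp
    rw [this]
    nlinarith
  set η : ℝ := ε / (3 * (2 * R + τ₀)) with hη
  have hη0 : 0 < η := by positivity
  have hη1 : η * (2 * R + τ₀) = ε / 3 := by
    rw [hη]
    field_simp
  set Q : ℝ := 1 + τ₀ + C ^ 2 / τ₀ + 2 * (1 + R * (1 + μ)) with hQ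
  have hQ0 : 0 < Q := by positivity
  set δ : ℝ := ε / (3 * Q) with hδ
  have hδ0 : 0 < δ := by positivity
  have hδ1 : δ * Q = ε / 3 := by
    rw [hδ]
    field_simp
  obtain ⟨T₀, hT₀⟩ := seg D hδ0
  refine ⟨η, hη0, T₀, fun T hT A hA θ hθ x y hx hy => ?_⟩
  -- the transversal segments
  obtain ⟨v₁, τ₁, hτ₁, hτ₁', hv₁, hd₁, hb₁⟩ := transv hk hμ (θ - ⟪kap S k, x⟫)
  obtain ⟨v₃, τ₃, hτ₃, hτ₃', hv₃, hd₃, hb₃⟩ := transv hk hμ (⟪kap S k, y⟫ - θ)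
  have hτ₁R : τ₁ ≤ R := by
    rw [hτ₁', hR]
    apply div_le_div_of_nonneg_right _ hsN.le
    rw [abs_sub_comm]
    exact hx
  have hτ₃R : τ₃ ≤ R := by
    rw [hτ₃', hR]
    exact div_le_div_of_nonneg_right hy hsN.le
  set x₁ : Vec n := x + τ₁ • (T • ω + v₁) with hx₁
  have hx₁θ : ⟪kap S k, x₁⟫ = θ := by
    rw [hx₁]
    simp only [inner_add_right, inner_smul_right, D.orth]
    linarith
  -- the lattice vector
  set p : Vec n := x₁ + τ₀ • (T • ω) + τ₃ • (T • ω + v₃) - y with hp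
  have hp0 : ⟪kap S k, p⟫ = 0 := by
    rw [hp]
    simp only [inner_add_right, inner_sub_right, inner_smul_right, D.orth, hx₁θ]
    linarith
  obtain ⟨m, hm0, hm⟩ := hlat p hp0
  set v₂ : Vec n := τ₀⁻¹ • (iv S m - p) with hv₂
  have hτv₂ : τ₀ • v₂ = iv S m - p := by
    rw [hv₂, smul_smul, mul_inv_cancel₀ hτ₀1.ne', one_smul]
  have hv₂n : τ₀ * ‖v₂‖ ^ 2 ≤ C ^ 2 / τ₀ := by
    have h1 : ‖v₂‖ = τ₀⁻¹ * ‖iv S m - p‖ := by
      rw [hv₂, norm_smul, Real.norm_eq_abs, abs_of_pos (inv_pos.mpr hτ₀1)]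
    have h2 : ‖iv S m - p‖ ^ 2 ≤ C ^ 2 := pow_le_pow_left₀ (norm_nonneg _) hm 2
    have h3 : τ₀ * ‖v₂‖ ^ 2 = ‖iv S m - p‖ ^ 2 / τ₀ := by
      rw [h1]
      field_simp
    rw [h3]
    exact div_le_div_of_nonneg_right h2 hτ₀1.le
  have hv₂0 : ⟪kap S k, v₂⟫ = 0 := by
    rw [hv₂, inner_smul_right, inner_sub_right, hm0, hp0]
    ring
  set x₂ : Vec n := x₁ + τ₀ • (T • ω + v₂) with hx₂
  have hx₂' : x₂ + τ₃ • (T • ω + v₃) = y + iv S m := by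
    rw [hx₂, smul_add τ₀, hτv₂, hp]
    abel
  have hx₂θ : ⟪kap S k, x₂⟫ = θ := by
    rw [hx₂]
    simp only [inner_add_right, inner_smul_right, D.orth, hx₁θ, hv₂0]
    ring
  -- the three gains
  obtain ⟨g₁, hg₁, hg₁'⟩ := hT₀ T hT A (M - μ) τ₁ x v₁ hτ₁ (by
    intro t ht
    have h1 := hW (⟪kap S k, x⟫ + t * ⟪kap S k, v₁⟫) θ (by
      have h2 := (hb₁ t ht).2
      have h3 : ⟪kap S k, x⟫ + t * ⟪kap S k, v₁⟫ - θ =
        t * ⟪kap S k, v₁⟫ - (θ - ⟪kap S k, x⟫) := by ring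
      rw [h3]
      refine h2.trans ?_
      rw [abs_sub_comm]
      exact hx)
    have h4 := (abs_le.mp h1).1
    linarith)
  obtain ⟨g₂, hg₂, hg₂'⟩ := hT₀ T hT A M τ₀ x₁ v₂ hτ₀1.le (by
    intro t ht
    rw [hx₁θ, hv₂0, mul_zero, add_zero, hθ])
  obtain ⟨g₃, hg₃, hg₃'⟩ := hT₀ T hT A (M - μ) τ₃ x₂ v₃ hτ₃ (by
    intro t ht
    have h1 := hW (⟪kap S k, x₂⟫ + t * ⟪kap S k, v₃⟫) θ (by
      have h2 := (hb₃ t ht).1
      have h3 : ⟪kap S k, x₂⟫ + t * ⟪kap S k, v₃⟫ - θ = t * ⟪kap S k, v₃⟫ := by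
        rw [hx₂θ]
        ring
      rw [h3]
      exact h2.trans hy)
    have h4 := (abs_le.mp h1).1
    linarith)
  refine ⟨m, g₁ + g₂ + g₃, ?_, ?_⟩
  · rw [← hx₂']
    exact (hg₁.trans D.U_cont hg₂).trans D.U_cont hg₃
  · rw [hv₁] at hg₁'
    rw [hv₃] at hg₃'
    have e₁ : -(R * (3 * μ / 2)) - R * η - δ * (1 + R * (1 + μ)) ≤ g₁ := by
      refine le_trans ?_ hg₁'
      have h1 : τ₁ * (M - μ - μ / 2 - A) ≥ τ₁ * (-(3 * μ / 2) - η) :=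
        mul_le_mul_of_nonneg_left (by linarith) hτ₁
      have h2 : τ₁ * (-(3 * μ / 2) - η) ≥ R * (-(3 * μ / 2) - η) :=
        mul_le_mul_of_nonpos_right hτ₁R (by linarith)
      have h3 : δ * (1 + τ₁ + τ₁ * μ) ≤ δ * (1 + R * (1 + μ)) := by
        apply mul_le_mul_of_nonneg_left _ hδ0.le
        have := mul_le_mul_of_nonneg_right hτ₁R (by linarith : (0 : ℝ) ≤ 1 + μ)
        linarith
      linarith
    have e₃ : -(R * (3 * μ / 2)) - R * η - δ * (1 + R * (1 + μ)) ≤ g₃ := by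
      refine le_trans ?_ hg₃'
      have h1 : τ₃ * (M - μ - μ / 2 - A) ≥ τ₃ * (-(3 * μ / 2) - η) :=
        mul_le_mul_of_nonneg_left (by linarith) hτ₃
      have h2 : τ₃ * (-(3 * μ / 2) - η) ≥ R * (-(3 * μ / 2) - η) :=
        mul_le_mul_of_nonpos_right hτ₃R (by linarith)
      have h3 : δ * (1 + τ₃ + τ₃ * μ) ≤ δ * (1 + R * (1 + μ)) := by
        apply mul_le_mul_of_nonneg_left _ hδ0.le
        have := mul_le_mul_of_nonneg_right hτ₃R (by linarith : (0 : ℝ) ≤ 1 + μ)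
        linarith
      linarith
    have e₂ : -(C ^ 2 / (2 * τ₀)) - η * τ₀ - δ * (1 + τ₀ + C ^ 2 / τ₀) ≤ g₂ := by
      refine le_trans ?_ hg₂'
      have h1 : τ₀ * (M - ‖v₂‖ ^ 2 / 2 - A) ≥ -(τ₀ * ‖v₂‖ ^ 2) / 2 - η * τ₀ := by
        have := mul_le_mul_of_nonneg_left (by linarith : -η ≤ M - A) hτ₀1.le
        nlinarith
      have h2 : C ^ 2 / (2 * τ₀) = (C ^ 2 / τ₀) / 2 := by
        field_simp
      have h3 : δ * (1 + τ₀ + τ₀ * ‖v₂‖ ^ 2) ≤ δ * (1 + τ₀ + C ^ 2 / τ₀) :=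
        mul_le_mul_of_nonneg_left (by linarith) hδ0.le
      rw [h2]
      linarith
    have e₄ : δ * (1 + R * (1 + μ)) * 2 + δ * (1 + τ₀ + C ^ 2 / τ₀) = ε / 3 := by
      rw [← hδ1, hQ]
      ring
    linarith

theorem path_le (D : Data S U k ω W M) {μ ρ : ℝ} (hμ : 0 < μ) (hρ : 0 < ρ)
    (hW : ∀ θ θ', |θ - θ'| ≤ ρ → |W θ - W θ'| ≤ μ) {ε : ℝ} (hε : 0 < ε) :
    ∃ η : ℝ, 0 < η ∧ ∃ T₀ : ℝ, ∀ T ≥ T₀, ∀ A ≤ M + η, Closed S U (T • ω) A → ∀ θ, W θ = M →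
      ∀ (x y : Vec n) (g : ℝ), |⟪kap S k, x⟫ - θ| ≤ ρ → |⟪kap S k, y⟫ - θ| ≤ ρ →
      Reach U (T • ω) A x y g → g ≤ 3 * Real.sqrt μ * ρ / ‖kap S k‖ + ε := by
  obtain ⟨η, hη, T₀, hT₀⟩ := exists_return D hμ hρ hW hε
  refine ⟨η, hη, T₀, fun T hT A hA hcl θ hθ x y g hx hy hg => ?_⟩
  obtain ⟨m, g', hg', hge⟩ := hT₀ T hT A hA θ hθ y x hy hx
  have h1 := hcl.reach m (hg.trans D.U_cont hg')
  linarith

end Pool.Agent.MechAlpha
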