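import Pool.Agent.MechAlpha.Newton

/-!
# Convergence of the symplectic Euler scheme
-/

set_option autoImplicit false

namespace Pool.Agent.MechAlpha

open MeasureTheory Set
open scoped RealInnerProductSpace

variable {n : ℕ} {S : Vec n ≃L[ℝ] Vec n} {U : Vec n → ℝ} {k : Fin n → ℤ} {ω : Vec n} {W : ℝ → ℝ}
  {M : ℝ} {w : Vec n} {A : ℝ} {γ u : ℝ → Vec n} {a b c : ℝ} {x y z : Vec n} {g g' : ℝ}

section Exact

variable {K B τ : ℝ} {X Y : ℝ → Vec n}

private theorem cv_Y (hK : ∀ x, ‖gradient U x‖ ≤ K) (h : Newton U X Y) (s t : ℝ) :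
    ‖Y t - Y s‖ ≤ K * |t - s| := by
  have h1 := Convex.norm_image_sub_le_of_norm_hasDerivWithin_le (s := univ) (x := s) (y := t)
    (f := Y) (f' := fun r => -gradient U (X r)) (C := K)
    (fun r _ => (h.2 r).hasDerivWithinAt) (fun r _ => by rw [norm_neg]; exact hK _) convex_univ
    (mem_univ _) (mem_univ _)
  rwa [Real.norm_eq_abs] at h1

private theorem cv_B (hK0 : 0 < K) (hK : ∀ x, ‖gradient U x‖ ≤ K) (h : Newton U X Y) {t : ℝ}
    (ht : t ∈ Icc 0 τ) : ‖Y t‖ ≤ ‖Y 0‖ + K * τ := by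
  have h1 := cv_Y hK h 0 t
  rw [sub_zero, abs_of_nonneg ht.1] at h1
  have h2 : K * t ≤ K * τ := mul_le_mul_of_nonneg_left ht.2 hK0.le
  have h3 : ‖Y t‖ ≤ ‖Y 0‖ + ‖Y t - Y 0‖ := by
    have := norm_add_le (Y 0) (Y t - Y 0)
    rwa [add_sub_cancel] at this
  linarith

private theorem cv_X (hB : ∀ t ∈ Icc 0 τ, ‖Y t‖ ≤ B) (h : Newton U X Y) {s t : ℝ}
    (hs : s ∈ Icc 0 τ) (ht : t ∈ Icc 0 τ) : ‖X t - X s‖ ≤ B * |t - s| := by
  have h1 := Convex.norm_image_sub_le_of_norm_hasDerivWithin_le (s := Icc 0 τ) (x := s) (y := t)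
    (f := X) (f' := fun r => Y r) (C := B)
    (fun r _ => (h.1 r).hasDerivWithinAt) hB (convex_Icc 0 τ) hs ht
  rwa [Real.norm_eq_abs] at h1

/-- the local error of the velocity -/
private theorem cv_locY (hK0 : 0 < K)
    (hL : ∀ x y, ‖gradient U x - gradient U y‖ ≤ K * ‖x - y‖) (hB : ∀ t ∈ Icc 0 τ, ‖Y t‖ ≤ B)
    (h : Newton U X Y) {t t' : ℝ} (ht : t ∈ Icc 0 τ) (ht' : t' ∈ Icc 0 τ) (htt : t ≤ t') :
    ‖Y t' - Y t + (t' - t) • gradient U (X t)‖ ≤ K * (B * (t' - t)) * (t' - t) := by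
  have hB0 : 0 ≤ B := (norm_nonneg _).trans (hB t ht)
  have h1 := Convex.norm_image_sub_le_of_norm_hasDerivWithin_le (s := Icc t t') (x := t) (y := t')
    (f := fun s => Y s + (s - t) • gradient U (X t))
    (f' := fun r => -gradient U (X r) + (1 : ℝ) • gradient U (X t)) (C := K * (B * (t' - t)))
    (fun r _ => ((h.2 r).add (((hasDerivAt_id r).sub_const t).smul_const
      (gradient U (X t)))).hasDerivWithinAt) ?_ (convex_Icc t t') ⟨le_rfl, htt⟩ ⟨htt, le_rfl⟩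
  · rw [Real.norm_eq_abs, abs_of_nonneg (sub_nonneg.2 htt), sub_self, zero_smul, add_zero] at h1
    have e : Y t' + (t' - t) • gradient U (X t) - Y t
        = Y t' - Y t + (t' - t) • gradient U (X t) := by abel
    rwa [e] at h1
  · intro r hr
    rw [one_smul, neg_add_eq_sub]
    refine (hL _ _).trans (mul_le_mul_of_nonneg_left ?_ hK0.le)
    have hr' : r ∈ Icc 0 τ := ⟨ht.1.trans hr.1, hr.2.trans ht'.2⟩
    refine (cv_X hB h hr' ht).trans (mul_le_mul_of_nonneg_left ?_ hB0)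
    rw [abs_sub_comm, abs_of_nonneg (sub_nonneg.2 hr.1)]
    linarith [hr.2]

/-- the local error of the position -/
private theorem cv_locX (hK0 : 0 < K) (hK : ∀ x, ‖gradient U x‖ ≤ K)
    (h : Newton U X Y) {t t' : ℝ} (htt : t ≤ t') :
    ‖X t' - X t - (t' - t) • Y t'‖ ≤ K * (t' - t) * (t' - t) := by
  have h1 := Convex.norm_image_sub_le_of_norm_hasDerivWithin_le (s := Icc t t') (x := t) (y := t')
    (f := fun s => X s - (s - t) • Y t')
    (f' := fun r => Y r - (1 : ℝ) • Y t') (C := K * (t' - t))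
    (fun r _ => ((h.1 r).sub (((hasDerivAt_id r).sub_const t).smul_const
      (Y t'))).hasDerivWithinAt) ?_ (convex_Icc t t') ⟨le_rfl, htt⟩ ⟨htt, le_rfl⟩
  · rw [Real.norm_eq_abs, abs_of_nonneg (sub_nonneg.2 htt), sub_self, zero_smul, sub_zero] at h1
    have e : X t' - (t' - t) • Y t' - X t = X t' - X t - (t' - t) • Y t' := by abel
    rwa [e] at h1
  · intro r hr
    rw [one_smul]
    refine (cv_Y hK h t' r).trans (mul_le_mul_of_nonneg_left ?_ hK0.le)
    rw [abs_sub_comm, abs_of_nonneg (sub_nonneg.2 hr.2)]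
    linarith [hr.1]

end Exact

/-- the discrete inequality of Gronwall -/
private theorem cv_gronwall {E : ℕ → ℝ} {q d : ℝ} (hq : 1 ≤ q) (hd : 0 ≤ d) {N : ℕ}
    (h : ∀ i < N, E (i + 1) ≤ q * E i + d) : ∀ i ≤ N, E i ≤ q ^ i * (E 0 + i * d) := by
  intro i
  induction i with
  | zero => intro _; simp
  | succ i ih =>
    intro hi
    have h1 := ih (Nat.le_of_succ_le hi)
    have h2 := h i (Nat.lt_of_succ_le hi)
    have h3 : q * E i ≤ q * (q ^ i * (E 0 + i * d)) := mul_le_mul_of_nonneg_left h1 (by linarith)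
    have h4 : d ≤ q ^ (i + 1) * d := le_mul_of_one_le_left hd (one_le_pow₀ hq)
    have h5 : q ^ (i + 1) * (E 0 + ((i + 1 : ℕ) : ℝ) * d)
        = q * (q ^ i * (E 0 + i * d)) + q ^ (i + 1) * d := by
      push_cast
      ring
    rw [h5]
    linarith

section Global

variable {K B τ : ℝ} {X Y : ℝ → Vec n}

/-- the global error -/
private theorem cv_main (hK0 : 0 < K) (hK : ∀ x, ‖gradient U x‖ ≤ K)
    (hL : ∀ x y, ‖gradient U x - gradient U y‖ ≤ K * ‖x - y‖) (hτ : 0 < τ)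
    (hB0 : 0 ≤ B) (hB : ∀ t ∈ Icc 0 τ, ‖Y t‖ ≤ B) (h : Newton U X Y) (x v : ℕ → Vec n) {N : ℕ}
    (hN : 0 < N) (hs : Scheme U (τ / N) N x v) : ∀ i ≤ N,
    ‖x i - X (i * (τ / N))‖ + ‖v i - Y (i * (τ / N))‖ ≤
      Real.exp ((1 + (1 + τ) * K) * τ) *
        (‖x 0 - X 0‖ + ‖v 0 - Y 0‖ + ((1 + τ) * (K * B) + K) * τ * (τ / N)) := by
  obtain ⟨h', hh'⟩ : ∃ h' : ℝ, h' = τ / N := ⟨_, rfl⟩
  rw [← hh'] at hs ⊢
  have hN0 : (0 : ℝ) < N := by exact_mod_cast hN
  have hpos : 0 < h' := by rw [hh']; positivity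
  have hNh : (N : ℝ) * h' = τ := by rw [hh']; field_simp
  have hle : h' ≤ τ := by
    rw [← hNh]
    have : (1 : ℝ) ≤ N := by exact_mod_cast hN
    nlinarith
  have hmem : ∀ i : ℕ, i ≤ N → (i : ℝ) * h' ∈ Icc 0 τ := by
    intro i hi
    refine ⟨by positivity, ?_⟩
    rw [← hNh]
    have : (i : ℝ) ≤ N := by exact_mod_cast hi
    exact mul_le_mul_of_nonneg_right this hpos.le
  set E : ℕ → ℝ := fun i => ‖x i - X (i * h')‖ + ‖v i - Y (i * h')‖ with hE
  have hstep : ∀ i < N, E (i + 1) ≤ (1 + (1 + (1 + τ) * K) * h') * E i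
      + ((1 + τ) * (K * B) + K) * h' ^ 2 := by
    intro i hi
    have m1 := hmem i hi.le
    have m2 := hmem (i + 1) hi
    have e1 : ((i + 1 : ℕ) : ℝ) * h' - (i : ℝ) * h' = h' := by push_cast; ring
    have hle' : (i : ℝ) * h' ≤ ((i + 1 : ℕ) : ℝ) * h' := by linarith
    have l1 := cv_locY hK0 hL hB h m1 m2 hle'
    have l2 := cv_locX hK0 hK h hle'
    rw [e1] at l1 l2
    set p := x i - X (i * h') with hp
    set r := v i - Y (i * h') with hr
    have hv : v (i + 1) - Y (((i + 1 : ℕ) : ℝ) * h')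
        = r - h' • (gradient U (x i) - gradient U (X (i * h')))
          - (Y (((i + 1 : ℕ) : ℝ) * h') - Y (i * h') + h' • gradient U (X (i * h'))) := by
      rw [hs.1 i hi, hr, smul_sub]
      abel
    have hx : x (i + 1) - X (((i + 1 : ℕ) : ℝ) * h')
        = p + h' • (v (i + 1) - Y (((i + 1 : ℕ) : ℝ) * h'))
          - (X (((i + 1 : ℕ) : ℝ) * h') - X (i * h') - h' • Y (((i + 1 : ℕ) : ℝ) * h')) := by
      rw [hs.2 i hi, hp, smul_sub]
      abel
    have hv2 : ‖v (i + 1) - Y (((i + 1 : ℕ) : ℝ) * h')‖ ≤ ‖r‖ + h' * (K * ‖p‖)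
        + K * (B * h') * h' := by
      rw [hv]
      refine (norm_sub_le _ _).trans (add_le_add ((norm_sub_le _ _).trans (add_le_add le_rfl ?_)) l1)
      rw [norm_smul, Real.norm_eq_abs, abs_of_pos hpos]
      exact mul_le_mul_of_nonneg_left (hL _ _) hpos.le
    have hx2 : ‖x (i + 1) - X (((i + 1 : ℕ) : ℝ) * h')‖
        ≤ ‖p‖ + h' * ‖v (i + 1) - Y (((i + 1 : ℕ) : ℝ) * h')‖ + K * h' * h' := by
      rw [hx]
      refine (norm_sub_le _ _).trans (add_le_add ((norm_add_le _ _).trans (add_le_add le_rfl ?_)) l2)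
      rw [norm_smul, Real.norm_eq_abs, abs_of_pos hpos]
    have hp0 : 0 ≤ ‖p‖ := norm_nonneg _
    have hr0 : 0 ≤ ‖r‖ := norm_nonneg _
    have hF : 0 ≤ ‖r‖ + h' * (K * ‖p‖) + K * (B * h') * h' := by positivity
    have a1 : (1 + h') * ‖v (i + 1) - Y (((i + 1 : ℕ) : ℝ) * h')‖
        ≤ (1 + h') * (‖r‖ + h' * (K * ‖p‖) + K * (B * h') * h') :=
      mul_le_mul_of_nonneg_left hv2 (by linarith)
    have a2 : (1 + h') * (h' * (K * ‖p‖)) ≤ (1 + τ) * (h' * (K * ‖p‖)) :=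
      mul_le_mul_of_nonneg_right (by linarith) (by positivity)
    have a3 : (1 + h') * (K * (B * h') * h') ≤ (1 + τ) * (K * (B * h') * h') :=
      mul_le_mul_of_nonneg_right (by linarith) (by positivity)
    have a4 : 0 ≤ (1 + τ) * K * h' * ‖r‖ := by positivity
    have a5 : 0 ≤ h' * ‖p‖ := by positivity
    show ‖x (i + 1) - X (((i + 1 : ℕ) : ℝ) * h')‖ + ‖v (i + 1) - Y (((i + 1 : ℕ) : ℝ) * h')‖
      ≤ (1 + (1 + (1 + τ) * K) * h') * (‖p‖ + ‖r‖) + ((1 + τ) * (K * B) + K) * h' ^ 2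
    nlinarith [hx2, a1, a2, a3, a4, a5]
  have hD : 0 ≤ ((1 + τ) * (K * B) + K) * h' ^ 2 := by positivity
  have hC : 0 ≤ (1 + (1 + τ) * K) * h' := by positivity
  have hE0 : E 0 = ‖x 0 - X 0‖ + ‖v 0 - Y 0‖ := by
    simp only [hE, Nat.cast_zero, zero_mul]
  intro i hi
  have g1 := cv_gronwall (E := E) (by linarith) hD hstep i hi
  have hih := (hmem i hi).2
  have g2 : (1 + (1 + (1 + τ) * K) * h') ^ i ≤ Real.exp ((1 + (1 + τ) * K) * τ) := by
    have g3 : 1 + (1 + (1 + τ) * K) * h' ≤ Real.exp ((1 + (1 + τ) * K) * h') := by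
      rw [add_comm]
      exact Real.add_one_le_exp _
    refine (pow_le_pow_left₀ (by linarith) g3 i).trans ?_
    rw [← Real.exp_nat_mul]
    apply Real.exp_le_exp.2
    have : (i : ℝ) * ((1 + (1 + τ) * K) * h') = (1 + (1 + τ) * K) * ((i : ℝ) * h') := by ring
    rw [this]
    exact mul_le_mul_of_nonneg_left hih (by positivity)
  have g4 : (i : ℝ) * (((1 + τ) * (K * B) + K) * h' ^ 2)
      ≤ ((1 + τ) * (K * B) + K) * τ * h' := by
    have : (i : ℝ) * (((1 + τ) * (K * B) + K) * h' ^ 2)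
      = ((1 + τ) * (K * B) + K) * ((i : ℝ) * h') * h' := by ring
    rw [this]
    exact mul_le_mul_of_nonneg_right (mul_le_mul_of_nonneg_left hih (by positivity)) hpos.le
  have hE00 : 0 ≤ E 0 := by rw [hE0]; positivity
  calc E i ≤ (1 + (1 + (1 + τ) * K) * h') ^ i * (E 0 + i * (((1 + τ) * (K * B) + K) * h' ^ 2)) := g1
    _ ≤ Real.exp ((1 + (1 + τ) * K) * τ) * (E 0 + i * (((1 + τ) * (K * B) + K) * h' ^ 2)) :=
        mul_le_mul_of_nonneg_right g2 (by positivity)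
    _ ≤ Real.exp ((1 + (1 + τ) * K) * τ) * (E 0 + ((1 + τ) * (K * B) + K) * τ * h') :=
        mul_le_mul_of_nonneg_left (by linarith) (Real.exp_pos _).le
    _ = _ := by rw [hE0]

/-- the error of the action -/
private theorem cv_act (hK0 : 0 < K) (hK : ∀ x, ‖gradient U x‖ ≤ K) (hUc : Continuous U)
    (hUL : ∀ x y, |U x - U y| ≤ K * ‖x - y‖) (hτ : 0 < τ)
    (hB0 : 0 ≤ B) (hB : ∀ t ∈ Icc 0 τ, ‖Y t‖ ≤ B) (h : Newton U X Y) (x v : ℕ → Vec n) {N : ℕ}
    (hN : 0 < N) {ε : ℝ} (hε : 0 ≤ ε)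
    (he : ∀ i ≤ N, ‖x i - X (i * (τ / N))‖ + ‖v i - Y (i * (τ / N))‖ ≤ ε) :
    |∑ i ∈ Finset.range N, (τ / (N : ℝ)) * (‖v (i + 1)‖ ^ 2 / 2 - U (x i)) -
      ∫ t in (0 : ℝ)..τ, (‖Y t‖ ^ 2 / 2 - U (X t))| ≤
      τ * ((2 * B + (K * (τ / N) + ε)) * (K * (τ / N) + ε) / 2 + K * (B * (τ / N) + ε)) := by
  obtain ⟨h', hh'⟩ : ∃ h' : ℝ, h' = τ / N := ⟨_, rfl⟩
  rw [← hh'] at he ⊢
  have hN0 : (0 : ℝ) < N := by exact_mod_cast hN
  have hpos : 0 < h' := by rw [hh']; positivity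
  have hNh : (N : ℝ) * h' = τ := by rw [hh']; field_simp
  have hmem : ∀ i : ℕ, i ≤ N → (i : ℝ) * h' ∈ Icc 0 τ := by
    intro i hi
    refine ⟨by positivity, ?_⟩
    rw [← hNh]
    have : (i : ℝ) ≤ N := by exact_mod_cast hi
    exact mul_le_mul_of_nonneg_right this hpos.le
  have hXc : Continuous X := continuous_iff_continuousAt.2 fun t => (h.1 t).continuousAt
  have hYc : Continuous Y := continuous_iff_continuousAt.2 fun t => (h.2 t).continuousAt
  set F : ℝ → ℝ := fun t => ‖Y t‖ ^ 2 / 2 - U (X t) with hF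
  have hFc : Continuous F := ((hYc.norm.pow 2).div_const 2).sub (hUc.comp hXc)
  have hsum : ∫ t in (0 : ℝ)..τ, F t
      = ∑ i ∈ Finset.range N, ∫ t in ((i : ℝ) * h')..(((i + 1 : ℕ) : ℝ) * h'), F t := by
    have h1 := intervalIntegral.sum_integral_adjacent_intervals (f := F) (μ := volume)
      (a := fun i : ℕ => (i : ℝ) * h') (n := N) (fun i _ => hFc.intervalIntegrable _ _)
    rw [h1]
    simp only [Nat.cast_zero, zero_mul]
    rw [hNh]
  rw [hsum, ← Finset.sum_sub_distrib]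
  set R : ℝ := (2 * B + (K * h' + ε)) * (K * h' + ε) / 2 + K * (B * h' + ε) with hR
  have hterm : ∀ i ∈ Finset.range N, |h' * (‖v (i + 1)‖ ^ 2 / 2 - U (x i))
      - ∫ t in ((i : ℝ) * h')..(((i + 1 : ℕ) : ℝ) * h'), F t| ≤ R * h' := by
    intro i hi
    rw [Finset.mem_range] at hi
    have m1 := hmem i hi.le
    have m2 := hmem (i + 1) hi
    have e1 : ((i + 1 : ℕ) : ℝ) * h' - (i : ℝ) * h' = h' := by push_cast; ring
    have hle' : (i : ℝ) * h' ≤ ((i + 1 : ℕ) : ℝ) * h' := by linarith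
    have c1 : h' * (‖v (i + 1)‖ ^ 2 / 2 - U (x i))
        = ∫ _t in ((i : ℝ) * h')..(((i + 1 : ℕ) : ℝ) * h'), (‖v (i + 1)‖ ^ 2 / 2 - U (x i)) := by
      rw [intervalIntegral.integral_const, e1, smul_eq_mul]
    rw [c1, ← intervalIntegral.integral_sub intervalIntegrable_const
      (hFc.intervalIntegrable _ _), ← Real.norm_eq_abs]
    have c2 := intervalIntegral.norm_integral_le_of_norm_le_const (a := (i : ℝ) * h')
      (b := ((i + 1 : ℕ) : ℝ) * h') (C := R)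
      (f := fun t => (‖v (i + 1)‖ ^ 2 / 2 - U (x i)) - F t) ?_
    · rwa [e1, abs_of_pos hpos] at c2
    · intro t ht
      rw [uIoc_of_le hle'] at ht
      have ht1 : t ∈ Icc 0 τ := ⟨m1.1.trans ht.1.le, ht.2.trans m2.2⟩
      have n1 : ‖v (i + 1) - Y t‖ ≤ K * h' + ε := by
        have n2 := he (i + 1) hi
        have n3 := norm_nonneg (x (i + 1) - X (((i + 1 : ℕ) : ℝ) * h'))
        have n4 := cv_Y hK h t (((i + 1 : ℕ) : ℝ) * h')
        have n5 : |((i + 1 : ℕ) : ℝ) * h' - t| ≤ h' := by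
          rw [abs_of_nonneg (by linarith [ht.2])]
          linarith [ht.1]
        have n6 : K * |((i + 1 : ℕ) : ℝ) * h' - t| ≤ K * h' :=
          mul_le_mul_of_nonneg_left n5 hK0.le
        have n7 := norm_add_le (v (i + 1) - Y (((i + 1 : ℕ) : ℝ) * h'))
          (Y (((i + 1 : ℕ) : ℝ) * h') - Y t)
        rw [sub_add_sub_cancel] at n7
        linarith
      have n8 : ‖x i - X t‖ ≤ B * h' + ε := by
        have n2 := he i hi.le
        have n3 := norm_nonneg (v i - Y ((i : ℝ) * h'))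
        have n4 := cv_X hB h ht1 m1
        have n5 : |(i : ℝ) * h' - t| ≤ h' := by
          rw [abs_sub_comm, abs_of_nonneg (by linarith [ht.1])]
          linarith [ht.2]
        have n6 : B * |(i : ℝ) * h' - t| ≤ B * h' := mul_le_mul_of_nonneg_left n5 hB0
        have n7 := norm_add_le (x i - X ((i : ℝ) * h')) (X ((i : ℝ) * h') - X t)
        rw [sub_add_sub_cancel] at n7
        linarith
      have n9 : |U (x i) - U (X t)| ≤ K * (B * h' + ε) :=
        (hUL _ _).trans (mul_le_mul_of_nonneg_left n8 hK0.le)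
      have n10 : |‖v (i + 1)‖ ^ 2 - ‖Y t‖ ^ 2|
          ≤ (2 * B + (K * h' + ε)) * (K * h' + ε) := by
        have q1 : ‖v (i + 1)‖ ^ 2 - ‖Y t‖ ^ 2
            = (‖v (i + 1)‖ + ‖Y t‖) * (‖v (i + 1)‖ - ‖Y t‖) := by ring
        have q2 : |‖v (i + 1)‖ - ‖Y t‖| ≤ K * h' + ε := (abs_norm_sub_norm_le _ _).trans n1
        have q3 := hB t ht1
        have q4 : ‖v (i + 1)‖ ≤ ‖Y t‖ + (K * h' + ε) := by
          have := (abs_le.1 q2).2
          linarith
        rw [q1, abs_mul, abs_of_nonneg (by positivity)]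
        have q5 : ‖v (i + 1)‖ + ‖Y t‖ ≤ 2 * B + (K * h' + ε) := by linarith
        exact mul_le_mul q5 q2 (abs_nonneg _) (by positivity)
      have n11 : (‖v (i + 1)‖ ^ 2 / 2 - U (x i)) - F t
          = (‖v (i + 1)‖ ^ 2 - ‖Y t‖ ^ 2) / 2 - (U (x i) - U (X t)) := by
        simp only [hF]
        ring
      rw [n11, Real.norm_eq_abs]
      refine (abs_sub _ _).trans ?_
      rw [abs_div, abs_of_pos (two_pos : (0 : ℝ) < 2), hR]
      linarith
  refine (Finset.abs_sum_le_sum_abs _ _).trans ((Finset.sum_le_sum hterm).trans ?_)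
  rw [Finset.sum_const, Finset.card_range, nsmul_eq_mul]
  have : (N : ℝ) * (R * h') = τ * R := by rw [← hNh]; ring
  rw [this]

end Global

/-- the scheme converges -/
theorem scheme_tendsto (hU : ContDiff ℝ 2 U) (hper : Per S U) {τ : ℝ} (hτ : 0 < τ)
    (x v : ℕ → ℕ → Vec n) (hs : ∀ N : ℕ, 0 < N → Scheme U (τ / N) N (x N) (v N)) {X Y : ℝ → Vec n}
    (h : Newton U X Y) {σ : ℕ → ℕ} (hσ : StrictMono σ)
    (hx : Filter.Tendsto (fun j => x (σ j) 0) Filter.atTop (nhds (X 0)))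
    (hv : Filter.Tendsto (fun j => v (σ j) 0) Filter.atTop (nhds (Y 0))) :
    Filter.Tendsto (fun j => x (σ j) (σ j)) Filter.atTop (nhds (X τ)) ∧
    Filter.Tendsto (fun j => v (σ j) (σ j)) Filter.atTop (nhds (Y τ)) ∧
    Filter.Tendsto (fun j => ∑ i ∈ Finset.range (σ j),
      (τ / (σ j : ℝ)) * (‖v (σ j) (i + 1)‖ ^ 2 / 2 - U (x (σ j) i))) Filter.atTop
      (nhds (∫ t in (0 : ℝ)..τ, (‖Y t‖ ^ 2 / 2 - U (X t)))) := by
  obtain ⟨K, hK0, _, hK, hL, hUL⟩ := gradient_bounds hU hper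
  obtain ⟨B, hBdef⟩ : ∃ B : ℝ, B = ‖Y 0‖ + K * τ := ⟨_, rfl⟩
  have hB0 : 0 ≤ B := by rw [hBdef]; positivity
  have hB : ∀ t ∈ Icc 0 τ, ‖Y t‖ ≤ B := fun t ht => by rw [hBdef]; exact cv_B hK0 hK h ht
  have hσ1 : Filter.Tendsto σ Filter.atTop Filter.atTop := hσ.tendsto_atTop
  have hσpos : ∀ᶠ j in Filter.atTop, 0 < σ j := hσ1.eventually_gt_atTop 0
  have hτσ : Filter.Tendsto (fun j => τ / (σ j : ℝ)) Filter.atTop (nhds 0) :=
    (tendsto_const_nhds.div_atTop (tendsto_natCast_atTop_atTop.comp hσ1))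
  have hx0 : Filter.Tendsto (fun j => ‖x (σ j) 0 - X 0‖) Filter.atTop (nhds 0) :=
    tendsto_iff_norm_sub_tendsto_zero.1 hx
  have hv0 : Filter.Tendsto (fun j => ‖v (σ j) 0 - Y 0‖) Filter.atTop (nhds 0) :=
    tendsto_iff_norm_sub_tendsto_zero.1 hv
  set ε : ℕ → ℝ := fun j => Real.exp ((1 + (1 + τ) * K) * τ) *
        (‖x (σ j) 0 - X 0‖ + ‖v (σ j) 0 - Y 0‖
          + ((1 + τ) * (K * B) + K) * τ * (τ / (σ j : ℝ))) with hε
  have hε0 : ∀ j, 0 ≤ ε j := fun j => by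
    simp only [hε]
    positivity
  have hεt : Filter.Tendsto ε Filter.atTop (nhds 0) := by
    have h1 := ((hx0.add hv0).add (hτσ.const_mul (((1 + τ) * (K * B) + K) * τ))).const_mul
      (Real.exp ((1 + (1 + τ) * K) * τ))
    simpa using h1
  have he : ∀ᶠ j in Filter.atTop, ∀ i ≤ σ j,
      ‖x (σ j) i - X (i * (τ / (σ j : ℝ)))‖ + ‖v (σ j) i - Y (i * (τ / (σ j : ℝ)))‖ ≤ ε j := by
    filter_upwards [hσpos] with j hj
    exact cv_main hK0 hK hL hτ hB0 hB h (x (σ j)) (v (σ j)) hj (hs _ hj)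
  have hend : ∀ j, 0 < σ j → ((σ j : ℕ) : ℝ) * (τ / (σ j : ℝ)) = τ := by
    intro j hj
    have : (0 : ℝ) < σ j := by exact_mod_cast hj
    field_simp
  refine ⟨?_, ?_, ?_⟩
  · rw [tendsto_iff_norm_sub_tendsto_zero]
    refine squeeze_zero' (Filter.Eventually.of_forall fun j => norm_nonneg _) ?_ hεt
    filter_upwards [he, hσpos] with j hj hj0
    have h1 := hj (σ j) le_rfl
    rw [hend j hj0] at h1
    exact (le_add_of_nonneg_right (norm_nonneg _)).trans h1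
  · rw [tendsto_iff_norm_sub_tendsto_zero]
    refine squeeze_zero' (Filter.Eventually.of_forall fun j => norm_nonneg _) ?_ hεt
    filter_upwards [he, hσpos] with j hj hj0
    have h1 := hj (σ j) le_rfl
    rw [hend j hj0] at h1
    exact (le_add_of_nonneg_left (norm_nonneg _)).trans h1
  · rw [tendsto_iff_norm_sub_tendsto_zero]
    have hlim : Filter.Tendsto (fun j => τ * ((2 * B + (K * (τ / (σ j : ℝ)) + ε j))
        * (K * (τ / (σ j : ℝ)) + ε j) / 2 + K * (B * (τ / (σ j : ℝ)) + ε j)))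
        Filter.atTop (nhds 0) := by
      have k1 : Filter.Tendsto (fun j => K * (τ / (σ j : ℝ)) + ε j) Filter.atTop (nhds 0) := by
        simpa using (hτσ.const_mul K).add hεt
      have k2 : Filter.Tendsto (fun j => B * (τ / (σ j : ℝ)) + ε j) Filter.atTop (nhds 0) := by
        simpa using (hτσ.const_mul B).add hεt
      have k3 := ((((k1.const_add (2 * B)).mul k1).div_const 2).add (k2.const_mul K)).const_mul τ
      simpa using k3
    refine squeeze_zero' (Filter.Eventually.of_forall fun j => norm_nonneg _) ?_ hlim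
    filter_upwards [he, hσpos] with j hj hj0
    exact cv_act hK0 hK hU.continuous hUL hτ hB0 hB h (x (σ j)) (v (σ j)) hj0 (hε0 j) hj

end Pool.Agent.MechAlpha
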