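import Pool.Agent.MechAlpha.Defs
import Pool.Agent.MechAlpha.Vecs
import Pool.Agent.MechAlpha.Curve
import Pool.Agent.MechAlpha.Reach
import Pool.Agent.MechAlpha.AvgCurve

/-!
# The loss in a barrier (MP_74f563_an)
-/

set_option autoImplicit false

namespace Pool.Agent.MechAlpha

open MeasureTheory Set
open scoped RealInnerProductSpace

variable {n : ℕ} {S : Vec n ≃L[ℝ] Vec n} {U : Vec n → ℝ} {k : Fin n → ℤ} {ω : Vec n} {W : ℝ → ℝ}
  {M : ℝ} {w : Vec n} {A : ℝ} {γ u : ℝ → Vec n} {a b c : ℝ} {x y z : Vec n} {g g' : ℝ}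

private theorem chi_cont (hW : Continuous W) (κ : ℝ) : Continuous (chi S k W M κ) := by
  unfold chi
  fun_prop

private theorem Psi_deriv (hW : Continuous W) (κ θ : ℝ) :
    HasDerivAt (Psi S k W M κ) (chi S k W M κ θ) θ := by
  unfold Psi
  exact intervalIntegral.integral_hasDerivAt_right
    ((chi_cont hW κ).intervalIntegrable _ _)
    ((chi_cont hW κ).stronglyMeasurableAtFilter _ _) (chi_cont hW κ).continuousAt

private theorem Psi_contDiff (hW : Continuous W) (κ : ℝ) : ContDiff ℝ 1 (Psi S k W M κ) := by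
  rw [contDiff_one_iff_deriv]
  refine ⟨fun θ => (Psi_deriv hW κ θ).differentiableAt, ?_⟩
  have h : deriv (Psi S k W M κ) = chi S k W M κ := funext fun θ => (Psi_deriv hW κ θ).deriv
  rw [h]
  exact chi_cont hW κ

private theorem F_deriv (hW : Continuous W) (κ : ℝ) (x v : Vec n) :
    fderiv ℝ (fun x : Vec n => Psi S k W M κ ⟪kap S k, x⟫) x v =
      chi S k W M κ ⟪kap S k, x⟫ * ⟪kap S k, v⟫ := by
  have h1 : HasFDerivAt (fun x : Vec n => ⟪kap S k, x⟫) (innerSL ℝ (kap S k)) x :=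
    (innerSL ℝ (kap S k)).hasFDerivAt
  have h2 := (Psi_deriv (S := S) (k := k) (M := M) hW κ ⟪kap S k, x⟫).comp_hasFDerivAt x h1
  have h3 : fderiv ℝ (fun x : Vec n => Psi S k W M κ ⟪kap S k, x⟫) x =
      chi S k W M κ ⟪kap S k, x⟫ • innerSL ℝ (kap S k) := h2.fderiv
  rw [h3]
  simp

private theorem F_contDiff (hW : Continuous W) (κ : ℝ) :
    ContDiff ℝ 1 (fun x : Vec n => Psi S k W M κ ⟪kap S k, x⟫) := by
  have h1 : ContDiff ℝ 1 (fun x : Vec n => ⟪kap S k, x⟫) :=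
    (innerSL ℝ (kap S k)).contDiff
  exact (Psi_contDiff hW κ).comp h1

private theorem pointwise (hk : kap S k ≠ 0) (hO : ⟪kap S k, ω⟫ = 0) {κ₀ κ₁ η δ T A θ : ℝ}
    (hd1 : δ ≤ 1 / 4) (h0 : η + δ ≤ κ₀) (h1 : η + δ ≤ κ₁) (hA : M - η ≤ A)
    (hθ : W θ ≤ M - κ₁) (v : Vec n) :
    chi S k W M κ₀ θ * ⟪kap S k, v⟫ ≤
      A - W θ - δ + (1 / 2 - δ) * ‖v - T • ω‖ ^ 2 := by
  have hK : 0 < ‖kap S k‖ := norm_pos_iff.2 hk
  set X : ℝ := max 0 (M - κ₀ - W θ) with hX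
  have hX0 : 0 ≤ X := le_max_left _ _
  have hs0 : 0 ≤ Real.sqrt (X / 2) := Real.sqrt_nonneg _
  have hs2 : Real.sqrt (X / 2) ^ 2 = X / 2 := Real.sq_sqrt (by positivity)
  have hy : ⟪kap S k, v⟫ = ⟪kap S k, v - T • ω⟫ := by
    rw [inner_sub_right, inner_smul_right, hO, mul_zero, sub_zero]
  have hc : ⟪kap S k, v - T • ω⟫ ≤ ‖kap S k‖ * ‖v - T • ω‖ := real_inner_le_norm _ _
  have hchi : chi S k W M κ₀ θ = Real.sqrt (X / 2) / ‖kap S k‖ := rfl
  have h3 : chi S k W M κ₀ θ * ⟪kap S k, v⟫ ≤ Real.sqrt (X / 2) * ‖v - T • ω‖ := by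
    rw [hchi, hy]
    calc Real.sqrt (X / 2) / ‖kap S k‖ * ⟪kap S k, v - T • ω⟫
        ≤ Real.sqrt (X / 2) / ‖kap S k‖ * (‖kap S k‖ * ‖v - T • ω‖) :=
          mul_le_mul_of_nonneg_left hc (by positivity)
      _ = Real.sqrt (X / 2) * ‖v - T • ω‖ := by
          field_simp
  have h4 : Real.sqrt (X / 2) * ‖v - T • ω‖ ≤ X / 2 + ‖v - T • ω‖ ^ 2 / 4 := by
    nlinarith [sq_nonneg (Real.sqrt (X / 2) - ‖v - T • ω‖ / 2)]
  have h5 : X / 2 ≤ A - W θ - δ := by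
    rcases le_total 0 (M - κ₀ - W θ) with h | h
    · have : X = M - κ₀ - W θ := max_eq_right h
      linarith
    · have : X = 0 := max_eq_left h
      linarith
  have h6 : ‖v - T • ω‖ ^ 2 / 4 ≤ (1 / 2 - δ) * ‖v - T • ω‖ ^ 2 := by
    nlinarith [sq_nonneg ‖v - T • ω‖]
  linarith

/-- the loss in a barrier -/
theorem cross (D : Data S U k ω W M) {κ₀ κ₁ ε : ℝ} (h0 : 0 < κ₀) (h1 : 0 < κ₁) (hε : 0 < ε) :
    ∃ η : ℝ, 0 < η ∧ ∃ T₀ : ℝ, ∀ T ≥ T₀, ∀ A ≥ M - η, ∀ (γ u : ℝ → Vec n) (a b : ℝ), Crv γ u a b →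
      (∀ t ∈ Icc a b, W ⟪kap S k, γ t⟫ ≤ M - κ₁) →
      gain U (T • ω) A γ u a b ≤
        -(Psi S k W M κ₀ ⟪kap S k, γ b⟫ - Psi S k W M κ₀ ⟪kap S k, γ a⟫) + ε := by
  obtain ⟨δ, hd0, hd1, hd2, hd3, hd4⟩ : ∃ δ : ℝ, 0 < δ ∧ δ ≤ 1 / 4 ∧ δ ≤ ε ∧ δ + δ ≤ κ₀ ∧
      δ + δ ≤ κ₁ := by
    refine ⟨min (min (1 / 4) ε) (min (κ₀ / 2) (κ₁ / 2)), by positivity, ?_, ?_, ?_, ?_⟩
    · exact (min_le_left _ _).trans (min_le_left _ _)
    · exact (min_le_left _ _).trans (min_le_right _ _)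
    · have := (min_le_right (min (1 / 4) ε) (min (κ₀ / 2) (κ₁ / 2))).trans (min_le_left _ _)
      linarith
    · have := (min_le_right (min (1 / 4) ε) (min (κ₀ / 2) (κ₁ / 2))).trans (min_le_right _ _)
      linarith
  obtain ⟨T₀, hT₀⟩ := avg_curve D hd0
  refine ⟨δ, hd0, T₀, fun T hT A hA γ u a b h hW => ?_⟩
  have hk := kap_ne (S := S) D.k_ne
  have hav := (hT₀ T hT γ u a b h).1
  have hθc : ContinuousOn (fun t => W ⟪kap S k, γ t⟫) (Icc a b) :=
    D.W_cont.comp_continuousOn (continuousOn_const.inner h.cont)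
  have hUc : ContinuousOn (fun t => U (γ t)) (Icc a b) := D.U_cont.comp_continuousOn h.cont
  have iW : IntervalIntegrable (fun t => W ⟪kap S k, γ t⟫) volume a b :=
    hθc.intervalIntegrable_of_Icc h.le
  have iU : IntervalIntegrable (fun t => U (γ t)) volume a b :=
    hUc.intervalIntegrable_of_Icc h.le
  have iy := h.intervalIntegrable_sq (T • ω)
  have iA : IntervalIntegrable (fun _ : ℝ => A) volume a b := intervalIntegrable_const
  have iδ : IntervalIntegrable (fun _ : ℝ => δ) volume a b := intervalIntegrable_const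
  obtain ⟨iF, hF⟩ := h.ftc (F_contDiff (S := S) (k := k) (M := M) D.W_cont κ₀)
  have hmono : ∫ t in a..b, fderiv ℝ (fun x : Vec n => Psi S k W M κ₀ ⟪kap S k, x⟫) (γ t) (u t) ≤
      ∫ t in a..b, (A - W ⟪kap S k, γ t⟫ - δ + (1 / 2 - δ) * ‖u t - T • ω‖ ^ 2) := by
    refine intervalIntegral.integral_mono_on h.le iF
      (((iA.sub iW).sub iδ).add (iy.const_mul _)) fun t ht => ?_
    rw [F_deriv D.W_cont]
    exact pointwise hk D.orth hd1 hd3 hd4 hA (hW t ht) (u t)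
  have e1 : ∫ t in a..b, (A - W ⟪kap S k, γ t⟫ - δ + (1 / 2 - δ) * ‖u t - T • ω‖ ^ 2) =
      (b - a) * A - (∫ t in a..b, W ⟪kap S k, γ t⟫) - (b - a) * δ +
        (1 / 2 - δ) * ∫ t in a..b, ‖u t - T • ω‖ ^ 2 := by
    rw [intervalIntegral.integral_add ((iA.sub iW).sub iδ) (iy.const_mul _),
      intervalIntegral.integral_sub (iA.sub iW) iδ, intervalIntegral.integral_sub iA iW,
      intervalIntegral.integral_const_mul, intervalIntegral.integral_const,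
      intervalIntegral.integral_const, smul_eq_mul, smul_eq_mul]
  have e2 : ∫ t in a..b, (U (γ t) - W ⟪kap S k, γ t⟫) =
      (∫ t in a..b, U (γ t)) - ∫ t in a..b, W ⟪kap S k, γ t⟫ :=
    intervalIntegral.integral_sub iU iW
  have e3 : gain U (T • ω) A γ u a b =
      (∫ t in a..b, U (γ t)) - (∫ t in a..b, ‖u t - T • ω‖ ^ 2) / 2 - (b - a) * A := by
    unfold gain
    rw [intervalIntegral.integral_sub (iU.sub (iy.div_const 2)) iA,
      intervalIntegral.integral_sub iU (iy.div_const 2),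
      intervalIntegral.integral_div, intervalIntegral.integral_const, smul_eq_mul]
  rw [hF, e1] at hmono
  rw [e2] at hav
  have hav' := (abs_le.1 hav).2
  rw [e3]
  linarith

end Pool.Agent.MechAlpha
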