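import Pool.Agent.MechAlpha.Defs
import Pool.Agent.MechAlpha.Vecs
import Pool.Agent.MechAlpha.Average

/-!
# MechAlpha M9c: change of coordinates
-/

set_option autoImplicit false

namespace Pool.Agent.MechAlpha

open MeasureTheory Set
open scoped RealInnerProductSpace

variable {n : ℕ} {S : Vec n ≃L[ℝ] Vec n} {U : Vec n → ℝ} {k : Fin n → ℤ} {ω : Vec n} {W : ℝ → ℝ}
  {M : ℝ} {w : Vec n} {A : ℝ} {γ u : ℝ → Vec n} {a b c : ℝ} {x y z : Vec n} {g g' : ℝ}

theorem exists_data (hU : Continuous U) (hper : Per S U) (hne : ∃ x y, U x ≠ U y) :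
    ∃ (k : Fin n → ℤ) (ω : Vec n) (W : ℝ → ℝ) (M : ℝ), Data S U k ω W M ∧ (∃ θ, W θ < M) ∧
      (2 ≤ n → ω ≠ 0) := by
  obtain ⟨x₁, y₁, hxy⟩ := hne
  have hf : Continuous fun y : Vec n => U (S y) := hU.comp S.continuous
  have hfper : ∀ (x : Vec n) (m : Fin n → ℤ), U (S (x + zv m)) = U (S x) := by
    intro x m
    have h := hper (S x) m
    rw [map_add]
    exact h
  obtain ⟨k, ω, W, hk, hkω, hω, hW, hWper, ⟨θ₁, θ₂, hθ⟩, havg⟩ :=
    exists_average (f := fun y : Vec n => U (S y)) hf hfper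
      ⟨S.symm x₁, S.symm y₁, by simpa using hxy⟩
  have hcomp : IsCompact (range W) :=
    Function.Periodic.compact_of_continuous (f := W) (c := 1) hWper one_ne_zero hW
  obtain ⟨M, ⟨z, hz⟩, hM⟩ := hcomp.exists_isGreatest (range_nonempty W)
  have hle : ∀ θ, W θ ≤ M := fun θ => hM (mem_range_self θ)
  refine ⟨k, S ω, W, M, ⟨hU, hper, hk, ?_, hW, hWper, hle, ⟨z, hz⟩, ?_⟩, ?_, ?_⟩
  · rw [inner_kap]
    simpa using hkω
  · intro δ hδ
    obtain ⟨w, hw, hwper, hwδ⟩ := havg δ hδ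
    refine ⟨fun x => w (S.symm x), hw.comp S.symm.contDiff, ?_, ?_⟩
    · intro x m
      have h : S.symm (x + iv S m) = S.symm x + zv m := by
        rw [map_add, iv, ContinuousLinearEquiv.symm_apply_apply]
      show w (S.symm (x + iv S m)) = w (S.symm x)
      rw [h, hwper]
    · intro x
      have hd : HasFDerivAt (fun x : Vec n => w (S.symm x))
          ((fderiv ℝ w (S.symm x)).comp (S.symm : Vec n →L[ℝ] Vec n)) x := by
        have h1 : HasFDerivAt w (fderiv ℝ w (S.symm x)) (S.symm x) :=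
          (hw.differentiable one_ne_zero (S.symm x)).hasFDerivAt
        exact h1.comp x (S.symm : Vec n →L[ℝ] Vec n).hasFDerivAt
      have h := hwδ (S.symm x)
      rw [hd.fderiv, inner_kap]
      simpa using h
  · rcases lt_or_eq_of_le (hle θ₁) with h | h
    · exact ⟨θ₁, h⟩
    · exact ⟨θ₂, lt_of_le_of_ne (hle θ₂) fun h' => hθ (h.trans h'.symm)⟩
  · intro hn h0
    exact hω hn (by simpa using h0)

end Pool.Agent.MechAlpha
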