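import Mathlib

/-!
# Mather's alpha function (MP_74f563_an): definitions

Lagrangians on `𝕋ⁿ × ℝⁿ × 𝕋`, their Euler-Lagrange flow, Mather's function `α`, and the curves used
in the proof for the mechanical Lagrangians `|S v|²/2 - V(x)` (`S` an invertible matrix).
-/

set_option autoImplicit false

namespace Pool.Agent.MechAlpha

open MeasureTheory Set
open scoped RealInnerProductSpace

/-- `ℝⁿ` -/
abbrev Vec (n : ℕ) : Type := EuclideanSpace ℝ (Fin n)

/-- `𝕋ⁿ` -/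
abbrev Torus (n : ℕ) : Type := Fin n → UnitAddCircle

/-- the phase space `𝕋ⁿ × ℝⁿ × 𝕋` -/
abbrev Phase (n : ℕ) : Type := Torus n × Vec n × UnitAddCircle

variable {n : ℕ}

/-- the point of `𝕋ⁿ` below a vector -/
def proj (x : Vec n) : Torus n := fun i => ((x i : ℝ) : UnitAddCircle)

/-- `γ` is a solution of the Euler-Lagrange equation `d/dt ∂L/∂v = ∂L/∂x` -/
def IsEL (L : Torus n → Vec n → UnitAddCircle → ℝ) (γ : ℝ → Vec n) : Prop :=
  Differentiable ℝ γ ∧ ∀ t : ℝ,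
    HasDerivAt (fun s : ℝ => fderiv ℝ (fun v : Vec n => L (proj (γ s)) v (s : UnitAddCircle))
      (deriv γ s))
      (fderiv ℝ (fun x : Vec n => L (proj x) (deriv γ t) (t : UnitAddCircle)) (γ t)) t

/-- `φ` is the Euler-Lagrange flow of `L`, defined for all times -/
structure IsELFlow (L : Torus n → Vec n → UnitAddCircle → ℝ) (φ : ℝ → Phase n → Phase n) :
    Prop where
  cont : Continuous fun p : ℝ × Phase n => φ p.1 p.2
  orbit : ∀ (x v : Vec n) (t : ℝ), ∃ γ : ℝ → Vec n, IsEL L γ ∧ γ t = x ∧ deriv γ t = v ∧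
    ∀ s : ℝ, φ s (proj x, v, (t : UnitAddCircle)) =
      (proj (γ (t + s)), deriv γ (t + s), ((t + s : ℝ) : UnitAddCircle))

/-- invariant probability measures -/
def Inv (φ : ℝ → Phase n → Phase n) (μ : Measure (Phase n)) : Prop :=
  IsProbabilityMeasure μ ∧ ∀ s : ℝ, μ.map (φ s) = μ

/-- the actions `∫ (L - c·v) dμ` of the invariant probability measures -/
def actions (L : Torus n → Vec n → UnitAddCircle → ℝ) (φ : ℝ → Phase n → Phase n)
    (c : Vec n) : Set ℝ :=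
  {r : ℝ | ∃ μ : Measure (Phase n), Inv φ μ ∧
    Integrable (fun z => L z.1 z.2.1 z.2.2 - ⟪c, z.2.1⟫) μ ∧
    r = ∫ z, (L z.1 z.2.1 z.2.2 - ⟪c, z.2.1⟫) ∂μ}

/-- Mather's function `α(c) = - inf ∫ (L - c·v) dμ` -/
noncomputable def alpha (L : Torus n → Vec n → UnitAddCircle → ℝ) (φ : ℝ → Phase n → Phase n)
    (c : Vec n) : ℝ :=
  -sInf (actions L φ c)

/-- the mechanical Lagrangian `|S v|²/2 - V(x)` -/
noncomputable def mech (S : Vec n ≃L[ℝ] Vec n) (V : Torus n → ℝ) :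
    Torus n → Vec n → UnitAddCircle → ℝ :=
  fun x v _ => ‖S v‖ ^ 2 / 2 - V x

/-! ## Tools of the proof -/

/-- integer vectors -/
def zv (m : Fin n → ℤ) : Vec n := WithLp.toLp 2 fun i => (m i : ℝ)

/-- the vectors of the lattice `S ℤⁿ` -/
def iv (S : Vec n ≃L[ℝ] Vec n) (m : Fin n → ℤ) : Vec n := S (zv m)

/-- the vectors of the dual lattice: `⟪kap S k, x⟫ = k · S⁻¹ x` -/
noncomputable def kap (S : Vec n ≃L[ℝ] Vec n) (k : Fin n → ℤ) : Vec n :=
  ContinuousLinearMap.adjoint (S.symm : Vec n →L[ℝ] Vec n) (zv k)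

/-- the covector `c` in the coordinates `X = S x` -/
noncomputable def til (S : Vec n ≃L[ℝ] Vec n) (c : Vec n) : Vec n :=
  ContinuousLinearMap.adjoint (S.symm : Vec n →L[ℝ] Vec n) c

/-- the potential in the coordinates `X = S x` -/
def pot (S : Vec n ≃L[ℝ] Vec n) (V : Torus n → ℝ) : Vec n → ℝ := fun X => V (proj (S.symm X))

/-- `S ℤⁿ`-periodic functions -/
def Per {A : Type} (S : Vec n ≃L[ℝ] Vec n) (f : Vec n → A) : Prop := ∀ x m, f (x + iv S m) = f x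

/-- a curve on `[a, b]` with velocity `u`: continuous, differentiable off a countable set -/
structure Crv (γ u : ℝ → Vec n) (a b : ℝ) : Prop where
  le : a ≤ b
  cont : ContinuousOn γ (Icc a b)
  der : ∃ N : Set ℝ, N.Countable ∧ ∀ t ∈ Ioo a b, t ∉ N → HasDerivAt γ (u t) t
  int : IntervalIntegrable u volume a b
  sq : IntervalIntegrable (fun t => ‖u t‖ ^ 2) volume a b

/-- the gain of a curve, relative to the velocity `w` and the level `A` -/
noncomputable def gain (U : Vec n → ℝ) (w : Vec n) (A : ℝ) (γ u : ℝ → Vec n) (a b : ℝ) : ℝ :=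
  ∫ t in a..b, (U (γ t) - ‖u t - w‖ ^ 2 / 2 - A)

/-- all closed curves of `ℝⁿ / S ℤⁿ` have gain at most zero -/
def Closed (S : Vec n ≃L[ℝ] Vec n) (U : Vec n → ℝ) (w : Vec n) (A : ℝ) : Prop :=
  ∀ (γ u : ℝ → Vec n) (a b : ℝ), Crv γ u a b → ∀ m, γ b = γ a + iv S m → gain U w A γ u a b ≤ 0

/-- `g` is the gain of a curve from `x` to `y` -/
def Reach (U : Vec n → ℝ) (w : Vec n) (A : ℝ) (x y : Vec n) (g : ℝ) : Prop :=
  ∃ (γ u : ℝ → Vec n) (a b : ℝ), Crv γ u a b ∧ γ a = x ∧ γ b = y ∧ gain U w A γ u a b = g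

/-- `W` is the average of `U` over the leaves `⟪kap S k, x⟫ = const`, with respect to the flow in the
direction `ω` -/
def Avg (S : Vec n ≃L[ℝ] Vec n) (U : Vec n → ℝ) (k : Fin n → ℤ) (ω : Vec n) (W : ℝ → ℝ) : Prop :=
  ∀ δ > 0, ∃ w : Vec n → ℝ, ContDiff ℝ 1 w ∧ Per S w ∧
    ∀ x, |fderiv ℝ w x ω - (U x - W ⟪kap S k, x⟫)| ≤ δ

/-- the data of the averaged problem -/
structure Data (S : Vec n ≃L[ℝ] Vec n) (U : Vec n → ℝ) (k : Fin n → ℤ) (ω : Vec n) (W : ℝ → ℝ)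
    (M : ℝ) : Prop where
  U_cont : Continuous U
  U_per : Per S U
  k_ne : k ≠ 0
  orth : ⟪kap S k, ω⟫ = 0
  W_cont : Continuous W
  W_per : ∀ θ, W (θ + 1) = W θ
  le : ∀ θ, W θ ≤ M
  max : ∃ z, W z = M
  avg : Avg S U k ω W

/-- the speed at which the barrier is crossed -/
noncomputable def chi (S : Vec n ≃L[ℝ] Vec n) (k : Fin n → ℤ) (W : ℝ → ℝ) (M κ : ℝ) (θ : ℝ) : ℝ :=
  Real.sqrt (max 0 (M - κ - W θ) / 2) / ‖kap S k‖

/-- the loss in the barrier -/
noncomputable def Psi (S : Vec n ≃L[ℝ] Vec n) (k : Fin n → ℤ) (W : ℝ → ℝ) (M κ : ℝ) (θ : ℝ) : ℝ :=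
  ∫ τ in (0 : ℝ)..θ, chi S k W M κ τ

/-- solutions of Newton's equation -/
def Newton (U : Vec n → ℝ) (X Y : ℝ → Vec n) : Prop :=
  (∀ t, HasDerivAt X (Y t) t) ∧ ∀ t, HasDerivAt Y (-gradient U (X t)) t

/-- the Störmer scheme for Newton's equation, with `N` steps of length `h` -/
def Scheme (U : Vec n → ℝ) (h : ℝ) (N : ℕ) (x v : ℕ → Vec n) : Prop :=
  (∀ i < N, v (i + 1) = v i - h • gradient U (x i)) ∧ ∀ i < N, x (i + 1) = x i + h • v (i + 1)

end Pool.Agent.MechAlpha
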