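import Pool.Agent.MechAlpha.Vecs

/-!
# Minimisers of the discrete action
-/

set_option autoImplicit false

namespace Pool.Agent.MechAlpha

open MeasureTheory Set
open scoped RealInnerProductSpace

variable {n : ℕ} {S : Vec n ≃L[ℝ] Vec n} {U : Vec n → ℝ}

/-- the velocities of a configuration -/
private noncomputable def dW {p : ℕ} (h : ℝ) (z : Vec n) (y : Fin (p + 1) → Vec n)
    (i : Fin (p + 1)) : Vec n :=
  h⁻¹ • (y (i + 1) + (if i = Fin.last p then z else 0) - y i)

/-- the discrete action -/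
private noncomputable def dA {p : ℕ} (U : Vec n → ℝ) (h : ℝ) (z : Vec n)
    (y : Fin (p + 1) → Vec n) : ℝ :=
  ∑ i, h * (‖dW h z y i‖ ^ 2 / 2 - U (y i))

private theorem d_bound (hU : Continuous U) (hper : Per S U) : ∃ K : ℝ, 0 ≤ K ∧ ∀ x, |U x| ≤ K := by
  obtain ⟨C, hC, hC'⟩ := exists_lattice' S
  obtain ⟨K, hK⟩ := (isCompact_closedBall (0 : Vec n) C).exists_bound_of_continuousOn
    hU.continuousOn
  refine ⟨|K|, abs_nonneg _, fun x => ?_⟩
  obtain ⟨m, hm⟩ := hC' x
  have h1 : U (x + iv S (-m)) = U x := hper x (-m)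
  rw [← h1, iv_neg]
  have h2 : x + -iv S m ∈ Metric.closedBall (0 : Vec n) C := by
    rw [mem_closedBall_zero_iff]
    have e : x + -iv S m = -(iv S m - x) := by abel
    rw [e, norm_neg]
    exact hm
  exact (hK _ h2).trans (le_abs_self K)

private theorem d_cell (x : Vec n) : ∃ l : Fin n → ℤ, ∀ i, |(S.symm (x + iv S l)) i| ≤ 1 := by
  refine ⟨fun i => -⌊(S.symm x) i⌋, fun i => ?_⟩
  rw [map_add, iv, ContinuousLinearEquiv.symm_apply_apply, PiLp.add_apply]
  have e : (zv fun i => -⌊(S.symm x) i⌋ : Vec n) i = -(⌊(S.symm x) i⌋ : ℝ) := by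
    show (((-⌊(S.symm x) i⌋ : ℤ)) : ℝ) = _
    push_cast
    rfl
  rw [e, ← sub_eq_add_neg]
  have h1 := Int.fract_nonneg ((S.symm x) i)
  have h2 := Int.fract_lt_one ((S.symm x) i)
  have h3 : (S.symm x) i - ⌊(S.symm x) i⌋ = Int.fract ((S.symm x) i) := rfl
  rw [h3, abs_of_nonneg h1]
  exact h2.le

private theorem d_norm0 (S : Vec n ≃L[ℝ] Vec n) : ∃ C : ℝ, 0 ≤ C ∧ ∀ x : Vec n,
    (∀ i, |(S.symm x) i| ≤ 1) → ‖x‖ ≤ C := by
  refine ⟨‖(S : Vec n →L[ℝ] Vec n)‖ * (1 + n), by positivity, fun x hx => ?_⟩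
  have h1 : ‖S.symm x‖ ^ 2 ≤ n := by
    rw [EuclideanSpace.norm_sq_eq]
    calc ∑ i, ‖(S.symm x) i‖ ^ 2 ≤ ∑ _i : Fin n, (1 : ℝ) := by
          refine Finset.sum_le_sum fun i _ => ?_
          rw [Real.norm_eq_abs]
          exact pow_le_one₀ (abs_nonneg _) (hx i)
      _ = n := by simp
  have h2 : ‖S.symm x‖ ≤ 1 + n := by
    nlinarith [norm_nonneg (S.symm x), sq_nonneg (‖S.symm x‖ - 1)]
  have h3 : x = (S : Vec n →L[ℝ] Vec n) (S.symm x) := by simp
  calc ‖x‖ = ‖(S : Vec n →L[ℝ] Vec n) (S.symm x)‖ := by rw [← h3]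
    _ ≤ ‖(S : Vec n →L[ℝ] Vec n)‖ * ‖S.symm x‖ := ContinuousLinearMap.le_opNorm _ _
    _ ≤ _ := mul_le_mul_of_nonneg_left h2 (norm_nonneg _)

private theorem d_translate {p : ℕ} (hper : Per S U) (h : ℝ) (z : Vec n) (l : Fin n → ℤ)
    (y : Fin (p + 1) → Vec n) : dA U h z (fun i => y i + iv S l) = dA U h z y := by
  unfold dA dW
  refine Finset.sum_congr rfl fun i _ => ?_
  rw [hper]
  have e : y (i + 1) + iv S l + (if i = Fin.last p then z else 0) - (y i + iv S l) =
      y (i + 1) + (if i = Fin.last p then z else 0) - y i := by abel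
  rw [e]

private theorem d_cont {p : ℕ} (hU : Continuous U) (h : ℝ) (z : Vec n) :
    Continuous (dA (p := p) U h z) := by
  unfold dA dW
  refine continuous_finset_sum _ fun i _ => ?_
  have h1 : Continuous fun y : Fin (p + 1) → Vec n => y i := continuous_apply i
  have h2 : Continuous fun y : Fin (p + 1) → Vec n => y (i + 1) := continuous_apply (i + 1)
  have h3 : Continuous fun y : Fin (p + 1) → Vec n => U (y i) := hU.comp h1
  have h4 : Continuous fun y : Fin (p + 1) → Vec n =>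
      h⁻¹ • (y (i + 1) + (if i = Fin.last p then z else 0) - y i) := by
    fun_prop
  exact continuous_const.mul (((h4.norm.pow 2).div_const 2).sub h3)

/-- configurations of bounded action are bounded -/
private theorem d_coercive {p : ℕ} (hU : Continuous U) (hper : Per S U) {h : ℝ} (hh : 0 < h)
    (z : Vec n) (B : ℝ) : ∃ R : ℝ, 0 ≤ R ∧ ∀ y : Fin (p + 1) → Vec n,
      (∀ i, |(S.symm (y 0)) i| ≤ 1) → dA U h z y ≤ B → ∀ i, ‖y i‖ ≤ R := by
  obtain ⟨K, hK, hK'⟩ := d_bound hU hper
  obtain ⟨C, hC, hC'⟩ := d_norm0 S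
  set B' : ℝ := |B| + (p + 1) * (h * K) with hB'
  set c : ℝ := h * (1 + 2 * (B' / h)) with hc
  have hB0 : 0 ≤ B' := by positivity
  have hc0 : 0 ≤ c := by positivity
  refine ⟨C + (p + 1) * c, by positivity, fun y hy hA => ?_⟩
  have h1 : ∀ i, ‖dW h z y i‖ ^ 2 ≤ 2 * (B' / h) := by
    intro i
    have h2 : ∑ j, h * (‖dW h z y j‖ ^ 2 / 2) ≤ B' := by
      have h3 : ∑ j, h * (‖dW h z y j‖ ^ 2 / 2) = dA U h z y + ∑ j : Fin (p + 1), h * U (y j) := by
        unfold dA
        rw [← Finset.sum_add_distrib]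
        exact Finset.sum_congr rfl fun j _ => by ring
      have h4 : ∑ j : Fin (p + 1), h * U (y j) ≤ (p + 1) * (h * K) := by
        calc ∑ j : Fin (p + 1), h * U (y j) ≤ ∑ _j : Fin (p + 1), h * K := by
              refine Finset.sum_le_sum fun j _ => ?_
              exact mul_le_mul_of_nonneg_left ((le_abs_self _).trans (hK' _)) hh.le
          _ = (p + 1) * (h * K) := by
              rw [Finset.sum_const, Finset.card_univ, Fintype.card_fin, nsmul_eq_mul]
              push_cast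
              ring
      rw [h3, hB']
      have h5 := le_abs_self B
      linarith
    have h3 : h * (‖dW h z y i‖ ^ 2 / 2) ≤ B' :=
      (Finset.single_le_sum (f := fun j => h * (‖dW h z y j‖ ^ 2 / 2))
        (fun j _ => by positivity) (Finset.mem_univ i)).trans h2
    have h4 : ‖dW h z y i‖ ^ 2 / 2 ≤ B' / h := by
      rw [le_div_iff₀ hh]
      linarith
    linarith
  have h2 : ∀ i, ‖y (i + 1) + (if i = Fin.last p then z else 0) - y i‖ ≤ c := by
    intro i
    have h3 : ‖dW h z y i‖ ≤ 1 + 2 * (B' / h) := by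
      nlinarith [h1 i, norm_nonneg (dW h z y i), sq_nonneg (‖dW h z y i‖ - 1)]
    have h4 : y (i + 1) + (if i = Fin.last p then z else 0) - y i = h • dW h z y i := by
      unfold dW
      rw [smul_smul, mul_inv_cancel₀ hh.ne', one_smul]
    rw [h4, norm_smul, Real.norm_eq_abs, abs_of_pos hh, hc]
    exact mul_le_mul_of_nonneg_left h3 hh.le
  have h3 : ∀ i : ℕ, ∀ hi : i < p + 1, ‖y ⟨i, hi⟩‖ ≤ C + i * c := by
    intro i
    induction i with
    | zero =>
      intro hi
      have h4 := hC' (y 0) hy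
      simpa using h4
    | succ i ih =>
      intro hi
      have h4 := h2 ⟨i, by omega⟩
      have h5 : (⟨i, by omega⟩ : Fin (p + 1)) + 1 = ⟨i + 1, hi⟩ := by
        apply Fin.ext
        rw [Fin.val_add, Fin.val_one']
        simp only
        have : p ≠ 0 := by omega
        rw [Nat.mod_eq_of_lt (show 1 < p + 1 by omega), Nat.mod_eq_of_lt hi]
      have h6 : (⟨i, by omega⟩ : Fin (p + 1)) ≠ Fin.last p := by
        intro h
        have := congrArg Fin.val h
        simp at this
        omega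
      rw [h5, if_neg h6, add_zero] at h4
      have h7 := ih (by omega)
      have h8 : y ⟨i + 1, hi⟩ = (y ⟨i + 1, hi⟩ - y ⟨i, by omega⟩) + y ⟨i, by omega⟩ := by abel
      rw [h8]
      refine (norm_add_le _ _).trans ?_
      push_cast
      linarith
  intro i
  have h4 := h3 i i.2
  have h5 : ((i : ℕ) : ℝ) ≤ p + 1 := by
    have := i.2
    exact_mod_cast this.le
  have h6 : ((i : ℕ) : ℝ) * c ≤ (p + 1) * c := mul_le_mul_of_nonneg_right h5 hc0
  linarith

private theorem d_min {p : ℕ} (hU : Continuous U) (hper : Per S U) {h : ℝ} (hh : 0 < h)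
    (z : Vec n) : ∃ y : Fin (p + 1) → Vec n, (∀ i, |(S.symm (y 0)) i| ≤ 1) ∧
      ∀ y' : Fin (p + 1) → Vec n, dA U h z y ≤ dA U h z y' := by
  obtain ⟨R, hR, hR'⟩ := d_coercive (p := p) hU hper hh z (dA U h z (0 : Fin (p + 1) → Vec n))
  set Q : Set (Fin (p + 1) → Vec n) := {y | (∀ i, |(S.symm (y 0)) i| ≤ 1) ∧ ∀ i, ‖y i‖ ≤ R}
    with hQ
  have hQ0 : (0 : Fin (p + 1) → Vec n) ∈ Q := by
    refine ⟨fun i => ?_, fun i => ?_⟩
    · rw [Pi.zero_apply, map_zero]
      simp
    · rw [Pi.zero_apply, norm_zero]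
      exact hR
  have hclosed : IsClosed Q := by
    have h1 : Q = (⋂ i, {y | |(S.symm (y 0)) i| ≤ 1}) ∩ ⋂ i, {y | ‖y i‖ ≤ R} := by
      ext y
      simp [hQ]
    rw [h1]
    refine IsClosed.inter (isClosed_iInter fun i => ?_) (isClosed_iInter fun i => ?_)
    · refine isClosed_le ?_ continuous_const
      have h2 : Continuous fun y : Fin (p + 1) → Vec n => S.symm (y 0) :=
        S.symm.continuous.comp (continuous_apply 0)
      exact ((EuclideanSpace.proj (𝕜 := ℝ) i).continuous.comp h2).abs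
    · exact isClosed_le (continuous_apply i).norm continuous_const
  have hcomp : IsCompact Q := by
    refine (isCompact_closedBall (0 : Fin (p + 1) → Vec n) R).of_isClosed_subset hclosed ?_
    intro y hy
    rw [mem_closedBall_zero_iff, pi_norm_le_iff_of_nonneg hR]
    exact hy.2
  obtain ⟨y, hy, hmin⟩ := hcomp.exists_isMinOn ⟨0, hQ0⟩ (d_cont hU h z).continuousOn
  refine ⟨y, hy.1, fun y' => ?_⟩
  obtain ⟨l, hl⟩ := d_cell (S := S) (y' 0)
  rw [← d_translate hper h z l y']
  rcases le_or_gt (dA U h z fun i => y' i + iv S l) (dA U h z (0 : Fin (p + 1) → Vec n))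
    with h1 | h1
  · exact hmin (show (fun i => y' i + iv S l) ∈ Q from ⟨hl, hR' _ hl h1⟩)
  · exact (hmin hQ0).trans h1.le

/-- the Euler-Lagrange equations -/
private theorem d_eq {p : ℕ} (hU : Differentiable ℝ U) {h : ℝ} (hh : 0 < h) (z : Vec n)
    {y : Fin (p + 1) → Vec n} (hmin : ∀ y' : Fin (p + 1) → Vec n, dA U h z y ≤ dA U h z y')
    (i : Fin (p + 1)) :
    dW h z y i = dW h z y (i - 1) - h • gradient U (y i) := by
  set e : Fin (p + 1) → Vec n := fun i =>
    dW h z y (i - 1) - dW h z y i - h • gradient U (y i) with he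
  have hpert : ∀ (s : ℝ) (i : Fin (p + 1)), dW h z (fun i => y i + s • e i) i =
      dW h z y i + s • (h⁻¹ • (e (i + 1) - e i)) := by
    intro s i
    unfold dW
    module
  have hder : HasDerivAt (fun s : ℝ => dA U h z (fun i => y i + s • e i))
      (∑ i, h * (2 * ⟪dW h z y i, h⁻¹ • (e (i + 1) - e i)⟫ / 2 - ⟪gradient U (y i), e i⟫)) 0 := by
    unfold dA
    refine HasDerivAt.fun_sum fun i _ => ?_
    refine HasDerivAt.const_mul h (HasDerivAt.sub ?_ ?_)
    · have h1 : HasDerivAt (fun s : ℝ => dW h z (fun i => y i + s • e i) i)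
          (h⁻¹ • (e (i + 1) - e i)) 0 := by
        simp only [hpert]
        have h2 := ((hasDerivAt_id (0 : ℝ)).smul_const (h⁻¹ • (e (i + 1) - e i))).const_add
          (dW h z y i)
        rwa [one_smul] at h2
      have h2 := h1.norm_sq.div_const 2
      simp only [zero_smul, add_zero] at h2
      exact h2
    · have h1 : HasDerivAt (fun s : ℝ => y i + s • e i) (e i) 0 := by
        have h2 := ((hasDerivAt_id (0 : ℝ)).smul_const (e i)).const_add (y i)
        rwa [one_smul] at h2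
      have h2 : HasFDerivAt U (InnerProductSpace.toDual ℝ (Vec n) (gradient U (y i)))
          (y i + (0 : ℝ) • e i) := by
        rw [zero_smul, add_zero]
        exact (hU (y i)).hasGradientAt.hasFDerivAt
      have h3 := h2.comp_hasDerivAt (0 : ℝ) h1
      rw [InnerProductSpace.toDual_apply_apply] at h3
      exact h3
  have hlm : IsLocalMin (fun s : ℝ => dA U h z (fun i => y i + s • e i)) 0 := by
    refine Filter.Eventually.of_forall fun s => ?_
    simp only [zero_smul, add_zero]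
    exact hmin _
  have h0 := hlm.hasDerivAt_eq_zero hder
  have h1 : ∑ i, h * (2 * ⟪dW h z y i, h⁻¹ • (e (i + 1) - e i)⟫ / 2 - ⟪gradient U (y i), e i⟫) =
      ∑ i, ⟪e i, e i⟫ := by
    have h2 : ∀ i, h * (2 * ⟪dW h z y i, h⁻¹ • (e (i + 1) - e i)⟫ / 2 -
        ⟪gradient U (y i), e i⟫) =
        ⟪dW h z y i, e (i + 1)⟫ - (⟪dW h z y i, e i⟫ + h * ⟪gradient U (y i), e i⟫) := by
      intro i
      rw [inner_smul_right, inner_sub_right]
      have hne := hh.ne'
      field_simp
      ring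
    rw [Finset.sum_congr rfl fun i _ => h2 i, Finset.sum_sub_distrib]
    have h3 : ∑ i, ⟪dW h z y i, e (i + 1)⟫ = ∑ i, ⟪dW h z y (i - 1), e i⟫ := by
      refine Fintype.sum_equiv (Equiv.addRight (1 : Fin (p + 1))) _ _ fun i => ?_
      rw [Equiv.coe_addRight, add_sub_cancel_right]
    rw [h3, ← Finset.sum_sub_distrib]
    refine Finset.sum_congr rfl fun i _ => ?_
    conv_rhs => rw [he]
    simp only
    rw [inner_sub_left, inner_sub_left, real_inner_smul_left]
    ring
  rw [h1] at h0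
  have h2 := (Finset.sum_eq_zero_iff_of_nonneg fun i _ => real_inner_self_nonneg).1 h0 i
    (Finset.mem_univ i)
  have h3 : e i = 0 := inner_self_eq_zero.1 h2
  have h4 : dW h z y (i - 1) - dW h z y i - h • gradient U (y i) = 0 := h3
  rw [sub_sub, sub_eq_zero] at h4
  rw [h4]
  abel

/-- the minimisers of the discrete action -/
theorem exists_scheme (hU : ContDiff ℝ 2 U) (hper : Per S U) (m : Fin n → ℤ) {h : ℝ} (hh : 0 < h)
    {N : ℕ} (hN : 0 < N) : ∃ x v : ℕ → Vec n, Scheme U h N x v ∧ x N = x 0 + iv S m ∧ v N = v 0 ∧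
      (∀ i, |(S.symm (x 0)) i| ≤ 1) ∧
      ∀ x' v' : ℕ → Vec n, (∀ i < N, x' (i + 1) = x' i + h • v' (i + 1)) →
        x' N = x' 0 + iv S m →
        ∑ i ∈ Finset.range N, h * (‖v (i + 1)‖ ^ 2 / 2 - U (x i)) ≤
          ∑ i ∈ Finset.range N, h * (‖v' (i + 1)‖ ^ 2 / 2 - U (x' i)) := by
  obtain ⟨p, rfl⟩ : ∃ p, N = p + 1 := ⟨N - 1, by omega⟩
  have hUc : Continuous U := hU.continuous
  have hUd : Differentiable ℝ U := hU.differentiable (by norm_num)
  obtain ⟨y, hy, hmin⟩ := d_min (p := p) hUc hper hh (iv S m)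
  -- the cyclic index
  have hval : ∀ i : ℕ, ∀ hi : i < p + 1, (Fin.ofNat (p + 1) i : Fin (p + 1)) = ⟨i, hi⟩ := by
    intro i hi
    apply Fin.ext
    rw [Fin.val_ofNat, Nat.mod_eq_of_lt hi]
  have hsucc : ∀ i : ℕ, (Fin.ofNat (p + 1) (i + 1) : Fin (p + 1)) = Fin.ofNat (p + 1) i + 1 := by
    intro i
    apply Fin.ext
    rw [Fin.val_ofNat, Fin.val_add, Fin.val_ofNat, Fin.val_one', ← Nat.add_mod]
  have hlast : (Fin.ofNat (p + 1) (p + 1) : Fin (p + 1)) = 0 := by
    apply Fin.ext
    rw [Fin.val_ofNat, Nat.mod_self]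
    rfl
  have hlast' : ∀ i : ℕ, i < p + 1 → ((Fin.ofNat (p + 1) i : Fin (p + 1)) = Fin.last p ↔ i = p) := by
    intro i hi
    rw [hval i hi]
    constructor
    · intro h1
      exact congrArg Fin.val h1
    · intro h1
      exact Fin.ext h1
  have hpred : ∀ i : ℕ, (Fin.ofNat (p + 1) (i + p) : Fin (p + 1)) = Fin.ofNat (p + 1) i - 1 := by
    intro i
    rw [eq_sub_iff_add_eq, ← hsucc]
    apply Fin.ext
    rw [Fin.val_ofNat, Fin.val_ofNat, add_assoc, Nat.add_mod_right]
  set x : ℕ → Vec n := fun i => y (Fin.ofNat (p + 1) i) + if i = p + 1 then iv S m else 0 with hx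
  set v : ℕ → Vec n := fun i => dW h (iv S m) y (Fin.ofNat (p + 1) (i + p)) with hv
  have hx0 : x 0 = y 0 := by
    simp only [hx]
    rw [if_neg (by omega), add_zero]
    rfl
  have hxi : ∀ i < p + 1, x i = y (Fin.ofNat (p + 1) i) := by
    intro i hi
    simp only [hx]
    rw [if_neg (by omega), add_zero]
  have hxN : x (p + 1) = y 0 + iv S m := by
    simp only [hx]
    rw [if_true, hlast]
  have hv1 : ∀ i, v (i + 1) = dW h (iv S m) y (Fin.ofNat (p + 1) i) := by
    intro i
    simp only [hv]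
    congr 1
    apply Fin.ext
    rw [Fin.val_ofNat, Fin.val_ofNat, add_assoc, add_comm 1 p, Nat.add_mod_right]
  have hsum : ∀ f : Fin (p + 1) → ℝ, ∑ i, f i =
      ∑ i ∈ Finset.range (p + 1), f (Fin.ofNat (p + 1) i) := by
    intro f
    rw [Finset.sum_range]
    refine Finset.sum_congr rfl fun i _ => ?_
    rw [hval i i.2]
  refine ⟨x, v, ⟨fun i hi => ?_, fun i hi => ?_⟩, ?_, ?_, ?_, ?_⟩
  · rw [hv1, hxi i hi, d_eq hUd hh (iv S m) hmin]
    simp only [hv]
    rw [hpred]
  · rw [hv1]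
    unfold dW
    rw [smul_smul, mul_inv_cancel₀ hh.ne', one_smul, hxi i hi, ← hsucc]
    simp only [hx]
    by_cases hip : i = p
    · rw [if_pos ((hlast' i hi).2 hip), if_pos (by omega)]
      abel
    · rw [if_neg (fun h1 => hip ((hlast' i hi).1 h1)), if_neg (by omega)]
      abel
  · rw [hxN, hx0]
  · simp only [hv]
    congr 1
    apply Fin.ext
    rw [Fin.val_ofNat, Fin.val_ofNat, zero_add, add_comm (p + 1) p, Nat.add_mod_right]
  · rw [hx0]
    exact hy
  · intro x' v' hx' hx'N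
    have h1 : ∑ i ∈ Finset.range (p + 1), h * (‖v (i + 1)‖ ^ 2 / 2 - U (x i)) =
        dA U h (iv S m) y := by
      unfold dA
      rw [hsum]
      refine Finset.sum_congr rfl fun i hi => ?_
      rw [hv1, hxi i (Finset.mem_range.1 hi)]
    have h2 : ∑ i ∈ Finset.range (p + 1), h * (‖v' (i + 1)‖ ^ 2 / 2 - U (x' i)) =
        dA U h (iv S m) fun i : Fin (p + 1) => x' i := by
      unfold dA
      rw [hsum]
      refine Finset.sum_congr rfl fun i hi => ?_
      have hi' := Finset.mem_range.1 hi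
      have e1 : ((Fin.ofNat (p + 1) i : Fin (p + 1)) : ℕ) = i := by
        rw [hval i hi']
      have e2 : dW h (iv S m) (fun i : Fin (p + 1) => x' i) (Fin.ofNat (p + 1) i) =
          v' (i + 1) := by
        unfold dW
        simp only
        rw [e1, ← hsucc]
        by_cases hip : i = p
        · rw [if_pos ((hlast' i hi').2 hip)]
          subst hip
          rw [hlast]
          have e3 : ((0 : Fin (i + 1)) : ℕ) = 0 := rfl
          rw [e3, ← hx'N, hx' i hi', add_sub_cancel_left, smul_smul, inv_mul_cancel₀ hh.ne',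
            one_smul]
        · rw [if_neg (fun h1 => hip ((hlast' i hi').1 h1)), hval (i + 1) (by omega)]
          simp only
          rw [hx' i hi', add_zero, add_sub_cancel_left, smul_smul, inv_mul_cancel₀ hh.ne',
            one_smul]
      rw [e2]
      simp only
      rw [e1]
    rw [h1, h2]
    exact hmin _

end Pool.Agent.MechAlpha
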