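import Pool.Agent.MechAlpha.Defs

/-!
# Newton's equation with a periodic potential
-/

set_option autoImplicit false

namespace Pool.Agent.MechAlpha

open MeasureTheory Set
open scoped RealInnerProductSpace NNReal

variable {n : ℕ} {S : Vec n ≃L[ℝ] Vec n} {U : Vec n → ℝ}

private theorem bounded_per {F : Type*} [NormedAddCommGroup F] {f : Vec n → F} (hf : Continuous f)
    (hper : ∀ x m, f (x + iv S m) = f x) : ∃ K : ℝ, ∀ x, ‖f x‖ ≤ K := by
  have hc : IsCompact ((fun y : Fin n → ℝ => S (WithLp.toLp 2 y)) ''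
      (Set.pi univ fun _ : Fin n => Icc (0 : ℝ) 1)) :=
    (isCompact_univ_pi fun _ => isCompact_Icc).image
      (S.continuous.comp (PiLp.continuous_toLp 2 _))
  obtain ⟨K, hK⟩ := hc.exists_bound_of_continuousOn hf.continuousOn
  refine ⟨K, fun x => ?_⟩
  have h1 : x = S (WithLp.toLp 2 fun i => Int.fract ((S.symm x) i)) +
      iv S fun i => ⌊(S.symm x) i⌋ := by
    unfold iv
    rw [← map_add]
    have h2 : (WithLp.toLp 2 fun i => Int.fract ((S.symm x) i)) +
        zv (fun i => ⌊(S.symm x) i⌋) = S.symm x := by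
      ext i
      simp only [zv, PiLp.add_apply]
      exact Int.fract_add_floor _
    rw [h2, S.apply_symm_apply]
  rw [h1, hper]
  exact hK _ ⟨_, fun i _ => ⟨Int.fract_nonneg _, (Int.fract_lt_one _).le⟩, rfl⟩

private theorem fderiv_per {F : Type*} [NormedAddCommGroup F] [NormedSpace ℝ F] {f : Vec n → F}
    (hper : ∀ x m, f (x + iv S m) = f x) (x : Vec n) (m : Fin n → ℤ) :
    fderiv ℝ f (x + iv S m) = fderiv ℝ f x := by
  have h : (fun y => f (y + iv S m)) = f := funext fun y => hper y m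
  have h1 := fderiv_comp_add_right (𝕜 := ℝ) (f := f) (x := x) (iv S m)
  rw [h] at h1
  exact h1.symm

private theorem norm_gradient_sub (x y : Vec n) :
    ‖gradient U x - gradient U y‖ = ‖fderiv ℝ U x - fderiv ℝ U y‖ := by
  unfold gradient
  rw [← map_sub, LinearIsometryEquiv.norm_map]

private theorem norm_gradient (x : Vec n) : ‖gradient U x‖ = ‖fderiv ℝ U x‖ := by
  unfold gradient
  rw [LinearIsometryEquiv.norm_map]

/-- the derivatives of a periodic function are bounded -/
theorem gradient_bounds (hU : ContDiff ℝ 2 U) (hper : Per S U) : ∃ K : ℝ, 0 < K ∧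
    (∀ x, |U x| ≤ K) ∧ (∀ x, ‖gradient U x‖ ≤ K) ∧
    (∀ x y, ‖gradient U x - gradient U y‖ ≤ K * ‖x - y‖) ∧
    ∀ x y, |U x - U y| ≤ K * ‖x - y‖ := by
  have hU1 : ContDiff ℝ 1 (fderiv ℝ U) := hU.fderiv_right (by norm_num)
  obtain ⟨K₀, h0⟩ := bounded_per (S := S) hU.continuous hper
  obtain ⟨K₁, h1⟩ := bounded_per (S := S) hU1.continuous (fderiv_per hper)
  obtain ⟨K₂, h2⟩ := bounded_per (S := S) (hU1.continuous_fderiv (by norm_num))
    (fderiv_per (fderiv_per hper))
  have p0 : 0 ≤ K₀ := (norm_nonneg _).trans (h0 0)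
  have p1 : 0 ≤ K₁ := (norm_nonneg _).trans (h1 0)
  have p2 : 0 ≤ K₂ := (norm_nonneg _).trans (h2 0)
  refine ⟨K₀ + K₁ + K₂ + 1, by linarith, fun x => ?_, fun x => ?_, fun x y => ?_, fun x y => ?_⟩
  · have := h0 x
    rw [Real.norm_eq_abs] at this
    linarith
  · rw [norm_gradient]
    linarith [h1 x]
  · rw [norm_gradient_sub]
    have h3 := Convex.norm_image_sub_le_of_norm_fderiv_le (𝕜 := ℝ) (f := fderiv ℝ U)
      (s := univ) (x := y) (y := x) (C := K₂)
      (fun z _ => (hU1.differentiable (by norm_num)).differentiableAt) (fun z _ => h2 z)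
      convex_univ (mem_univ _) (mem_univ _)
    refine h3.trans (mul_le_mul_of_nonneg_right (by linarith) (norm_nonneg _))
  · have h3 := Convex.norm_image_sub_le_of_norm_fderiv_le (𝕜 := ℝ) (f := U)
      (s := univ) (x := y) (y := x) (C := K₁)
      (fun z _ => (hU.differentiable (by norm_num)).differentiableAt) (fun z _ => h1 z)
      convex_univ (mem_univ _) (mem_univ _)
    rw [Real.norm_eq_abs] at h3
    refine h3.trans (mul_le_mul_of_nonneg_right (by linarith) (norm_nonneg _))

theorem gradient_per (hper : Per S U) (x : Vec n) (m : Fin n → ℤ) :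
    gradient U (x + iv S m) = gradient U x := by
  unfold gradient
  rw [fderiv_per hper]

/-- solutions of Newton's equation are determined by the initial values -/
theorem newton_unique (hU : ContDiff ℝ 2 U) (hper : Per S U) {X Y X' Y' : ℝ → Vec n}
    (h : Newton U X Y) (h' : Newton U X' Y') {t₀ : ℝ} (hX : X t₀ = X' t₀) (hY : Y t₀ = Y' t₀) :
    X = X' ∧ Y = Y' := by
  obtain ⟨K, hK, -, -, h2, -⟩ := gradient_bounds hU hper
  have hL : ∀ _ : ℝ, LipschitzOnWith ⟨K + 1, by linarith⟩
      (fun p : Vec n × Vec n => (p.2, -gradient U p.1)) univ := by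
    intro _
    refine LipschitzOnWith.of_dist_le_mul fun p _ q _ => ?_
    rw [dist_eq_norm, dist_eq_norm, Prod.norm_def, Prod.norm_def]
    simp only [Prod.fst_sub, Prod.snd_sub]
    change _ ≤ (K + 1) * _
    have h3 : ‖-gradient U p.1 - -gradient U q.1‖ = ‖gradient U p.1 - gradient U q.1‖ := by
      rw [← norm_neg]
      congr 1
      abel
    rw [h3]
    have e0 : 0 ≤ max ‖p.1 - q.1‖ ‖p.2 - q.2‖ := (norm_nonneg _).trans (le_max_left _ _)
    have e1 : ‖p.1 - q.1‖ ≤ max ‖p.1 - q.1‖ ‖p.2 - q.2‖ := le_max_left _ _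
    have e2 : ‖p.2 - q.2‖ ≤ max ‖p.1 - q.1‖ ‖p.2 - q.2‖ := le_max_right _ _
    refine max_le ?_ ?_
    · nlinarith
    · refine (h2 _ _).trans ?_
      nlinarith
  have h4 := ODE_solution_unique_univ (v := fun _ p => (p.2, -gradient U p.1))
    (s := fun _ => univ) (f := fun t => (X t, Y t)) (g := fun t => (X' t, Y' t)) (t₀ := t₀) hL
    (fun t => ⟨(h.1 t).prodMk (h.2 t), mem_univ _⟩)
    (fun t => ⟨(h'.1 t).prodMk (h'.2 t), mem_univ _⟩) (by simp [hX, hY])
  constructor
  · funext t
    exact (Prod.ext_iff.1 (congrFun h4 t)).1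
  · funext t
    exact (Prod.ext_iff.1 (congrFun h4 t)).2

end Pool.Agent.MechAlpha
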