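import Pool.Agent.MechAlpha.Defs
import Pool.Agent.MechAlpha.Newton

/-!
# The Euler-Lagrange flow of a mechanical Lagrangian and Newton's equation
-/

set_option autoImplicit false

namespace Pool.Agent.MechAlpha

open MeasureTheory Set
open scoped RealInnerProductSpace

variable {n : ℕ} {S : Vec n ≃L[ℝ] Vec n}

theorem inner_til (S : Vec n ≃L[ℝ] Vec n) (c v : Vec n) : ⟪til S c, S v⟫ = ⟪c, v⟫ := by
  unfold til
  rw [ContinuousLinearMap.adjoint_inner_left]
  simp

private theorem proj_add_zv (x : Vec n) (m : Fin n → ℤ) : proj (x + zv m) = proj x := by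
  funext i
  unfold proj zv
  simp only [PiLp.add_apply, AddCircle.coe_add]
  have h : (((m i : ℤ) : ℝ) : UnitAddCircle) = 0 := by
    rw [AddCircle.coe_eq_zero_iff]
    exact ⟨m i, by simp⟩
  rw [h, add_zero]

theorem pot_per (S : Vec n ≃L[ℝ] Vec n) (V : Torus n → ℝ) : Per S (pot S V) := by
  intro x m
  unfold pot iv
  rw [map_add, S.symm_apply_apply, proj_add_zv]

theorem pot_contDiff {V : Torus n → ℝ} (hV : ContDiff ℝ 2 fun x : Vec n => V (proj x)) :
    ContDiff ℝ 2 (pot S V) := by
  have h := hV.comp (S.symm : Vec n →L[ℝ] Vec n).contDiff (n := 2)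
  exact h

/-- the map which turns `∂L/∂v` into the velocity in the coordinates `X = S x` -/
private noncomputable def lam (S : Vec n ≃L[ℝ] Vec n) (l : Vec n →L[ℝ] ℝ) : Vec n :=
  (InnerProductSpace.toDual ℝ (Vec n)).symm (l ∘L (S.symm : Vec n →L[ℝ] Vec n))

private theorem lam_eq {l : Vec n →L[ℝ] ℝ} {v : Vec n} (h : ∀ x, l x = ⟪v, S x⟫) :
    lam S l = v := by
  unfold lam
  rw [LinearIsometryEquiv.symm_apply_eq]
  ext x
  simp [h]

private noncomputable def lamL (S : Vec n ≃L[ℝ] Vec n) : (Vec n →L[ℝ] ℝ) →L[ℝ] Vec n :=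
  LinearMap.toContinuousLinearMap
    { toFun := lam S
      map_add' := fun x y => by
        unfold lam
        rw [ContinuousLinearMap.add_comp, map_add]
      map_smul' := fun r x => by
        unfold lam
        rw [ContinuousLinearMap.smul_comp]
        simp }

private theorem lamL_apply (l : Vec n →L[ℝ] ℝ) : lamL S l = lam S l := rfl

private theorem newton_of_isEL {V : Torus n → ℝ} (hV : ContDiff ℝ 2 fun x : Vec n => V (proj x))
    {γ : ℝ → Vec n} (h : IsEL (mech S V) γ) :
    Newton (pot S V) (fun t => S (γ t)) (fun t => S (deriv γ t)) := by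
  constructor
  · intro t
    exact (S : Vec n →L[ℝ] Vec n).hasFDerivAt.comp_hasDerivAt t (h.1 t).hasDerivAt
  · intro t
    have h1 := (lamL S).hasFDerivAt.comp_hasDerivAt t (h.2 t)
    have e1 : ∀ (x v : Vec n) (s : ℝ),
        lam S (fderiv ℝ (fun v : Vec n => mech S V (proj x) v (s : UnitAddCircle)) v) = S v := by
      intro x v s
      apply lam_eq
      intro y
      have hd : HasFDerivAt (fun v : Vec n => mech S V (proj x) v (s : UnitAddCircle))
          ((innerSL ℝ (S v)) ∘L (S : Vec n →L[ℝ] Vec n)) v := by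
        unfold mech
        have h2 := ((S : Vec n →L[ℝ] Vec n).hasFDerivAt (x := v)).norm_sq
        have h3 := (h2.mul_const (1 / 2)).sub_const (V (proj x))
        have e : (fun v : Vec n => ‖S v‖ ^ 2 / 2 - V (proj x)) =
            fun v : Vec n => ‖(S : Vec n →L[ℝ] Vec n) v‖ ^ 2 * (1 / 2) - V (proj x) := by
          funext z
          simp only [ContinuousLinearEquiv.coe_coe]
          ring
        rw [e]
        refine h3.congr_fderiv ?_
        ext z
        simp only [smul_apply, ContinuousLinearMap.comp_apply,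
          ContinuousLinearEquiv.coe_coe, innerSL_apply_apply, smul_eq_mul, nsmul_eq_mul]
        push_cast
        ring
      rw [hd.fderiv]
      simp
    have e2 : lam S (fderiv ℝ (fun x : Vec n => mech S V (proj x) (deriv γ t)
        (t : UnitAddCircle)) (γ t)) = -gradient (pot S V) (S (γ t)) := by
      apply lam_eq
      intro y
      have hdiff : DifferentiableAt ℝ (fun x : Vec n => V (proj x)) (γ t) :=
        (hV.differentiable (by norm_num)) (γ t)
      have hd : HasFDerivAt (fun x : Vec n => mech S V (proj x) (deriv γ t) (t : UnitAddCircle))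
          (-fderiv ℝ (fun x : Vec n => V (proj x)) (γ t)) (γ t) := by
        unfold mech
        exact hdiff.hasFDerivAt.const_sub _
      have hp : HasFDerivAt (pot S V) ((fderiv ℝ (fun x : Vec n => V (proj x)) (γ t)) ∘L
          (S.symm : Vec n →L[ℝ] Vec n)) (S (γ t)) := by
        have h4 : HasFDerivAt (fun x : Vec n => V (proj x))
            (fderiv ℝ (fun x : Vec n => V (proj x)) (γ t))
            ((S.symm : Vec n →L[ℝ] Vec n) (S (γ t))) := by
          simpa using hdiff.hasFDerivAt
        exact h4.comp (S (γ t)) (S.symm : Vec n →L[ℝ] Vec n).hasFDerivAt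
      rw [hd.fderiv, inner_neg_left]
      unfold gradient
      rw [InnerProductSpace.toDual_symm_apply, hp.fderiv]
      simp
    have e3 := h1
    simp only [Function.comp_def, lamL_apply, e1, e2] at e3
    exact e3

theorem exists_newton {V : Torus n → ℝ} (hV : ContDiff ℝ 2 fun x : Vec n => V (proj x))
    {φ : ℝ → Phase n → Phase n} (hφ : IsELFlow (mech S V) φ) (x₀ v₀ : Vec n) :
    ∃ X Y, Newton (pot S V) X Y ∧ X 0 = x₀ ∧ Y 0 = v₀ := by
  obtain ⟨γ, hγ, h0, h1, -⟩ := hφ.orbit (S.symm x₀) (S.symm v₀) 0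
  exact ⟨_, _, newton_of_isEL hV hγ, by simp [h0], by simp [h1]⟩

/-- the orbits are given by solutions of Newton's equation -/
theorem flow_newton {V : Torus n → ℝ} (hV : ContDiff ℝ 2 fun x : Vec n => V (proj x))
    {φ : ℝ → Phase n → Phase n} (hφ : IsELFlow (mech S V) φ) {X Y : ℝ → Vec n}
    (h : Newton (pot S V) X Y) (t₀ : UnitAddCircle) (s : ℝ) :
    φ s (proj (S.symm (X 0)), S.symm (Y 0), t₀) =
      (proj (S.symm (X s)), S.symm (Y s), t₀ + (s : UnitAddCircle)) := by
  obtain ⟨t, rfl⟩ := QuotientAddGroup.mk_surjective t₀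
  obtain ⟨γ, hγ, h0, h1, h2⟩ := hφ.orbit (S.symm (X 0)) (S.symm (Y 0)) t
  have hN := newton_of_isEL hV hγ
  have hN' : Newton (pot S V) (fun r => S (γ (t + r))) (fun r => S (deriv γ (t + r))) := by
    constructor
    · intro r
      have h3 := HasDerivAt.scomp (𝕜 := ℝ) (g₁ := fun t => S (γ t)) r (hN.1 (t + r))
        ((hasDerivAt_id r).const_add t)
      rw [one_smul] at h3
      exact h3
    · intro r
      have h3 := HasDerivAt.scomp (𝕜 := ℝ) (g₁ := fun t => S (deriv γ t)) r (hN.2 (t + r))
        ((hasDerivAt_id r).const_add t)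
      rw [one_smul] at h3
      exact h3
  obtain ⟨e1, e2⟩ := newton_unique (pot_contDiff hV) (pot_per S V) h hN' (t₀ := 0)
    (by simp [h0]) (by simp [h1])
  have e3 := h2 s
  have e4 : S.symm (X s) = γ (t + s) := by rw [e1]; simp
  have e5 : S.symm (Y s) = deriv γ (t + s) := by rw [e2]; simp
  rw [e4, e5]
  simpa using e3

end Pool.Agent.MechAlpha
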