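import Pool.Agent.MechAlpha.Flow

/-!
# The invariant measure of a periodic orbit
-/

set_option autoImplicit false

namespace Pool.Agent.MechAlpha

open MeasureTheory Set
open scoped RealInnerProductSpace

variable {n : ℕ} {S : Vec n ≃L[ℝ] Vec n}

private theorem open_proj : IsOpenQuotientMap (proj (n := n)) := by
  have h1 : IsOpenQuotientMap (Pi.map fun (_ : Fin n) (x : ℝ) => (x : UnitAddCircle)) :=
    IsOpenQuotientMap.piMap fun _ => QuotientAddGroup.isOpenQuotientMap_mk
  exact h1.comp (PiLp.homeomorph 2 (fun _ : Fin n => ℝ)).isOpenQuotientMap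

private theorem cont_V {V : Torus n → ℝ} (hV : ContDiff ℝ 2 fun x : Vec n => V (proj x)) :
    Continuous V :=
  open_proj.continuous_comp_iff.1 hV.continuous

private theorem Newton.shift {U : Vec n → ℝ} {X Y : ℝ → Vec n} (h : Newton U X Y) (r : ℝ) :
    Newton U (fun s => X (r + s)) (fun s => Y (r + s)) :=
  ⟨fun t => (h.1 (r + t)).comp_const_add r t, fun t => (h.2 (r + t)).comp_const_add r t⟩

private theorem proj_add_zv (x : Vec n) (m : Fin n → ℤ) : proj (x + zv m) = proj x := by
  funext i
  simp only [proj, zv, PiLp.add_apply, AddCircle.coe_add, add_eq_left]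
  have := AddCircle.coe_eq_zero_iff (p := (1 : ℝ)) (x := (m i : ℝ))
  exact this.2 ⟨m i, by simp⟩

/-- the action of a periodic orbit -/
theorem action_mem {V : Torus n → ℝ} (hV : ContDiff ℝ 2 fun x : Vec n => V (proj x))
    {φ : ℝ → Phase n → Phase n} (hφ : IsELFlow (mech S V) φ) {X Y : ℝ → Vec n}
    (h : Newton (pot S V) X Y) {τ : ℝ} (hτ : 0 < τ) (m : Fin n → ℤ)
    (hX : ∀ t, X (t + τ) = X t + iv S m) (hY : ∀ t, Y (t + τ) = Y t) (c : Vec n) :
    -(τ⁻¹ * (gain (pot S V) 0 0 X Y 0 τ + ⟪til S c, iv S m⟫)) ∈ actions (mech S V) φ c := by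
  have : Fact (0 < τ) := ⟨hτ⟩
  have hXc : Continuous X := continuous_iff_continuousAt.2 fun t => (h.1 t).continuousAt
  have hYc : Continuous Y := continuous_iff_continuousAt.2 fun t => (h.2 t).continuousAt
  have hpX : Function.Periodic (fun s => proj (S.symm (X s))) τ := by
    intro s
    show proj (S.symm (X (s + τ))) = proj (S.symm (X s))
    rw [hX, map_add, iv, ContinuousLinearEquiv.symm_apply_apply, proj_add_zv]
  have hpY : Function.Periodic (fun s => S.symm (Y s)) τ := by
    intro s
    show S.symm (Y (s + τ)) = S.symm (Y s)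
    rw [hY]
  have hcP : Continuous hpX.lift := by
    rw [← QuotientAddGroup.isOpenQuotientMap_mk.continuous_comp_iff]
    exact (open_proj.continuous.comp (S.symm.continuous.comp hXc))
  have hcQ : Continuous hpY.lift := by
    rw [← QuotientAddGroup.isOpenQuotientMap_mk.continuous_comp_iff]
    exact (S.symm.continuous.comp hYc)
  set G : AddCircle τ × UnitAddCircle → Phase n := fun p => (hpX.lift p.1, hpY.lift p.1, p.2) with hG
  have hGc : Continuous G := by
    exact (hcP.comp continuous_fst).prodMk ((hcQ.comp continuous_fst).prodMk continuous_snd)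
  set ν : Measure (AddCircle τ × UnitAddCircle) :=
    (AddCircle.haarAddCircle (T := τ)).prod (AddCircle.haarAddCircle (T := (1 : ℝ))) with hν
  -- the flow on the orbit
  have hflow : ∀ (r : ℝ) (p : AddCircle τ × UnitAddCircle),
      φ r (G p) = G (p + ((r : AddCircle τ), (r : UnitAddCircle))) := by
    rintro r ⟨s, t₀⟩
    induction s using QuotientAddGroup.induction_on with
    | H s =>
      have h1 := flow_newton hV hφ (h.shift s) t₀ r
      simp only [add_zero] at h1
      exact h1
  have hφc : ∀ r, Continuous (φ r) := fun r => by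
    have := hφ.cont.comp (Continuous.prodMk_right (X := ℝ) (Y := Phase n) r)
    exact this
  refine ⟨ν.map G, ⟨Measure.isProbabilityMeasure_map hGc.aemeasurable, fun r => ?_⟩, ?_⟩
  · rw [Measure.map_map (hφc r).measurable hGc.measurable]
    have h1 : φ r ∘ G = G ∘ (fun p => p + ((r : AddCircle τ), (r : UnitAddCircle))) := by
      funext p
      exact hflow r p
    rw [h1, ← Measure.map_map hGc.measurable (measurable_add_const _), map_add_right_eq_self]
  · have hVc := cont_V hV
    set F : Phase n → ℝ := fun z => mech S V z.1 z.2.1 z.2.2 - ⟪c, z.2.1⟫ with hF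
    have hFc : Continuous F := by
      have h1 : Continuous fun z : Phase n => V z.1 := hVc.comp continuous_fst
      have h2 : Continuous fun z : Phase n => z.2.1 := continuous_fst.comp continuous_snd
      have h3 : Continuous fun z : Phase n => S z.2.1 := S.continuous.comp h2
      show Continuous fun z : Phase n => ‖S z.2.1‖ ^ 2 / 2 - V z.1 - ⟪c, z.2.1⟫
      exact (((h3.norm.pow 2).div_const 2).sub h1).sub (continuous_const.inner h2)
    have hint : Integrable (fun p => F (G p)) ν := by
      have hc : Continuous fun p => F (G p) := hFc.comp hGc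
      exact hc.integrable_of_hasCompactSupport (HasCompactSupport.of_compactSpace _)
    refine ⟨(integrable_map_measure hFc.aestronglyMeasurable hGc.aemeasurable).2 hint, ?_⟩
    rw [integral_map hGc.aemeasurable hFc.aestronglyMeasurable]
    have h1 : ∫ p, F (G p) ∂ν = ∫ s, F (G (s, 0)) ∂(AddCircle.haarAddCircle (T := τ)) := by
      have h2 := integral_fun_fst (μ := AddCircle.haarAddCircle (T := τ))
        (ν := AddCircle.haarAddCircle (T := (1 : ℝ))) (fun s => F (G (s, 0)))
      rw [probReal_univ, one_smul] at h2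
      rw [← h2]
      rfl
    show _ = ∫ p, F (G p) ∂ν
    rw [h1, AddCircle.integral_haarAddCircle, ← AddCircle.intervalIntegral_preimage τ 0,
      zero_add, smul_eq_mul, ← mul_neg]
    congr 1
    have h3 : ∀ t : ℝ, F (G ((t : AddCircle τ), 0)) =
        -(pot S V (X t) - ‖Y t - 0‖ ^ 2 / 2 - 0) - ⟪til S c, Y t⟫ := by
      intro t
      have h4 : ⟪til S c, Y t⟫ = ⟪c, S.symm (Y t)⟫ := by
        rw [← inner_til S c (S.symm (Y t)), ContinuousLinearEquiv.apply_symm_apply]
      rw [h4]
      show ‖S (S.symm (Y t))‖ ^ 2 / 2 - V (proj (S.symm (X t))) - ⟪c, S.symm (Y t)⟫ = _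
      rw [ContinuousLinearEquiv.apply_symm_apply, pot, sub_zero, sub_zero]
      ring
    have hpc : Continuous (pot S V) := hV.continuous.comp S.symm.continuous
    have h5 : Continuous fun t => pot S V (X t) - ‖Y t - 0‖ ^ 2 / 2 - 0 :=
      ((hpc.comp hXc).sub (((hYc.sub continuous_const).norm.pow 2).div_const 2)).sub
        continuous_const
    have h6 : Continuous fun t => ⟪til S c, Y t⟫ := continuous_const.inner hYc
    have h7 : ∫ t in (0 : ℝ)..τ, ⟪til S c, Y t⟫ = ⟪til S c, iv S m⟫ := by
      have h8 : ∀ t ∈ uIcc (0 : ℝ) τ, HasDerivAt (fun t => ⟪til S c, X t⟫) (⟪til S c, Y t⟫) t := by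
        intro t _
        have := (HasDerivAt.inner ℝ (hasDerivAt_const t (til S c)) (h.1 t))
        simpa using this
      rw [intervalIntegral.integral_eq_sub_of_hasDerivAt h8 (h6.intervalIntegrable _ _)]
      have h9 := hX 0
      rw [zero_add] at h9
      rw [← inner_sub_right, h9, add_sub_cancel_left]
    have h10 : ∫ t in (0 : ℝ)..τ, (-(pot S V (X t) - ‖Y t - 0‖ ^ 2 / 2 - 0) - ⟪til S c, Y t⟫) =
        -(∫ t in (0 : ℝ)..τ, (pot S V (X t) - ‖Y t - 0‖ ^ 2 / 2 - 0)) -
          ∫ t in (0 : ℝ)..τ, ⟪til S c, Y t⟫ := by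
      rw [← intervalIntegral.integral_neg]
      exact intervalIntegral.integral_sub (h5.neg.intervalIntegrable _ _)
        (h6.intervalIntegrable _ _)
    rw [intervalIntegral.integral_congr (g := fun t => -(pot S V (X t) - ‖Y t - 0‖ ^ 2 / 2 - 0) -
      ⟪til S c, Y t⟫) (fun t _ => h3 t), h10, h7, gain]
    ring

end Pool.Agent.MechAlpha
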