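import Pool.Agent.MechAlpha.Vecs
import Pool.Agent.MechAlpha.Curve
import Pool.Agent.MechAlpha.Discrete
import Pool.Agent.MechAlpha.Newton
import Pool.Agent.MechAlpha.Converge

/-!
# Periodic solutions of Newton's equation: a compactness argument
-/

set_option autoImplicit false

namespace Pool.Agent.MechAlpha

open MeasureTheory Set
open scoped RealInnerProductSpace

variable {n : ℕ} {S : Vec n ≃L[ℝ] Vec n} {U : Vec n → ℝ} {k : Fin n → ℤ} {ω : Vec n} {W : ℝ → ℝ}
  {M : ℝ} {w : Vec n} {A : ℝ} {γ u : ℝ → Vec n} {a b c : ℝ} {x y z : Vec n} {g g' : ℝ}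

/-- the inequality of Cauchy and Schwarz on a curve -/
private theorem sq_dist_le (h : Crv γ u a b) :
    ‖γ b - γ a‖ ^ 2 ≤ (b - a) * ∫ t in a..b, ‖u t‖ ^ 2 := by
  rcases h.le.eq_or_lt with e | hab
  · subst e
    simp
  set D := γ b - γ a with hD
  set v : Vec n := (b - a)⁻¹ • D with hv
  have hba : 0 < b - a := sub_pos.2 hab
  have h1 := gain_change (U := fun _ => 0) continuous_const h 0 v 0
  have h2 : gain (fun _ => 0) (0 + v) (0 - ⟪(0 : Vec n), v⟫ - ‖v‖ ^ 2 / 2) γ u a b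
      ≤ (b - a) * (‖v‖ ^ 2 / 2) := by
    unfold gain
    have h3 : ∫ _t in a..b, (‖v‖ ^ 2 / 2) = (b - a) * (‖v‖ ^ 2 / 2) := by
      rw [intervalIntegral.integral_const, smul_eq_mul]
    rw [← h3]
    refine intervalIntegral.integral_mono_on hab.le
      (h.intervalIntegrable (U := fun _ => 0) continuous_const _ _) intervalIntegrable_const ?_
    intro t _
    have h4 := sq_nonneg ‖u t - (0 + v)‖
    rw [inner_zero_left]
    linarith
  have h5 : gain (fun _ => 0) 0 0 γ u a b = -(1 / 2) * ∫ t in a..b, ‖u t‖ ^ 2 := by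
    unfold gain
    rw [← intervalIntegral.integral_const_mul]
    congr 1
    funext t
    simp only [sub_zero]
    ring
  rw [h1, h5, ← hD] at h2
  have h6 : ⟪v, D⟫ = (b - a)⁻¹ * ‖D‖ ^ 2 := by
    rw [hv, real_inner_smul_left, real_inner_self_eq_norm_sq]
  have h7 : ‖v‖ ^ 2 = (b - a)⁻¹ * ((b - a)⁻¹ * ‖D‖ ^ 2) := by
    rw [hv, norm_smul, mul_pow, Real.norm_eq_abs, sq_abs]
    ring
  rw [h6, h7] at h2
  have h8 : (b - a) * ((b - a)⁻¹ * ((b - a)⁻¹ * ‖D‖ ^ 2) / 2) = (b - a)⁻¹ * ‖D‖ ^ 2 / 2 := by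
    field_simp
  rw [h8] at h2
  have h9 : (b - a)⁻¹ * ‖D‖ ^ 2 ≤ ∫ t in a..b, ‖u t‖ ^ 2 := by linarith
  have h10 := mul_le_mul_of_nonneg_left h9 hba.le
  rwa [← mul_assoc, mul_inv_cancel₀ hba.ne', one_mul] at h10

/-- division points -/
private theorem dp_mem (hab : a ≤ b) {N : ℕ} (hN : 0 < N) {i : ℕ} (hi : i ≤ N) :
    a + i * ((b - a) / N) ∈ Icc a b := by
  have h0 : (0 : ℝ) < N := by exact_mod_cast hN
  have h1 : (i : ℝ) ≤ N := by exact_mod_cast hi
  have h2 : 0 ≤ (b - a) / N := div_nonneg (sub_nonneg.2 hab) h0.le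
  have h3 : (i : ℝ) * ((b - a) / N) ≤ N * ((b - a) / N) := mul_le_mul_of_nonneg_right h1 h2
  have h4 : (N : ℝ) * ((b - a) / N) = b - a := by field_simp
  constructor
  · have : 0 ≤ (i : ℝ) * ((b - a) / N) := by positivity
    linarith
  · linarith

private theorem dp_last {N : ℕ} (hN : 0 < N) : a + N * ((b - a) / N) = b := by
  have h0 : (0 : ℝ) < N := by exact_mod_cast hN
  field_simp
  ring

private theorem dp_le (hab : a ≤ b) {N : ℕ} (i : ℕ) :
    a + i * ((b - a) / N) ≤ a + (i + 1 : ℕ) * ((b - a) / N) := by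
  have h2 : 0 ≤ (b - a) / N := div_nonneg (sub_nonneg.2 hab) (Nat.cast_nonneg _)
  push_cast
  linarith

private theorem dp_sub {N : ℕ} (i : ℕ) :
    a + (i + 1 : ℕ) * ((b - a) / N) - (a + i * ((b - a) / N)) = (b - a) / N := by
  push_cast
  ring

/-- lower Riemann sums -/
private theorem riemann {f : ℝ → ℝ} (hf : ContinuousOn f (Icc a b)) (hab : a < b) {ε : ℝ}
    (hε : 0 < ε) : ∃ N₀ : ℕ, ∀ N ≥ N₀, 0 < N → ∫ t in a..b, f t ≤
      ∑ i ∈ Finset.range N, (b - a) / N * f (a + i * ((b - a) / N)) + ε := by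
  have hba : 0 < b - a := sub_pos.2 hab
  have hu := isCompact_Icc.uniformContinuousOn_of_continuous hf
  obtain ⟨δ, hδ, hd⟩ := Metric.uniformContinuousOn_iff.1 hu (ε / (b - a)) (by positivity)
  obtain ⟨N₀, hN₀⟩ := exists_nat_gt ((b - a) / δ)
  refine ⟨N₀, fun N hN hN0 => ?_⟩
  have hNp : (0 : ℝ) < N := by exact_mod_cast hN0
  have hstep : (b - a) / N < δ := by
    rw [div_lt_iff₀ hNp]
    rw [div_lt_iff₀ hδ] at hN₀
    have : (N₀ : ℝ) ≤ N := by exact_mod_cast hN
    nlinarith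
  have hint : ∀ i < N, IntervalIntegrable f volume (a + i * ((b - a) / N))
      (a + (i + 1 : ℕ) * ((b - a) / N)) := by
    intro i hi
    have h1 := dp_mem hab.le hN0 (Nat.le_of_lt hi)
    have h2 := dp_mem hab.le hN0 (Nat.succ_le_of_lt hi)
    exact (hf.mono (Icc_subset_Icc h1.1 h2.2)).intervalIntegrable_of_Icc (dp_le hab.le i)
  have hsum := intervalIntegral.sum_integral_adjacent_intervals (μ := volume) (f := f)
    (a := fun i : ℕ => a + i * ((b - a) / N)) (n := N) hint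
  simp only [Nat.cast_zero, zero_mul, add_zero] at hsum
  rw [dp_last hN0] at hsum
  rw [← hsum]
  have h3 : ∑ i ∈ Finset.range N, (b - a) / N * f (a + i * ((b - a) / N)) + ε
      = ∑ i ∈ Finset.range N, (b - a) / N * (f (a + i * ((b - a) / N)) + ε / (b - a)) := by
    simp only [mul_add]
    rw [Finset.sum_add_distrib, Finset.sum_const, Finset.card_range, nsmul_eq_mul]
    congr 1
    field_simp
  rw [h3]
  refine Finset.sum_le_sum fun i hi => ?_
  have hi' := Finset.mem_range.1 hi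
  have h1 := dp_mem hab.le hN0 (Nat.le_of_lt hi')
  have h2 := dp_mem hab.le hN0 (Nat.succ_le_of_lt hi')
  have h4 : ∫ _t in (a + i * ((b - a) / N))..(a + (i + 1 : ℕ) * ((b - a) / N)),
      (f (a + i * ((b - a) / N)) + ε / (b - a))
      = (b - a) / N * (f (a + i * ((b - a) / N)) + ε / (b - a)) := by
    rw [intervalIntegral.integral_const, smul_eq_mul, dp_sub]
  rw [← h4]
  refine intervalIntegral.integral_mono_on (dp_le hab.le i) (hint i hi')
    intervalIntegrable_const ?_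
  intro t ht
  have h5 : t ∈ Icc a b := ⟨h1.1.trans ht.1, ht.2.trans h2.2⟩
  have h6 : dist t (a + i * ((b - a) / N)) < δ := by
    rw [Real.dist_eq, abs_of_nonneg (sub_nonneg.2 ht.1)]
    have h7 := dp_sub (a := a) (b := b) (N := N) i
    have h8 := ht.2
    linarith
  have h9 := hd t h5 _ h1 h6
  rw [Real.dist_eq] at h9
  have h10 := (abs_lt.1 h9).2
  linarith

/-- comparison of the discrete minimisers with a curve -/
private theorem compare (h : Crv γ u a b) (hab : a < b) {m : Fin n → ℤ}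
    (hm : γ b = γ a + iv S m) {N : ℕ} (hN : 0 < N) {x v : ℕ → Vec n}
    (hmin : ∀ x' v' : ℕ → Vec n, (∀ i < N, x' (i + 1) = x' i + ((b - a) / N) • v' (i + 1)) →
        x' N = x' 0 + iv S m →
        ∑ i ∈ Finset.range N, (b - a) / N * (‖v (i + 1)‖ ^ 2 / 2 - U (x i)) ≤
          ∑ i ∈ Finset.range N, (b - a) / N * (‖v' (i + 1)‖ ^ 2 / 2 - U (x' i))) :
    ∑ i ∈ Finset.range N, (b - a) / N * (‖v (i + 1)‖ ^ 2 / 2 - U (x i)) ≤
      (∫ t in a..b, ‖u t‖ ^ 2) / 2
        - ∑ i ∈ Finset.range N, (b - a) / N * U (γ (a + i * ((b - a) / N))) := by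
  have hba : 0 < b - a := sub_pos.2 hab
  have hNp : (0 : ℝ) < N := by exact_mod_cast hN
  set η : ℝ := (b - a) / N with hη
  have hη0 : 0 < η := div_pos hba hNp
  refine (hmin (fun i => γ (a + i * η))
    (fun i => η⁻¹ • (γ (a + i * η) - γ (a + ((i - 1 : ℕ) : ℝ) * η))) ?_ ?_).trans ?_
  · intro i _
    simp only [Nat.add_sub_cancel]
    rw [smul_smul, mul_inv_cancel₀ hη0.ne', one_smul]
    abel
  · simp only [Nat.cast_zero, zero_mul, add_zero]
    rw [hη, dp_last hN, hm]
  · have hint : ∀ i < N, IntervalIntegrable (fun t => ‖u t‖ ^ 2) volume (a + i * η)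
        (a + (i + 1 : ℕ) * η) := by
      intro i hi
      have h1 := dp_mem hab.le hN (Nat.le_of_lt hi)
      have h2 := dp_mem hab.le hN (Nat.succ_le_of_lt hi)
      exact (h.restrict h1.1 (dp_le hab.le i) h2.2).sq
    have hsum := intervalIntegral.sum_integral_adjacent_intervals (μ := volume)
      (f := fun t => ‖u t‖ ^ 2) (a := fun i : ℕ => a + i * η) (n := N) hint
    simp only [Nat.cast_zero, zero_mul, add_zero] at hsum
    have hl : a + N * η = b := dp_last hN
    rw [hl] at hsum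
    rw [← hsum, Finset.sum_div, ← Finset.sum_sub_distrib]
    refine Finset.sum_le_sum fun i hi => ?_
    have hi' := Finset.mem_range.1 hi
    have h1 := dp_mem hab.le hN (Nat.le_of_lt hi')
    have h2 := dp_mem hab.le hN (Nat.succ_le_of_lt hi')
    have h3 := sq_dist_le (h.restrict h1.1 (dp_le hab.le i) h2.2)
    have h4 : a + (i + 1 : ℕ) * η - (a + i * η) = η := dp_sub i
    rw [← hη, h4] at h3
    simp only [Nat.add_sub_cancel]
    rw [norm_smul, mul_pow, Real.norm_eq_abs, sq_abs]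
    have h5 : η * ((η⁻¹) ^ 2 * ‖γ (a + (i + 1 : ℕ) * η) - γ (a + i * η)‖ ^ 2 / 2
        - U (γ (a + i * η))) = η⁻¹ * ‖γ (a + (i + 1 : ℕ) * η) - γ (a + i * η)‖ ^ 2 / 2
        - η * U (γ (a + i * η)) := by
      field_simp
    rw [h5]
    have h6 : η⁻¹ * ‖γ (a + (i + 1 : ℕ) * η) - γ (a + i * η)‖ ^ 2
        ≤ ∫ t in (a + i * η)..(a + (i + 1 : ℕ) * η), ‖u t‖ ^ 2 := by
      rw [inv_mul_le_iff₀ hη0]
      exact h3
    linarith

/-- a bound for the initial velocity -/
private theorem velocity_bound {K C η : ℝ} (hη : 0 < η) (hK : 0 < K) (hU0 : ∀ x, |U x| ≤ K)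
    (hU1 : ∀ x, ‖gradient U x‖ ≤ K) {N : ℕ} (hN : 0 < N) {x v : ℕ → Vec n}
    (hs : Scheme U η N x v)
    (hC : ∑ i ∈ Finset.range N, η * (‖v (i + 1)‖ ^ 2 / 2 - U (x i)) ≤ C) (hC0 : 0 ≤ C) :
    ‖v 0‖ ≤ 2 * (C / (N * η) + K) + 1 + N * η * K := by
  have hNp : (0 : ℝ) < N := by exact_mod_cast hN
  have hT : 0 < N * η := by positivity
  -- some velocity is bounded
  have h1 : ∃ i < N, ‖v (i + 1)‖ ^ 2 ≤ 2 * (C / (N * η) + K) := by
    by_contra hcon
    push Not at hcon
    have h2 : ∑ i ∈ Finset.range N, η * (C / (N * η))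
        < ∑ i ∈ Finset.range N, η * (‖v (i + 1)‖ ^ 2 / 2 - U (x i)) := by
      apply Finset.sum_lt_sum_of_nonempty
      · exact Finset.nonempty_range_iff.2 hN.ne'
      · intro i hi
        have h3 := hcon i (Finset.mem_range.1 hi)
        have h4 := (abs_le.1 (hU0 (x i))).2
        apply mul_lt_mul_of_pos_left _ hη
        linarith
    rw [Finset.sum_const, Finset.card_range, nsmul_eq_mul] at h2
    have h5 : (N : ℝ) * (η * (C / (N * η))) = C := by field_simp
    linarith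
  obtain ⟨i, hi, h2⟩ := h1
  -- the velocities vary slowly
  have h3 : ∀ j ≤ N, ‖v 0‖ ≤ ‖v j‖ + j * (η * K) := by
    intro j
    induction j with
    | zero => intro _; simp
    | succ j ih =>
      intro hj
      have h4 := ih (Nat.le_of_succ_le hj)
      have h5 := hs.1 j (Nat.lt_of_succ_le hj)
      have h6 : v j = v (j + 1) + η • gradient U (x j) := by rw [h5]; abel
      have h7 : ‖v j‖ ≤ ‖v (j + 1)‖ + η * K := by
        conv_lhs => rw [h6]
        refine (norm_add_le _ _).trans ?_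
        rw [norm_smul, Real.norm_eq_abs, abs_of_pos hη]
        have := mul_le_mul_of_nonneg_left (hU1 (x j)) hη.le
        linarith
      push_cast
      linarith
  have h4 := h3 (i + 1) (Nat.succ_le_of_lt hi)
  have h5 : ((i + 1 : ℕ) : ℝ) * (η * K) ≤ N * η * K := by
    have h6 : ((i + 1 : ℕ) : ℝ) ≤ N := by exact_mod_cast Nat.succ_le_of_lt hi
    have h7 : 0 ≤ η * K := by positivity
    have := mul_le_mul_of_nonneg_right h6 h7
    linarith
  have h6 : ‖v (i + 1)‖ ≤ 2 * (C / (N * η) + K) + 1 := by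
    have h7 : 0 ≤ C / (N * η) := div_nonneg hC0 hT.le
    nlinarith [sq_nonneg (‖v (i + 1)‖ - 1), norm_nonneg (v (i + 1))]
  linarith

/-- periodic solutions whose action is not larger than that of a given closed curve -/
theorem exists_periodic (hU : ContDiff ℝ 2 U) (hper : Per S U)
    (hN : ∀ x₀ v₀ : Vec n, ∃ X Y, Newton U X Y ∧ X 0 = x₀ ∧ Y 0 = v₀)
    (h : Crv γ u a b) (hab : a < b) (m : Fin n → ℤ) (hm : γ b = γ a + iv S m) :
    ∃ X Y, Newton U X Y ∧ (∀ t, X (t + (b - a)) = X t + iv S m) ∧ (∀ t, Y (t + (b - a)) = Y t) ∧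
      gain U 0 0 γ u a b ≤ gain U 0 0 X Y 0 (b - a) := by
  have hba : 0 < b - a := sub_pos.2 hab
  obtain ⟨K, hK, hU0, hU1, _, _⟩ := gradient_bounds hU hper
  have hex : ∀ N : ℕ, ∃ x v : ℕ → Vec n, (0 < N → Scheme U ((b - a) / N) N x v ∧
      x N = x 0 + iv S m ∧ v N = v 0 ∧
      ∀ x' v' : ℕ → Vec n, (∀ i < N, x' (i + 1) = x' i + ((b - a) / N) • v' (i + 1)) →
        x' N = x' 0 + iv S m →
        ∑ i ∈ Finset.range N, (b - a) / N * (‖v (i + 1)‖ ^ 2 / 2 - U (x i)) ≤
          ∑ i ∈ Finset.range N, (b - a) / N * (‖v' (i + 1)‖ ^ 2 / 2 - U (x' i))) ∧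
      (∀ i, |(S.symm (x 0)) i| ≤ 1) ∧ (N = 0 → v 0 = 0) := by
    intro N
    rcases Nat.eq_zero_or_pos N with rfl | hN0
    · refine ⟨fun _ => 0, fun _ => 0, fun h0 => absurd h0 (lt_irrefl _), ?_, fun _ => rfl⟩
      intro i
      simp
    · have hNp : (0 : ℝ) < N := by exact_mod_cast hN0
      obtain ⟨x, v, h1, h2, h3, h4, h5⟩ := exists_scheme hU hper m (div_pos hba hNp) hN0
      exact ⟨x, v, fun _ => ⟨h1, h2, h3, h5⟩, h4, fun h0 => absurd h0 hN0.ne'⟩
  choose x v hxv hx0 hv0 using hex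
  set I : ℝ := ∫ t in a..b, ‖u t‖ ^ 2 with hI
  have hI0 : 0 ≤ I := intervalIntegral.integral_nonneg hab.le fun t _ => sq_nonneg _
  -- bounds for the initial values
  have hvb : ∀ N, ‖v N 0‖ ≤ 2 * ((I / 2 + (b - a) * K) / (b - a) + K) + 1 + (b - a) * K := by
    intro N
    rcases Nat.eq_zero_or_pos N with rfl | hN0
    · rw [hv0 0 rfl, norm_zero]
      positivity
    · obtain ⟨h1, h2, h3, h4⟩ := hxv N hN0
      have hNp : (0 : ℝ) < N := by exact_mod_cast hN0
      have h5 := compare h hab hm hN0 h4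
      have h6 : -((b - a) * K) ≤ ∑ i ∈ Finset.range N, (b - a) / N * U (γ (a + i * ((b - a) / N))) := by
        have h7 : ∑ i ∈ Finset.range N, (b - a) / N * (-K) = -((b - a) * K) := by
          rw [Finset.sum_const, Finset.card_range, nsmul_eq_mul]
          field_simp
        rw [← h7]
        refine Finset.sum_le_sum fun i _ => ?_
        exact mul_le_mul_of_nonneg_left (abs_le.1 (hU0 _)).1 (div_pos hba hNp).le
      have h8 := velocity_bound (div_pos hba hNp) hK hU0 hU1 hN0 h1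
        (C := I / 2 + (b - a) * K) (by linarith) (by positivity)
      have h9 : (N : ℝ) * ((b - a) / N) = b - a := by field_simp
      rwa [h9] at h8
  have hxb : ∃ C : ℝ, ∀ N, ‖x N 0‖ ≤ C := by
    refine ⟨‖(S : Vec n →L[ℝ] Vec n)‖ * Real.sqrt n, fun N => ?_⟩
    have h1 : x N 0 = (S : Vec n →L[ℝ] Vec n) (S.symm (x N 0)) := by simp
    rw [h1]
    refine ((S : Vec n →L[ℝ] Vec n).le_opNorm _).trans ?_
    refine mul_le_mul_of_nonneg_left ?_ (norm_nonneg _)
    rw [EuclideanSpace.norm_eq]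
    apply Real.sqrt_le_sqrt
    calc ∑ i, ‖(S.symm (x N 0)) i‖ ^ 2 ≤ ∑ _i : Fin n, (1 : ℝ) := by
          refine Finset.sum_le_sum fun i _ => ?_
          rw [Real.norm_eq_abs]
          exact pow_le_one₀ (abs_nonneg _) (hx0 N i)
      _ = n := by simp
  obtain ⟨C, hC⟩ := hxb
  -- a convergent subsequence
  obtain ⟨⟨x₀, v₀⟩, _, σ, hσ, hlim⟩ := ((isCompact_closedBall (0 : Vec n) C).prod
    (isCompact_closedBall (0 : Vec n)
      (2 * ((I / 2 + (b - a) * K) / (b - a) + K) + 1 + (b - a) * K))).tendsto_subseq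
    (x := fun N => (x N 0, v N 0)) (fun N => ⟨mem_closedBall_zero_iff.2 (hC N),
      mem_closedBall_zero_iff.2 (hvb N)⟩)
  obtain ⟨X, Y, hXY, hX0, hY0⟩ := hN x₀ v₀
  have hlx : Filter.Tendsto (fun j => x (σ j) 0) Filter.atTop (nhds (X 0)) := by
    rw [hX0]
    exact (continuous_fst.tendsto _).comp hlim
  have hlv : Filter.Tendsto (fun j => v (σ j) 0) Filter.atTop (nhds (Y 0)) := by
    rw [hY0]
    exact (continuous_snd.tendsto _).comp hlim
  obtain ⟨hc1, hc2, hc3⟩ := scheme_tendsto hU hper hba x v (fun N h0 => (hxv N h0).1) hXY hσ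
    hlx hlv
  have hσ0 : ∀ᶠ j in Filter.atTop, 0 < σ j := by
    filter_upwards [Filter.eventually_gt_atTop 0] with j hj
    exact lt_of_lt_of_le hj (hσ.id_le j)
  have hXτ : X (b - a) = X 0 + iv S m := by
    refine tendsto_nhds_unique hc1 ((hlx.add_const (iv S m)).congr' ?_)
    filter_upwards [hσ0] with j hj
    exact (hxv _ hj).2.1.symm
  have hYτ : Y (b - a) = Y 0 := by
    refine tendsto_nhds_unique hc2 (hlv.congr' ?_)
    filter_upwards [hσ0] with j hj
    exact (hxv _ hj).2.2.1.symm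
  -- periodicity
  have hshift : Newton U (fun t => X (t + (b - a)) - iv S m) (fun t => Y (t + (b - a))) := by
    constructor
    · intro t
      exact ((hXY.1 (t + (b - a))).comp_add_const t (b - a)).sub_const _
    · intro t
      have h1 := (hXY.2 (t + (b - a))).comp_add_const t (b - a)
      have h2 := gradient_per (S := S) hper (X (t + (b - a)) - iv S m) m
      rw [sub_add_cancel] at h2
      rw [h2] at h1
      exact h1
  obtain ⟨hpX, hpY⟩ := newton_unique hU hper hshift hXY (t₀ := 0)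
    (by simp only [zero_add]; rw [hXτ]; abel) (by simp only [zero_add]; exact hYτ)
  refine ⟨X, Y, hXY, fun t => ?_, fun t => congrFun hpY t, ?_⟩
  · have h1 : X (t + (b - a)) - iv S m = X t := congrFun hpX t
    rw [← h1, sub_add_cancel]
  -- comparison of the actions
  have hUc : Continuous U := hU.continuous
  have hUγ : ContinuousOn (fun t => U (γ t)) (Icc a b) := hUc.comp_continuousOn h.cont
  have hg1 : gain U 0 0 γ u a b = (∫ t in a..b, U (γ t)) - I / 2 := by
    unfold gain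
    simp only [sub_zero]
    rw [intervalIntegral.integral_sub, hI]
    · rw [intervalIntegral.integral_div]
    · exact hUγ.intervalIntegrable_of_Icc hab.le
    · exact h.sq.div_const 2
  have hg2 : gain U 0 0 X Y 0 (b - a) = -∫ t in (0 : ℝ)..(b - a), (‖Y t‖ ^ 2 / 2 - U (X t)) := by
    unfold gain
    rw [← intervalIntegral.integral_neg]
    congr 1
    funext t
    rw [sub_zero, sub_zero]
    ring
  rw [hg1, hg2]
  have hkey : ∫ t in (0 : ℝ)..(b - a), (‖Y t‖ ^ 2 / 2 - U (X t)) ≤ I / 2 - ∫ t in a..b, U (γ t) := by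
    refine le_of_forall_pos_le_add fun ε hε => ?_
    obtain ⟨N₀, hN₀⟩ := riemann hUγ hab hε
    refine le_of_tendsto hc3 ?_
    filter_upwards [hσ0, Filter.eventually_ge_atTop N₀] with j hj hj'
    have h1 := compare h hab hm hj (hxv _ hj).2.2.2
    have h2 := hN₀ (σ j) (hj'.trans (hσ.id_le j)) hj
    linarith
  linarith

end Pool.Agent.MechAlpha
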