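import Pool.Agent.MechAlpha.Flow
import Pool.Agent.MechAlpha.Vecs
import Pool.Agent.MechAlpha.Curve
import Pool.Agent.MechAlpha.Reach

/-!
# The action of an invariant measure
-/

set_option autoImplicit false

namespace Pool.Agent.MechAlpha

open MeasureTheory Set
open scoped RealInnerProductSpace

variable {n : ℕ} {S : Vec n ≃L[ℝ] Vec n}

private theorem upper_open_proj : IsOpenQuotientMap (proj (n := n)) := by
  have h1 : IsOpenQuotientMap (Pi.map fun (_ : Fin n) (x : ℝ) => (x : UnitAddCircle)) :=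
    IsOpenQuotientMap.piMap fun _ => QuotientAddGroup.isOpenQuotientMap_mk
  exact h1.comp (PiLp.homeomorph 2 (fun _ : Fin n => ℝ)).isOpenQuotientMap

private theorem upper_cont_V {V : Torus n → ℝ}
    (hV : ContDiff ℝ 2 fun x : Vec n => V (proj x)) : Continuous V :=
  upper_open_proj.continuous_comp_iff.1 hV.continuous

/-- the gain of a segment of an orbit is bounded -/
private theorem upper_gain {U : Vec n → ℝ} (hU : ContDiff ℝ 2 U) (hper : Per S U) {w : Vec n}
    {A : ℝ} (hA : Closed S U w A) : ∃ C : ℝ, ∀ (γ u : ℝ → Vec n) (a b : ℝ), Crv γ u a b →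
      gain U w A γ u a b ≤ C := by
  obtain ⟨K, hK, hUK, -⟩ := gradient_bounds hU hper
  obtain ⟨C0, hC0, hlat⟩ := exists_lattice' S
  refine ⟨K + C0 ^ 2 / 2 + A, fun γ u a b h => ?_⟩
  obtain ⟨m, hm⟩ := hlat (γ b + w - γ a)
  set y : Vec n := γ a + iv S m - γ b - w with hy
  have hyn : ‖y‖ ≤ C0 := by
    have e : y = iv S m - (γ b + w - γ a) := by rw [hy]; abel
    rw [e]
    exact hm
  have h1 : Reach U w A (γ a) (γ b) (gain U w A γ u a b) := h.reach
  have h2 := reach_line (U := U) (w := w) (A := A) (γ b) y (τ := 1) zero_le_one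
  have e2 : γ b + (1 : ℝ) • (w + y) = γ a + iv S m := by
    rw [hy, one_smul]
    abel
  rw [e2] at h2
  have h3 := hA.reach m (h1.trans hU.continuous h2)
  have hc : Continuous fun t : ℝ => U (γ b + t • (w + y)) - ‖y‖ ^ 2 / 2 - A := by
    have : Continuous fun t : ℝ => γ b + t • (w + y) := by fun_prop
    exact ((hU.continuous.comp this).sub continuous_const).sub continuous_const
  have h4 : -(K + C0 ^ 2 / 2 + A) ≤
      ∫ t in (0 : ℝ)..1, (U (γ b + t • (w + y)) - ‖y‖ ^ 2 / 2 - A) := by
    have h5 : ∫ t in (0 : ℝ)..1, (-(K + C0 ^ 2 / 2 + A)) ≤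
        ∫ t in (0 : ℝ)..1, (U (γ b + t • (w + y)) - ‖y‖ ^ 2 / 2 - A) := by
      refine intervalIntegral.integral_mono_on zero_le_one (by simp)
        (hc.intervalIntegrable _ _) fun t _ => ?_
      have h6 := (abs_le.1 (hUK (γ b + t • (w + y)))).1
      have h7 : ‖y‖ ^ 2 ≤ C0 ^ 2 := pow_le_pow_left₀ (norm_nonneg _) hyn 2
      linarith
    rw [intervalIntegral.integral_const] at h5
    simpa using h5
  linarith

/-- the action of an invariant measure -/
theorem action_ge {V : Torus n → ℝ} (hV : ContDiff ℝ 2 fun x : Vec n => V (proj x))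
    {φ : ℝ → Phase n → Phase n} (hφ : IsELFlow (mech S V) φ) {c : Vec n} {A : ℝ}
    (hA : Closed S (pot S V) (til S c) A) {r : ℝ} (hr : r ∈ actions (mech S V) φ c) :
    -(A + ‖til S c‖ ^ 2 / 2) ≤ r := by
  obtain ⟨μ, ⟨hμ, hinv⟩, hint, rfl⟩ := hr
  obtain ⟨C, hC⟩ := upper_gain (pot_contDiff hV) (pot_per S V) hA
  set B : ℝ := A + ‖til S c‖ ^ 2 / 2 with hB
  set F : Phase n → ℝ := fun z => mech S V z.1 z.2.1 z.2.2 - ⟪c, z.2.1⟫ with hF
  have hVc := upper_cont_V hV
  have hFc : Continuous F := by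
    have h1 : Continuous fun z : Phase n => V z.1 := hVc.comp continuous_fst
    have h2 : Continuous fun z : Phase n => z.2.1 := continuous_fst.comp continuous_snd
    have h3 : Continuous fun z : Phase n => S z.2.1 := S.continuous.comp h2
    show Continuous fun z : Phase n => ‖S z.2.1‖ ^ 2 / 2 - V z.1 - ⟪c, z.2.1⟫
    exact (((h3.norm.pow 2).div_const 2).sub h1).sub (continuous_const.inner h2)
  have hφc : ∀ s, Continuous (φ s) := fun s => by
    have := hφ.cont.comp (Continuous.prodMk_right (X := ℝ) (Y := Phase n) s)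
    exact this
  -- lower bound along the orbits
  have key : ∀ τ : ℝ, 0 < τ → ∀ z : Phase n, -C - B * τ ≤ ∫ s in (0 : ℝ)..τ, F (φ s z) := by
    intro τ hτ z
    obtain ⟨q, v, t₀⟩ := z
    obtain ⟨x, rfl⟩ := upper_open_proj.surjective q
    obtain ⟨X, Y, hN, hX0, hY0⟩ := exists_newton hV hφ (S x) (S v)
    have hXc : Continuous X := continuous_iff_continuousAt.2 fun t => (hN.1 t).continuousAt
    have hYc : Continuous Y := continuous_iff_continuousAt.2 fun t => (hN.2 t).continuousAt
    have hcrv : Crv X Y 0 τ :=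
      ⟨hτ.le, hXc.continuousOn, ⟨∅, countable_empty, fun t _ _ => hN.1 t⟩,
        hYc.intervalIntegrable _ _, (hYc.norm.pow 2).intervalIntegrable _ _⟩
    have hg := hC X Y 0 τ hcrv
    have hfl : ∀ s, φ s (proj x, v, t₀) =
        (proj (S.symm (X s)), S.symm (Y s), t₀ + (s : UnitAddCircle)) := by
      intro s
      have := flow_newton hV hφ hN t₀ s
      rwa [hX0, hY0, ContinuousLinearEquiv.symm_apply_apply,
        ContinuousLinearEquiv.symm_apply_apply] at this
    have h3 : ∀ s : ℝ, F (φ s (proj x, v, t₀)) =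
        -(pot S V (X s) - ‖Y s - til S c‖ ^ 2 / 2 - A) - B := by
      intro s
      rw [hfl]
      have h4 : ⟪til S c, Y s⟫ = ⟪c, S.symm (Y s)⟫ := by
        rw [← inner_til S c (S.symm (Y s)), ContinuousLinearEquiv.apply_symm_apply]
      show ‖S (S.symm (Y s))‖ ^ 2 / 2 - V (proj (S.symm (X s))) - ⟪c, S.symm (Y s)⟫ = _
      rw [ContinuousLinearEquiv.apply_symm_apply, ← h4, pot, norm_sub_sq_real,
        real_inner_comm (til S c) (Y s), hB]
      ring
    have hpc : Continuous (pot S V) := hV.continuous.comp S.symm.continuous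
    have h5 : Continuous fun s => -(pot S V (X s) - ‖Y s - til S c‖ ^ 2 / 2 - A) :=
      (((hpc.comp hXc).sub (((hYc.sub continuous_const).norm.pow 2).div_const 2)).sub
        continuous_const).neg
    rw [intervalIntegral.integral_congr
      (g := fun s => -(pot S V (X s) - ‖Y s - til S c‖ ^ 2 / 2 - A) - B) (fun s _ => h3 s),
      intervalIntegral.integral_sub (h5.intervalIntegrable _ _) (by simp),
      intervalIntegral.integral_neg, intervalIntegral.integral_const]
    have h6 : ∫ s in (0 : ℝ)..τ, (pot S V (X s) - ‖Y s - til S c‖ ^ 2 / 2 - A) ≤ C := hg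
    rw [sub_zero, smul_eq_mul]
    linarith
  -- Fubini
  have main : ∀ τ : ℝ, 0 < τ → -C - B * τ ≤ τ * ∫ z, F z ∂μ := by
    intro τ hτ
    have hmeas : ∀ s, MeasurePreserving (φ s) μ μ := fun s => ⟨(hφc s).measurable, hinv s⟩
    have hints : ∀ s, Integrable (fun z => F (φ s z)) μ := fun s =>
      (hmeas s).integrable_comp_of_integrable hint
    have hjoint : Continuous (Function.uncurry fun (s : ℝ) (z : Phase n) => F (φ s z)) :=
      hFc.comp hφ.cont
    have hprod : Integrable (Function.uncurry fun (s : ℝ) (z : Phase n) => F (φ s z))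
        ((volume.restrict (Ioc 0 τ)).prod μ) := by
      rw [integrable_prod_iff hjoint.aestronglyMeasurable]
      refine ⟨Filter.Eventually.of_forall fun s => hints s, ?_⟩
      have h1 : ∀ s : ℝ, ∫ z, ‖F (φ s z)‖ ∂μ = ∫ z, ‖F z‖ ∂μ := by
        intro s
        have h2 := integral_map (hmeas s).aemeasurable
          (f := fun z => ‖F z‖) (μ := μ) (hFc.norm.aestronglyMeasurable)
        rw [hinv s] at h2
        exact h2.symm
      have h2 : (fun s : ℝ => ∫ z, ‖F (φ s z)‖ ∂μ) = fun _ => ∫ z, ‖F z‖ ∂μ := funext h1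
      show Integrable (fun s : ℝ => ∫ z, ‖F (φ s z)‖ ∂μ) _
      rw [h2]
      exact integrable_const _
    have hswap := integral_integral_swap (μ := volume.restrict (Ioc 0 τ)) (ν := μ) hprod
    have h1 : ∀ s : ℝ, ∫ z, F (φ s z) ∂μ = ∫ z, F z ∂μ := by
      intro s
      have h2 := integral_map (hmeas s).aemeasurable (f := F) (μ := μ) hFc.aestronglyMeasurable
      rw [hinv s] at h2
      exact h2.symm
    have h2 : ∫ s in Ioc 0 τ, ∫ z, F (φ s z) ∂μ = τ * ∫ z, F z ∂μ := by
      simp only [h1]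
      rw [setIntegral_const]
      simp [hτ.le]
    rw [← h2, hswap]
    have h3 : ∫ z, (-C - B * τ) ∂μ = -C - B * τ := by
      rw [integral_const]
      simp
    rw [← h3]
    refine integral_mono (integrable_const _) hprod.integral_prod_right fun z => ?_
    have h4 := key τ hτ z
    rw [intervalIntegral.integral_of_le hτ.le] at h4
    exact h4
  -- the limit
  by_contra hcon
  push Not at hcon
  set r : ℝ := ∫ z, F z ∂μ with hr
  have hd : 0 < -(r + B) := by
    have : r < -B := hcon
    linarith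
  have h1 := main ((|C| + 1) / (-(r + B))) (div_pos (by positivity) hd)
  have h2 : (|C| + 1) / (-(r + B)) * (-(r + B)) = |C| + 1 := div_mul_cancel₀ _ hd.ne'
  have h3 := le_abs_self C
  nlinarith

end Pool.Agent.MechAlpha
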