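import Pool.Agent.MechAlpha.Wind
import Pool.Agent.MechAlpha.Bounds
import Pool.Agent.MechAlpha.Data
import Pool.Agent.MechAlpha.Newton
import Pool.Agent.MechAlpha.Periodic
import Pool.Agent.MechAlpha.Flow
import Pool.Agent.MechAlpha.Lower
import Pool.Agent.MechAlpha.Upper

/-!
# Mather's function of a mechanical Lagrangian is not strictly convex
-/

set_option autoImplicit false

namespace Pool.Agent.MechAlpha

open MeasureTheory Set
open scoped RealInnerProductSpace

variable {n : ℕ} {S : Vec n ≃L[ℝ] Vec n} {V : Torus n → ℝ} {φ : ℝ → Phase n → Phase n}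

theorem til_zv (k : Fin n → ℤ) : til S (zv k) = kap S k := rfl

theorem til_add (c d : Vec n) : til S (c + d) = til S c + til S d := by
  unfold til
  rw [map_add]

theorem til_smul (r : ℝ) (c : Vec n) : til S (r • c) = r • til S c := by
  unfold til
  rw [map_smul]

theorem til_adj (w : Vec n) :
    til S (ContinuousLinearMap.adjoint (S : Vec n →L[ℝ] Vec n) w) = w := by
  refine ext_inner_right ℝ fun v => ?_
  obtain ⟨x, rfl⟩ := S.surjective v
  rw [inner_til, ContinuousLinearMap.adjoint_inner_left]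
  rfl

theorem pot_cont (hV : ContDiff ℝ 2 fun x : Vec n => V (proj x)) : Continuous (pot S V) :=
  (pot_contDiff hV).continuous

theorem exists_action (hV : ContDiff ℝ 2 fun x : Vec n => V (proj x))
    (hφ : IsELFlow (mech S V) φ) (c : Vec n) : (actions (mech S V) φ c).Nonempty := by
  have h1 : Crv (fun t : ℝ => (0 : Vec n) + t • (0 : Vec n)) (fun _ => 0) 0 1 :=
    crv_line 0 0 zero_le_one
  obtain ⟨X, Y, h, hX, hY, -⟩ := exists_periodic (pot_contDiff hV) (pot_per S V)
    (exists_newton hV hφ) h1 zero_lt_one 0 (by simp [iv_zero])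
  rw [sub_zero] at hX hY
  exact ⟨_, action_mem hV hφ h one_pos 0 hX hY c⟩

theorem exists_closed (hV : ContDiff ℝ 2 fun x : Vec n => V (proj x)) (w : Vec n) :
    ∃ K, Closed S (pot S V) w K := by
  obtain ⟨K, -, hK, -⟩ := gradient_bounds (pot_contDiff (S := S) hV) (pot_per S V)
  refine ⟨K, fun γ u a b h m _ => ?_⟩
  have h1 : gain (pot S V) w K γ u a b ≤ ∫ t in a..b, (0 : ℝ) := by
    refine intervalIntegral.integral_mono_on h.le (h.intervalIntegrable (pot_cont hV) w K)
      intervalIntegrable_const fun t _ => ?_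
    have h2 := (abs_le.1 (hK (γ t))).2
    have h3 : 0 ≤ ‖u t - w‖ ^ 2 := sq_nonneg _
    linarith
  simpa using h1

theorem bddBelow_actions (hV : ContDiff ℝ 2 fun x : Vec n => V (proj x))
    (hφ : IsELFlow (mech S V) φ) (c : Vec n) : BddBelow (actions (mech S V) φ c) := by
  obtain ⟨K, hK⟩ := exists_closed (S := S) hV (til S c)
  exact ⟨_, fun r hr => action_ge hV hφ hK hr⟩

theorem alpha_le (hV : ContDiff ℝ 2 fun x : Vec n => V (proj x)) (hφ : IsELFlow (mech S V) φ)
    (c : Vec n) {A : ℝ} (hA : Closed S (pot S V) (til S c) A) :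
    alpha (mech S V) φ c ≤ A + ‖til S c‖ ^ 2 / 2 := by
  have := le_csInf (exists_action hV hφ c) fun r hr => action_ge hV hφ hA hr
  unfold alpha
  linarith

theorem closed_alpha (hV : ContDiff ℝ 2 fun x : Vec n => V (proj x))
    (hφ : IsELFlow (mech S V) φ) (c : Vec n) :
    Closed S (pot S V) (til S c) (alpha (mech S V) φ c - ‖til S c‖ ^ 2 / 2) := by
  intro γ u a b h m hm
  rcases h.le.eq_or_lt with hab | hab
  · subst hab
    rw [gain_self]
  have hU := pot_cont (S := S) hV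
  obtain ⟨X, Y, hN, hX, hY, hg⟩ := exists_periodic (pot_contDiff hV) (pot_per S V)
    (exists_newton hV hφ) h hab m hm
  have hτ : 0 < b - a := sub_pos.2 hab
  have h1 := csInf_le (bddBelow_actions hV hφ c) (action_mem hV hφ hN hτ m hX hY c)
  have h2 := gain_change hU h 0 (til S c) (alpha (mech S V) φ c)
  rw [zero_add, inner_zero_left, sub_zero, hm, add_sub_cancel_left] at h2
  have h3 := gain_level hU h 0 0 (alpha (mech S V) φ c)
  rw [zero_add] at h3
  rw [h2, h3]
  have h4 : (b - a)⁻¹ * (gain (pot S V) 0 0 X Y 0 (b - a) + ⟪til S c, iv S m⟫) ≤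
      alpha (mech S V) φ c := by
    unfold alpha
    linarith
  rw [inv_mul_le_iff₀ hτ] at h4
  linarith

/-- a segment on which `α` is constant -/
theorem alpha_flat (hV : ContDiff ℝ 2 fun x : Vec n => V (proj x))
    (hφ : IsELFlow (mech S V) φ) {k : Fin n → ℤ} {ω : Vec n} {W : ℝ → ℝ} {M : ℝ}
    (D : Data S (pot S V) k ω W M) (hW : ∃ θ, W θ < M) {c : Vec n} (hc : til S c = ω) :
    ∃ s : ℝ, 0 < s ∧ ∃ T₀ : ℝ, ∀ T ≥ T₀, ∀ r : ℝ, |r| ≤ s →
      alpha (mech S V) φ (T • c + r • zv k) = alpha (mech S V) φ (T • c) := by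
  obtain ⟨s, hs, η, hη, T₁, h1⟩ := wind_abs D hW
  obtain ⟨T₂, h2⟩ := closed_add D hη
  obtain ⟨T₃, h3⟩ := le_of_closed D hη
  have hU := pot_cont (S := S) hV
  refine ⟨s, hs, max T₁ (max T₂ T₃), fun T hT => ?_⟩
  have hT₁ : T ≥ T₁ := (le_max_left _ _).trans hT
  have hT₂ : T ≥ T₂ := ((le_max_left _ _).trans (le_max_right _ _)).trans hT
  have hT₃ : T ≥ T₃ := ((le_max_right _ _).trans (le_max_right _ _)).trans hT
  have ht : ∀ r : ℝ, til S (T • c + r • zv k) = T • ω + r • kap S k := by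
    intro r
    rw [til_add, til_smul, til_smul, hc, til_zv]
  have ht0 : til S (T • c) = T • ω := by rw [til_smul, hc]
  have horth : ∀ r : ℝ, ⟪T • ω, r • kap S k⟫ = 0 := by
    intro r
    rw [real_inner_smul_left, real_inner_smul_right, real_inner_comm, D.orth, mul_zero, mul_zero]
  have hnorm : ∀ r : ℝ, ‖T • ω + r • kap S k‖ ^ 2 = ‖T • ω‖ ^ 2 + ‖r • kap S k‖ ^ 2 := by
    intro r
    rw [pow_two, pow_two, pow_two]
    exact norm_add_sq_eq_norm_sq_add_norm_sq_of_inner_eq_zero _ _ (horth r)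
  -- comparison of the gains
  have hgain : ∀ (r B : ℝ) (γ u : ℝ → Vec n) (a b : ℝ), Crv γ u a b →
      ∀ m, γ b = γ a + iv S m → gain (pot S V) (T • ω + r • kap S k)
        (B - ‖r • kap S k‖ ^ 2 / 2) γ u a b =
          gain (pot S V) (T • ω) B γ u a b + r * ⟪kap S k, iv S m⟫ := by
    intro r B γ u a b h m hm
    have h4 := gain_change hU h (T • ω) (r • kap S k) B
    rw [horth r, sub_zero, hm, add_sub_cancel_left, real_inner_smul_left] at h4
    exact h4
  obtain ⟨A, hA⟩ : ∃ A, A = alpha (mech S V) φ (T • c) - ‖T • ω‖ ^ 2 / 2 := ⟨_, rfl⟩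
  have hcl : Closed S (pot S V) (T • ω) A := by
    have := closed_alpha hV hφ (T • c)
    rwa [ht0, ← hA] at this
  have hAM : |A - M| ≤ η := by
    rw [abs_le]
    constructor
    · have := h3 T hT₃ A hcl
      linarith
    · have := alpha_le hV hφ (T • c) (A := M + η) (by rw [ht0]; exact h2 T hT₂)
      rw [ht0] at this
      linarith
  -- the upper bound
  have hle : ∀ r : ℝ, |r| ≤ s → alpha (mech S V) φ (T • c + r • zv k) ≤
      alpha (mech S V) φ (T • c) := by
    intro r hr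
    have h5 : Closed S (pot S V) (til S (T • c + r • zv k)) (A - ‖r • kap S k‖ ^ 2 / 2) := by
      intro γ u a b h m hm
      rw [ht r, hgain r A γ u a b h m hm]
      have h6 := h1 T hT₁ A hAM hcl γ u a b h m hm
      have h7 : r * ⟪kap S k, iv S m⟫ ≤ s * |⟪kap S k, iv S m⟫| := by
        calc r * ⟪kap S k, iv S m⟫ ≤ |r * ⟪kap S k, iv S m⟫| := le_abs_self _
          _ = |r| * |⟪kap S k, iv S m⟫| := abs_mul _ _
          _ ≤ s * |⟪kap S k, iv S m⟫| := mul_le_mul_of_nonneg_right hr (abs_nonneg _)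
      linarith
    have h8 := alpha_le hV hφ (T • c + r • zv k) h5
    rw [ht r, hnorm r, hA] at h8
    linarith
  -- convexity
  intro r hr
  refine le_antisymm (hle r hr) ?_
  have hr' := hle (-r) (by rwa [abs_neg])
  have h9 : Closed S (pot S V) (til S (T • c))
      ((alpha (mech S V) φ (T • c + r • zv k) + alpha (mech S V) φ (T • c + (-r) • zv k)) / 2
        - ‖T • ω‖ ^ 2 / 2) := by
    intro γ u a b h m hm
    have e1 := closed_alpha hV hφ (T • c + r • zv k) γ u a b h m hm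
    have e2 := closed_alpha hV hφ (T • c + (-r) • zv k) γ u a b h m hm
    rw [ht, hnorm] at e1 e2
    have q1 : alpha (mech S V) φ (T • c + r • zv k) - (‖T • ω‖ ^ 2 + ‖r • kap S k‖ ^ 2) / 2 =
      (alpha (mech S V) φ (T • c + r • zv k) - ‖T • ω‖ ^ 2 / 2) - ‖r • kap S k‖ ^ 2 / 2 := by
      ring
    have q2 : alpha (mech S V) φ (T • c + (-r) • zv k) -
        (‖T • ω‖ ^ 2 + ‖(-r) • kap S k‖ ^ 2) / 2 =
      (alpha (mech S V) φ (T • c + (-r) • zv k) - ‖T • ω‖ ^ 2 / 2) -
        ‖(-r) • kap S k‖ ^ 2 / 2 := by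
      ring
    rw [q1, hgain r _ γ u a b h m hm] at e1
    rw [q2, hgain (-r) _ γ u a b h m hm] at e2
    rw [ht0]
    have l1 := gain_level hU h (T • ω) 0
      (alpha (mech S V) φ (T • c + r • zv k) - ‖T • ω‖ ^ 2 / 2)
    have l2 := gain_level hU h (T • ω) 0
      (alpha (mech S V) φ (T • c + (-r) • zv k) - ‖T • ω‖ ^ 2 / 2)
    have l3 := gain_level hU h (T • ω) 0
      ((alpha (mech S V) φ (T • c + r • zv k) + alpha (mech S V) φ (T • c + (-r) • zv k)) / 2
        - ‖T • ω‖ ^ 2 / 2)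
    rw [zero_add] at l1 l2 l3
    rw [l1] at e1
    rw [l2] at e2
    rw [l3]
    linarith
  have h10 := alpha_le hV hφ (T • c) h9
  rw [ht0] at h10
  linarith

/-- `α` is bounded from below by a quadratic function -/
theorem alpha_ge (hV : ContDiff ℝ 2 fun x : Vec n => V (proj x))
    (hφ : IsELFlow (mech S V) φ) : ∃ K, ∀ c, ‖til S c‖ ^ 2 / 2 - K ≤ alpha (mech S V) φ c := by
  obtain ⟨K, -, hK, -⟩ := gradient_bounds (pot_contDiff (S := S) hV) (pot_per S V)
  obtain ⟨C, -, hC⟩ := exists_lattice' S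
  refine ⟨K + C ^ 2 / 2, fun c => ?_⟩
  obtain ⟨m, hm⟩ := hC (til S c)
  have hU := pot_cont (S := S) hV
  have h1 : Crv (fun t : ℝ => (0 : Vec n) + t • iv S m) (fun _ => iv S m) 0 1 :=
    crv_line 0 (iv S m) zero_le_one
  have h2 := closed_alpha hV hφ c _ _ _ _ h1 m (by simp)
  have h3 : ∫ _ in (0 : ℝ)..1, (-K - C ^ 2 / 2 -
      (alpha (mech S V) φ c - ‖til S c‖ ^ 2 / 2)) ≤
      gain (pot S V) (til S c) (alpha (mech S V) φ c - ‖til S c‖ ^ 2 / 2)
        (fun t : ℝ => (0 : Vec n) + t • iv S m) (fun _ => iv S m) 0 1 := by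
    refine intervalIntegral.integral_mono_on zero_le_one intervalIntegrable_const
      (h1.intervalIntegrable hU _ _) fun t _ => ?_
    have h4 := (abs_le.1 (hK ((0 : Vec n) + t • iv S m))).1
    have h5 : ‖iv S m - til S c‖ ^ 2 ≤ C ^ 2 := pow_le_pow_left₀ (norm_nonneg _) hm 2
    linarith
  rw [intervalIntegral.integral_const, sub_zero, one_smul] at h3
  linarith

theorem proj_surj (z : Torus n) : ∃ x : Vec n, proj x = z := by
  choose f hf using fun i => QuotientAddGroup.mk_surjective (z i)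
  exact ⟨WithLp.toLp 2 f, funext fun i => hf i⟩

/-- flat pieces of `α` at all high energies -/
theorem main (hV : ContDiff ℝ 2 fun x : Vec n => V (proj x)) (hφ : IsELFlow (mech S V) φ)
    (hne : ∃ x y, V x ≠ V y) : ∃ (k : Fin n → ℤ) (c : Vec n) (s T₀ : ℝ), k ≠ 0 ∧
      (2 ≤ n → c ≠ 0) ∧ 0 < s ∧ ∀ T ≥ T₀, ∀ r : ℝ, |r| ≤ s →
        alpha (mech S V) φ (T • c + r • zv k) = alpha (mech S V) φ (T • c) := by
  have hne' : ∃ x y, pot S V x ≠ pot S V y := by
    obtain ⟨x, y, h⟩ := hne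
    obtain ⟨x', rfl⟩ := proj_surj x
    obtain ⟨y', rfl⟩ := proj_surj y
    exact ⟨S x', S y', by simpa [pot] using h⟩
  obtain ⟨k, ω, W, M, D, hW, hω⟩ := exists_data (pot_cont (S := S) hV) (pot_per S V) hne'
  obtain ⟨s, hs, T₀, h⟩ := alpha_flat hV hφ D hW (til_adj ω)
  refine ⟨k, ContinuousLinearMap.adjoint (S : Vec n →L[ℝ] Vec n) ω, s, T₀, D.k_ne, ?_, hs, h⟩
  intro hn h0
  apply hω hn
  rw [← til_adj (S := S) ω, h0]
  unfold til
  rw [map_zero]

theorem zv_ne {k : Fin n → ℤ} (hk : k ≠ 0) : (zv k : Vec n) ≠ 0 := by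
  intro h
  apply kap_ne (S := ContinuousLinearEquiv.refl ℝ (Vec n)) hk
  rw [← til_zv, h]
  unfold til
  rw [map_zero]

/-- if `α` is strictly convex or analytic then `V` is constant -/
theorem constant (hV : ContDiff ℝ 2 fun x : Vec n => V (proj x)) (hφ : IsELFlow (mech S V) φ)
    (hα : StrictConvexOn ℝ univ (alpha (mech S V) φ) ∨
      AnalyticOnNhd ℝ (alpha (mech S V) φ) univ) (x y : Torus n) : V x = V y := by
  by_contra hne
  obtain ⟨k, c, s, T₀, hk, -, hs, h⟩ := main hV hφ ⟨x, y, hne⟩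
  rcases hα with hα | hα
  · have h1 := h T₀ (le_refl _) s (le_of_eq (abs_of_pos hs))
    have h2 := h T₀ (le_refl _) (-s) (by rw [abs_neg, abs_of_pos hs])
    have hne : T₀ • c + s • zv k ≠ T₀ • c + (-s) • zv k := by
      intro h3
      have h4 := add_left_cancel h3
      rw [neg_smul, eq_neg_iff_add_eq_zero, ← two_smul ℝ, smul_smul] at h4
      rcases smul_eq_zero.1 h4 with h5 | h5
      · linarith
      · exact zv_ne hk h5
    have h3 := hα.2 (mem_univ _) (mem_univ _) hne (show (0 : ℝ) < 1 / 2 by norm_num)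
      (show (0 : ℝ) < 1 / 2 by norm_num) (by norm_num)
    rw [h1, h2] at h3
    have h4 : (1 / 2 : ℝ) • (T₀ • c + s • zv k) + (1 / 2 : ℝ) • (T₀ • c + (-s) • zv k) =
        T₀ • c := by
      module
    rw [h4, ← add_smul] at h3
    norm_num at h3
  · obtain ⟨K, hK⟩ := alpha_ge hV hφ
    obtain ⟨f, hf⟩ : ∃ f : ℝ → ℝ, f = fun r => alpha (mech S V) φ (T₀ • c + r • zv k) := ⟨_, rfl⟩
    have hfa : AnalyticOnNhd ℝ f univ := by
      rw [hf]
      intro r _
      have h1 : AnalyticAt ℝ (fun r : ℝ => T₀ • c + r • zv k) r :=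
        analyticAt_const.add (analyticAt_id.smul analyticAt_const)
      exact (hα _ (mem_univ _)).comp h1
    have hconst : f = fun _ => alpha (mech S V) φ (T₀ • c) := by
      refine hfa.eq_of_eventuallyEq (z₀ := 0) (analyticOnNhd_const) ?_
      have h1 : Metric.ball (0 : ℝ) s ∈ nhds (0 : ℝ) := Metric.ball_mem_nhds 0 hs
      filter_upwards [h1] with r hr
      rw [Metric.mem_ball, dist_zero_right, Real.norm_eq_abs] at hr
      rw [hf]
      exact h T₀ (le_refl _) r hr.le
    have hκ : 0 < ‖kap S k‖ := norm_pos_iff.2 (kap_ne hk)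
    -- large values
    obtain ⟨r, hr⟩ : ∃ r : ℝ, alpha (mech S V) φ (T₀ • c) <
        (|r| * ‖kap S k‖ - ‖til S (T₀ • c)‖) ^ 2 / 2 - K ∧
          0 ≤ |r| * ‖kap S k‖ - ‖til S (T₀ • c)‖ := by
      obtain ⟨B, hB⟩ : ∃ B : ℝ, 0 ≤ B ∧ alpha (mech S V) φ (T₀ • c) + K < B ^ 2 / 2 := by
        refine ⟨2 * |alpha (mech S V) φ (T₀ • c) + K| + 2, by positivity, ?_⟩
        have := le_abs_self (alpha (mech S V) φ (T₀ • c) + K)
        have h0 := abs_nonneg (alpha (mech S V) φ (T₀ • c) + K)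
        nlinarith
      refine ⟨(B + ‖til S (T₀ • c)‖) / ‖kap S k‖, ?_⟩
      have e : |(B + ‖til S (T₀ • c)‖) / ‖kap S k‖| * ‖kap S k‖ = B + ‖til S (T₀ • c)‖ := by
        rw [abs_of_nonneg (by have := hB.1; positivity)]
        field_simp
      rw [e]
      have e' : B + ‖til S (T₀ • c)‖ - ‖til S (T₀ • c)‖ = B := by ring
      rw [e']
      exact ⟨by linarith [hB.2], hB.1⟩
    have h1 := hK (T₀ • c + r • zv k)
    have h2 : alpha (mech S V) φ (T₀ • c + r • zv k) = alpha (mech S V) φ (T₀ • c) := by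
      have := congrFun hconst r
      rw [hf] at this
      exact this
    rw [h2, til_add, til_smul r, til_zv] at h1
    have h3 : |r| * ‖kap S k‖ - ‖til S (T₀ • c)‖ ≤ ‖til S (T₀ • c) + r • kap S k‖ := by
      have h4 := norm_sub_norm_le (r • kap S k) (-til S (T₀ • c))
      rw [norm_neg, norm_smul, Real.norm_eq_abs, sub_neg_eq_add, add_comm (r • kap S k)] at h4
      exact h4
    have h4 := pow_le_pow_left₀ hr.2 h3 2
    linarith [hr.1]

/-- the velocities are first integrals if `V` is constant -/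
theorem velocity (hV : ContDiff ℝ 2 fun x : Vec n => V (proj x)) (hφ : IsELFlow (mech S V) φ)
    (hc : ∀ x y, V x = V y) (s : ℝ) (z : Phase n) : (φ s z).2.1 = z.2.1 := by
  obtain ⟨x, v, t₀⟩ := z
  obtain ⟨x', rfl⟩ := proj_surj x
  have hN : Newton (pot S V) (fun t => S x' + t • S v) (fun _ => S v) := by
    constructor
    · intro t
      have h1 : HasDerivAt (fun t : ℝ => S x' + t • S v) ((1 : ℝ) • S v) t :=
        ((hasDerivAt_id t).smul_const (S v)).const_add (S x')
      rwa [one_smul] at h1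
    · intro t
      have h1 : pot S V = fun _ => V 0 := funext fun X => hc _ _
      have h2 : gradient (pot S V) (S x' + t • S v) = 0 := by
        rw [h1]
        exact gradient_const _ _
      rw [h2, neg_zero]
      exact hasDerivAt_const t (S v)
  have h1 := flow_newton hV hφ hN t₀ s
  simp only [zero_smul, add_zero, S.symm_apply_apply] at h1
  rw [h1]

end Pool.Agent.MechAlpha
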