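import Pool.Agent.MechAlpha.Final

/-!
# Complete integrability in the sense of Liouville
-/

set_option autoImplicit false

namespace Pool.Agent.MechAlpha

open MeasureTheory Set
open scoped RealInnerProductSpace ContDiff

variable {n : ℕ}

/-- the momentum `∂L/∂v` -/
noncomputable def mom (L : Torus n → Vec n → UnitAddCircle → ℝ) (z : Phase n) : Vec n :=
  gradient (fun w : Vec n => L z.1 w z.2.2) z.2.1

/-- the Poisson bracket `∑ (∂F/∂x ∂G/∂p - ∂F/∂p ∂G/∂x)` of two functions of `(x, p, t)` -/
noncomputable def bracket (F G : Phase n → ℝ) (x p : Vec n) (t : UnitAddCircle) : ℝ :=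
  ∑ l : Fin n,
    (fderiv ℝ (fun y : Vec n => F (proj y, p, t)) x (EuclideanSpace.single l 1) *
        fderiv ℝ (fun q : Vec n => G (proj x, q, t)) p (EuclideanSpace.single l 1) -
      fderiv ℝ (fun q : Vec n => F (proj x, q, t)) p (EuclideanSpace.single l 1) *
        fderiv ℝ (fun y : Vec n => G (proj y, p, t)) x (EuclideanSpace.single l 1))

/-- Liouville integrability of the Hamiltonian system of `L`: there are `n` smooth functions of
`(x, p, t)` on `𝕋ⁿ × ℝⁿ × 𝕋` which are constant along the flow (`p = ∂L/∂v`), commute with each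
other, and whose differentials in `(x, p)` are linearly independent on an open dense set -/
def CompletelyIntegrable (L : Torus n → Vec n → UnitAddCircle → ℝ)
    (φ : ℝ → Phase n → Phase n) : Prop :=
  ∃ F : Fin n → Phase n → ℝ,
    (∀ i, ContDiff ℝ ∞ fun q : Vec n × Vec n × ℝ =>
      F i (proj q.1, q.2.1, (q.2.2 : UnitAddCircle))) ∧
    (∀ i s z, F i ((φ s z).1, mom L (φ s z), (φ s z).2.2) = F i (z.1, mom L z, z.2.2)) ∧
    (∀ i j x p t, bracket (F i) (F j) x p t = 0) ∧
    ∃ O : Set (Phase n), IsOpen O ∧ Dense O ∧ ∀ (x p : Vec n) (t : UnitAddCircle),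
      (proj x, p, t) ∈ O → LinearIndependent ℝ fun i : Fin n =>
        fderiv ℝ (fun y : Vec n × Vec n => F i (proj y.1, y.2, t)) (x, p)

/-- the case of a constant potential -/
theorem integrable_of_constant {S : Vec n ≃L[ℝ] Vec n} {V : Torus n → ℝ}
    {φ : ℝ → Phase n → Phase n} (hV : ContDiff ℝ 2 fun x : Vec n => V (proj x))
    (hφ : IsELFlow (mech S V) φ) (hc : ∀ x y, V x = V y) :
    CompletelyIntegrable (mech S V) φ := by
  have hm : ∀ (x y : Torus n) (v : Vec n) (t s : UnitAddCircle),
      mom (mech S V) (x, v, t) = mom (mech S V) (y, v, s) := by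
    intro x y v t s
    have : (fun w : Vec n => mech S V x w t) = fun w : Vec n => mech S V y w s := by
      funext w
      unfold mech
      rw [hc x y]
    show gradient (fun w : Vec n => mech S V x w t) v = gradient (fun w : Vec n => mech S V y w s) v
    rw [this]
  have hd : ∀ (i : Fin n) (x p : Vec n), HasFDerivAt (fun y : Vec n × Vec n => y.2 i)
      ((EuclideanSpace.proj i : Vec n →L[ℝ] ℝ).comp (ContinuousLinearMap.snd ℝ (Vec n) (Vec n)))
      (x, p) := by
    intro i x p
    exact ((EuclideanSpace.proj i : Vec n →L[ℝ] ℝ).comp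
      (ContinuousLinearMap.snd ℝ (Vec n) (Vec n))).hasFDerivAt
  refine ⟨fun i z => z.2.1 i, ?_, ?_, ?_, univ, isOpen_univ, dense_univ, ?_⟩
  · intro i
    show ContDiff ℝ ∞ fun q : Vec n × Vec n × ℝ => q.2.1 i
    have h1 : ContDiff ℝ ∞ fun q : Vec n × Vec n × ℝ => q.2.1 := contDiff_fst.comp contDiff_snd
    exact ((EuclideanSpace.proj i : Vec n →L[ℝ] ℝ).contDiff).comp h1
  · intro i s z
    have h1 := velocity hV hφ hc s z
    have h2 : mom (mech S V) (φ s z) = mom (mech S V) z := by
      have := hm (φ s z).1 z.1 z.2.1 (φ s z).2.2 z.2.2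
      rw [← h1] at this
      convert this using 2
      exact Prod.ext rfl (Prod.ext h1.symm rfl)
    show (mom (mech S V) (φ s z)) i = (mom (mech S V) z) i
    rw [h2]
  · intro i j x p t
    unfold bracket
    refine Finset.sum_eq_zero fun l _ => ?_
    have h1 : ∀ k : Fin n, fderiv ℝ (fun _ : Vec n => p k) x = 0 := fun k =>
      (hasFDerivAt_const _ _).fderiv
    simp [h1]
  · intro x p t _
    have h1 : (fun i : Fin n => fderiv ℝ (fun y : Vec n × Vec n => y.2 i) (x, p)) =
        fun i : Fin n => (EuclideanSpace.proj i : Vec n →L[ℝ] ℝ).comp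
          (ContinuousLinearMap.snd ℝ (Vec n) (Vec n)) :=
      funext fun i => (hd i x p).fderiv
    show LinearIndependent ℝ (fun i : Fin n => fderiv ℝ (fun y : Vec n × Vec n => y.2 i) (x, p))
    rw [h1, Fintype.linearIndependent_iff]
    intro g hg i
    have h2 := congrArg (fun l : Vec n × Vec n →L[ℝ] ℝ =>
      l ((0 : Vec n), (EuclideanSpace.single i 1 : Vec n))) hg
    simpa using h2

end Pool.Agent.MechAlpha
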