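import Pool.Agent.MechAlpha.Vecs
import Pool.Agent.MechAlpha.Curve
import Pool.Agent.MechAlpha.Reach
import Pool.Agent.MechAlpha.AvgCurve
import Pool.Agent.MechAlpha.Close
import Pool.Agent.MechAlpha.Cross

/-!
# Curves which wind around the torus have a negative gain
-/

set_option autoImplicit false

namespace Pool.Agent.MechAlpha

open MeasureTheory Set
open scoped RealInnerProductSpace

variable {n : ℕ} {S : Vec n ≃L[ℝ] Vec n} {U : Vec n → ℝ} {k : Fin n → ℤ} {ω : Vec n} {W : ℝ → ℝ}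
  {M : ℝ} {w : Vec n} {A : ℝ} {γ u : ℝ → Vec n} {a b c : ℝ} {x y z : Vec n} {g g' : ℝ}

/-! ### first and last times -/

private theorem exists_first {f : ℝ → ℝ} {a b y : ℝ} (hab : a ≤ b) (hf : ContinuousOn f (Icc a b))
    (ha : f a ≤ y) (hb : y ≤ f b) : ∃ t ∈ Icc a b, f t = y ∧ ∀ s ∈ Icc a t, f s ≤ y := by
  have hclosed : IsClosed (Icc a b ∩ f ⁻¹' Ici y) :=
    hf.preimage_isClosed_of_isClosed isClosed_Icc isClosed_Ici
  have hne : (Icc a b ∩ f ⁻¹' Ici y).Nonempty := ⟨b, ⟨hab, le_refl b⟩, hb⟩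
  have hbdd : BddBelow (Icc a b ∩ f ⁻¹' Ici y) := ⟨a, fun t ht => ht.1.1⟩
  have hmem := hclosed.csInf_mem hne hbdd
  obtain ⟨t, ht⟩ : ∃ t, t = sInf (Icc a b ∩ f ⁻¹' Ici y) := ⟨_, rfl⟩
  rw [← ht] at hmem
  have hlt : ∀ s ∈ Icc a b, s < t → f s < y := by
    intro s hs hst
    by_contra hcon
    push Not at hcon
    have := csInf_le hbdd (⟨hs, hcon⟩ : s ∈ Icc a b ∩ f ⁻¹' Ici y)
    rw [← ht] at this
    linarith
  have hft : f t = y := by
    have h1 := intermediate_value_Icc hmem.1.1 (hf.mono (Icc_subset_Icc_right hmem.1.2))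
    obtain ⟨t', ht', hy⟩ := h1 ⟨ha, hmem.2⟩
    have h2 := csInf_le hbdd
      (⟨⟨ht'.1, ht'.2.trans hmem.1.2⟩, hy.ge⟩ : t' ∈ Icc a b ∩ f ⁻¹' Ici y)
    rw [← ht] at h2
    have h3 : t' = t := le_antisymm ht'.2 h2
    rw [← h3]
    exact hy
  refine ⟨t, hmem.1, hft, fun s hs => ?_⟩
  rcases hs.2.eq_or_lt with h1 | h1
  · rw [h1, hft]
  · exact (hlt s ⟨hs.1, h1.le.trans hmem.1.2⟩ h1).le

private theorem exists_last {f : ℝ → ℝ} {a b y : ℝ} (hab : a ≤ b) (hf : ContinuousOn f (Icc a b))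
    (ha : f a ≤ y) (hb : y ≤ f b) : ∃ t ∈ Icc a b, f t = y ∧ ∀ s ∈ Icc t b, y ≤ f s := by
  have hg : ContinuousOn (fun s => -f (-s)) (Icc (-b) (-a)) := by
    refine (hf.comp continuous_neg.continuousOn fun s hs => ?_).neg
    exact ⟨by linarith [hs.2], by linarith [hs.1]⟩
  obtain ⟨t, ht, h1, h2⟩ := exists_first (f := fun s => -f (-s)) (y := -y) (by linarith) hg
    (by simpa using hb) (by simpa using ha)
  refine ⟨-t, ⟨by linarith [ht.2], by linarith [ht.1]⟩, by simpa using h1, fun s hs => ?_⟩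
  have := h2 (-s) ⟨by linarith [hs.2], by linarith [hs.1]⟩
  simpa using this

/-! ### the loss in the barriers -/

private theorem chi_cont (hW : Continuous W) (κ : ℝ) : Continuous (chi S k W M κ) := by
  unfold chi
  fun_prop

private theorem chi_nonneg (κ θ : ℝ) : 0 ≤ chi S k W M κ θ := by
  unfold chi
  positivity

private theorem chi_per (hW : ∀ θ, W (θ + 1) = W θ) (κ : ℝ) :
    Function.Periodic (chi S k W M κ) 1 := by
  intro θ
  unfold chi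
  rw [hW θ]

private theorem Psi_sub (hW : Continuous W) (κ θ θ' : ℝ) :
    Psi S k W M κ θ' - Psi S k W M κ θ = ∫ τ in θ..θ', chi S k W M κ τ := by
  unfold Psi
  exact intervalIntegral.integral_interval_sub_left
    ((chi_cont hW κ).intervalIntegrable _ _) ((chi_cont hW κ).intervalIntegrable _ _)

private theorem Psi_add_nat (hW : Continuous W) (hW1 : ∀ θ, W (θ + 1) = W θ) (κ θ : ℝ) (j : ℕ) :
    Psi S k W M κ (θ + j) - Psi S k W M κ θ = j * ∫ τ in (0 : ℝ)..1, chi S k W M κ τ := by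
  induction j with
  | zero => simp
  | succ j ih =>
    have h1 := Psi_sub (S := S) (k := k) (M := M) hW κ (θ + j) (θ + j + 1)
    rw [(chi_per hW1 κ).intervalIntegral_add_eq (θ + j) 0, zero_add] at h1
    push_cast
    have h2 : θ + ((j : ℝ) + 1) = θ + j + 1 := by ring
    rw [h2]
    linarith

private theorem chi_pos (hk : k ≠ 0) (hW : Continuous W) (hW1 : ∀ θ, W (θ + 1) = W θ) {κ θ : ℝ}
    (hθ : W θ < M - κ) : 0 < ∫ τ in (0 : ℝ)..1, chi S k W M κ τ := by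
  have h1 := (chi_per (S := S) (k := k) (M := M) hW1 κ).intervalIntegral_add_eq θ 0
  rw [zero_add] at h1
  rw [← h1]
  refine intervalIntegral.integral_pos (by linarith) (chi_cont hW κ).continuousOn
    (fun x _ => chi_nonneg κ x) ⟨θ, ⟨le_refl θ, by linarith⟩, ?_⟩
  unfold chi
  have h2 : 0 < ‖kap S k‖ := norm_pos_iff.2 (kap_ne hk)
  have h3 : 0 < max 0 (M - κ - W θ) / 2 := by
    have : 0 < max 0 (M - κ - W θ) := lt_max_of_lt_right (by linarith)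
    linarith
  exact div_pos (Real.sqrt_pos.2 h3) h2

private theorem Psi_zero_cell (hk : k ≠ 0) (hW : Continuous W) {κ μ θ θ' : ℝ} (hκ : 0 ≤ κ)
    (hμ : 0 ≤ μ) (hθ : θ ≤ θ') (hWz : ∀ τ ∈ Icc θ θ', M - W τ ≤ μ) :
    Psi S k W M κ θ' - Psi S k W M κ θ ≤ Real.sqrt μ / ‖kap S k‖ * (θ' - θ) := by
  rw [Psi_sub hW]
  have h2 : 0 < ‖kap S k‖ := norm_pos_iff.2 (kap_ne hk)
  have h1 : ∫ τ in θ..θ', chi S k W M κ τ ≤ ∫ _ in θ..θ', Real.sqrt μ / ‖kap S k‖ := by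
    refine intervalIntegral.integral_mono_on hθ ((chi_cont hW κ).intervalIntegrable _ _)
      intervalIntegrable_const fun τ hτ => ?_
    unfold chi
    refine div_le_div_of_nonneg_right (Real.sqrt_le_sqrt ?_) h2.le
    have h3 := hWz τ hτ
    have h4 : max 0 (M - κ - W τ) ≤ μ := max_le hμ (by linarith)
    linarith
  refine h1.trans (le_of_eq ?_)
  rw [intervalIntegral.integral_const, smul_eq_mul, mul_comm]

/-! ### cells -/

private theorem unif (hW : Continuous W) (hW1 : ∀ θ, W (θ + 1) = W θ) {μ : ℝ} (hμ : 0 < μ) :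
    ∃ R : ℕ, 0 < R ∧ ∀ θ θ', |θ - θ'| ≤ 1 / (R : ℝ) → |W θ - W θ'| ≤ μ := by
  have h1 : UniformContinuousOn W (Icc (-1) 2) :=
    isCompact_Icc.uniformContinuousOn_of_continuous hW.continuousOn
  rw [Metric.uniformContinuousOn_iff] at h1
  obtain ⟨δ, hδ, h2⟩ := h1 μ hμ
  obtain ⟨R, hR⟩ := exists_nat_gt (1 / δ)
  have hR0 : 0 < (R : ℝ) := (by positivity : 0 < 1 / δ).trans hR
  have hRδ : 1 / (R : ℝ) < δ := by
    rw [div_lt_iff₀ hR0]
    rw [div_lt_iff₀ hδ] at hR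
    linarith
  have hR1 : 1 / (R : ℝ) ≤ 1 := by
    have : 1 ≤ R := Nat.one_le_iff_ne_zero.2 (by
      rintro rfl
      simp at hR0)
    rw [div_le_one hR0]
    exact_mod_cast this
  have hper : Function.Periodic W 1 := hW1
  refine ⟨R, Nat.cast_pos.1 hR0, fun θ θ' hθ => ?_⟩
  have h3 : W θ = W (θ - ⌊θ⌋) := by
    have := hper.sub_int_mul_eq ⌊θ⌋ (x := θ)
    rw [mul_one] at this
    exact this.symm
  have h4 : W θ' = W (θ' - ⌊θ⌋) := by
    have := hper.sub_int_mul_eq ⌊θ⌋ (x := θ')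
    rw [mul_one] at this
    exact this.symm
  rw [abs_le] at hθ
  have h5 := Int.floor_le θ
  have h6 := Int.lt_floor_add_one θ
  have h7 := h2 (θ - ⌊θ⌋) ⟨by linarith, by linarith⟩ (θ' - ⌊θ⌋) ⟨by linarith, by linarith⟩ (by
    rw [Real.dist_eq, abs_lt]
    constructor <;> linarith)
  rw [Real.dist_eq, ← h3, ← h4] at h7
  exact h7.le

private theorem cells (hW : Continuous W) (hW1 : ∀ θ, W (θ + 1) = W θ) (hM : ∀ θ, W θ ≤ M)
    {R : ℕ} (hR : 0 < R) (z₀ : ℝ) : ∃ κ₁ : ℝ, 0 < κ₁ ∧ ∀ P : ℤ,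
      (∃ θ ∈ Icc (z₀ + P / R) (z₀ + (P + 1) / R), W θ = M) ∨
        ∀ θ ∈ Icc (z₀ + P / R) (z₀ + (P + 1) / R), W θ ≤ M - κ₁ := by
  have hR0 : (0 : ℝ) < R := Nat.cast_pos.2 hR
  have h1 : ∀ r : ℕ, ∃ κ₁ : ℝ, 0 < κ₁ ∧
      ((∃ θ ∈ Icc (z₀ + r / R) (z₀ + (r + 1) / R), W θ = M) ∨
        ∀ θ ∈ Icc (z₀ + r / R) (z₀ + (r + 1) / R), W θ ≤ M - κ₁) := by
    intro r
    by_cases h : ∃ θ ∈ Icc (z₀ + r / R) (z₀ + (r + 1) / R), W θ = M
    · exact ⟨1, one_pos, Or.inl h⟩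
    · push Not at h
      have hne : (Icc (z₀ + r / R) (z₀ + (r + 1) / R)).Nonempty := by
        rw [nonempty_Icc]
        have : (r : ℝ) / R ≤ (r + 1) / R := div_le_div_of_nonneg_right (by linarith) hR0.le
        linarith
      obtain ⟨θ, hθ, hmax⟩ := isCompact_Icc.exists_isMaxOn hne hW.continuousOn
      have hlt : W θ < M := lt_of_le_of_ne (hM θ) (h θ hθ)
      refine ⟨M - W θ, by linarith, Or.inr fun θ' hθ' => ?_⟩
      have := hmax hθ'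
      simp only [mem_ofPred_eq] at this
      linarith
  choose κ hκ hκ' using h1
  have h2 : ∀ m : ℕ, ∃ κ₁ : ℝ, 0 < κ₁ ∧ ∀ r < m, κ₁ ≤ κ r := by
    intro m
    induction m with
    | zero => exact ⟨1, one_pos, fun r hr => absurd hr (Nat.not_lt_zero r)⟩
    | succ m ih =>
      obtain ⟨κ₁, h3, h4⟩ := ih
      refine ⟨min κ₁ (κ m), lt_min h3 (hκ m), fun r hr => ?_⟩
      rcases Nat.lt_succ_iff_lt_or_eq.1 hr with h5 | h5
      · exact (min_le_left _ _).trans (h4 r h5)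
      · rw [h5]
        exact min_le_right _ _
  obtain ⟨κ₁, h3, h4⟩ := h2 R
  have hper : Function.Periodic W 1 := hW1
  refine ⟨κ₁, h3, fun P => ?_⟩
  obtain ⟨r, hr⟩ := Int.eq_ofNat_of_zero_le (Int.emod_nonneg P (by omega : (R : ℤ) ≠ 0))
  have hrR : r < R := by
    have := Int.emod_lt_of_pos P (by omega : (0 : ℤ) < R)
    omega
  obtain ⟨Q, hQ⟩ : ∃ Q : ℤ, Q = P / (R : ℤ) := ⟨_, rfl⟩
  have hP : P = R * Q + r := by
    have := Int.emod_add_mul_ediv P R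
    rw [hr, ← hQ] at this
    linarith
  have e1 : z₀ + (P : ℝ) / R = z₀ + r / R + Q := by
    rw [hP]
    push_cast
    field_simp
    ring
  have e2 : z₀ + ((P : ℝ) + 1) / R = z₀ + (r + 1) / R + Q := by
    rw [hP]
    push_cast
    field_simp
    ring
  rw [e1, e2]
  rcases hκ' r with ⟨θ, hθ, h5⟩ | h5
  · left
    refine ⟨θ + Q, ⟨by linarith [hθ.1], by linarith [hθ.2]⟩, ?_⟩
    have := hper.int_mul Q θ
    rw [mul_one] at this
    rw [this, h5]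
  · right
    intro θ hθ
    have h6 := h5 (θ - Q) ⟨by linarith [hθ.1], by linarith [hθ.2]⟩
    have h7 := hper.sub_int_mul_eq Q (x := θ)
    rw [mul_one] at h7
    rw [h7] at h6
    have := h4 r hrR
    linarith

/-! ### the induction over the levels -/

private theorem step_zero (hU : Continuous U) {κ : Vec n} {Ψ : ℝ → ℝ} {R : ℕ} (hR : 0 < R)
    {z' e₁ e₃ E : ℝ} {q : ℕ}
    (F1 : ∀ θ, W θ = M → ∀ (x y : Vec n) (g : ℝ), |⟪κ, x⟫ - θ| ≤ 1 / (R : ℝ) →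
      |⟪κ, y⟫ - θ| ≤ 1 / (R : ℝ) → Reach U w A x y g → g ≤ e₁)
    (F3 : Ψ (z' + (q + 1 : ℕ) / R) - Ψ (z' + q / R) ≤ e₃) (hE : e₁ + e₃ ≤ E)
    (hq : ∃ θ ∈ Icc (z' + q / R) (z' + (q + 1 : ℕ) / R), W θ = M)
    (ih : ∀ (γ u : ℝ → Vec n) (a b : ℝ), Crv γ u a b → ⟪κ, γ a⟫ = z' → ⟪κ, γ b⟫ = z' + q / R →
      (∀ t ∈ Icc a b, ⟪κ, γ t⟫ ≤ z' + q / R) →
      gain U w A γ u a b ≤ -(Ψ (z' + q / R) - Ψ z') + E * (q + 1))
    (h : Crv γ u a b) (ha : ⟪κ, γ a⟫ = z') (hb : ⟪κ, γ b⟫ = z' + (q + 1 : ℕ) / R) :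
    gain U w A γ u a b ≤ -(Ψ (z' + (q + 1 : ℕ) / R) - Ψ z') + E * (q + 2) := by
  have hR0 : (0 : ℝ) < R := Nat.cast_pos.2 hR
  have hcont : ContinuousOn (fun t => ⟪κ, γ t⟫) (Icc a b) :=
    continuousOn_const.inner h.cont
  have hlev : z' + (q + 1 : ℕ) / (R : ℝ) = z' + q / R + 1 / R := by
    push_cast
    ring
  have hq0 : (0 : ℝ) ≤ q / R := by positivity
  have h1R : (0 : ℝ) < 1 / R := by positivity
  obtain ⟨t, ht, hty, hts⟩ := exists_first (y := z' + q / R) h.le hcont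
    (by rw [ha]; linarith) (by rw [hb, hlev]; linarith)
  have h1 := ih γ u a t (h.restrict (le_refl a) ht.1 ht.2) ha hty hts
  obtain ⟨θ, hθ, hθM⟩ := hq
  rw [hlev] at hθ
  have h2 := F1 θ hθM (γ t) (γ b) (gain U w A γ u t b)
    (by rw [hty, abs_le]; constructor <;> linarith [hθ.1, hθ.2])
    (by rw [hb, hlev, abs_le]; constructor <;> linarith [hθ.1, hθ.2])
    (h.restrict ht.1 ht.2 (le_refl b)).reach
  have h3 := gain_add (w := w) (A := A) hU h ht.1 ht.2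
  linarith

private theorem wind_ind (hU : Continuous U) {κ : Vec n} {Ψ : ℝ → ℝ} {R : ℕ} (hR : 0 < R)
    {z' κ₁ e₁ e₂ e₃ E : ℝ} (hz' : W z' = M) (he₁ : 0 ≤ e₁) (he₂ : 0 ≤ e₂) (he₃ : 0 ≤ e₃)
    (F1 : ∀ θ, W θ = M → ∀ (x y : Vec n) (g : ℝ), |⟪κ, x⟫ - θ| ≤ 1 / (R : ℝ) →
      |⟪κ, y⟫ - θ| ≤ 1 / (R : ℝ) → Reach U w A x y g → g ≤ e₁)
    (F2 : ∀ (γ u : ℝ → Vec n) (a b : ℝ), Crv γ u a b → (∀ t ∈ Icc a b, W ⟪κ, γ t⟫ ≤ M - κ₁) →
      gain U w A γ u a b ≤ -(Ψ ⟪κ, γ b⟫ - Ψ ⟪κ, γ a⟫) + e₂)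
    (F3 : ∀ q : ℕ, (∃ θ ∈ Icc (z' + q / R) (z' + (q + 1 : ℕ) / R), W θ = M) →
      Ψ (z' + (q + 1 : ℕ) / R) - Ψ (z' + q / R) ≤ e₃)
    (F4 : ∀ q : ℕ, (∃ θ ∈ Icc (z' + q / R) (z' + (q + 1 : ℕ) / R), W θ = M) ∨
      ∀ θ ∈ Icc (z' + q / R) (z' + (q + 1 : ℕ) / R), W θ ≤ M - κ₁)
    (hE : e₁ + e₂ + e₃ ≤ E) : ∀ (i : ℕ) (γ u : ℝ → Vec n) (a b : ℝ), Crv γ u a b →
      ⟪κ, γ a⟫ = z' → ⟪κ, γ b⟫ = z' + i / R → (∀ t ∈ Icc a b, ⟪κ, γ t⟫ ≤ z' + i / R) →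
      gain U w A γ u a b ≤ -(Ψ (z' + i / R) - Ψ z') + E * (i + 1) := by
  classical
  have hR0 : (0 : ℝ) < R := Nat.cast_pos.2 hR
  have h1R : (0 : ℝ) < 1 / R := by positivity
  have hE0 : 0 ≤ E := by linarith
  intro i
  induction i using Nat.strong_induction_on with
  | _ i ih =>
    intro γ u a b h ha hb hst
    rcases Nat.eq_zero_or_pos i with h0 | h0
    · subst h0
      simp only [Nat.cast_zero, zero_div, add_zero] at hb ⊢
      have h1 := F1 z' hz' (γ a) (γ b) (gain U w A γ u a b)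
        (by rw [ha, sub_self, abs_zero]; exact h1R.le)
        (by rw [hb, sub_self, abs_zero]; exact h1R.le) h.reach
      rw [sub_self, neg_zero, zero_add]
      linarith
    obtain ⟨p, rfl⟩ : ∃ p, i = p + 1 := ⟨i - 1, by omega⟩
    by_cases hp : ∃ θ ∈ Icc (z' + p / R) (z' + (p + 1 : ℕ) / R), W θ = M
    · have := step_zero hU hR F1 (F3 p hp) (by linarith) hp (ih p (by omega)) h ha hb
      push_cast at this ⊢
      linarith
    have hp' : ∀ θ ∈ Icc (z' + p / R) (z' + (p + 1 : ℕ) / R), W θ ≤ M - κ₁ :=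
      (F4 p).resolve_left hp
    obtain ⟨P, hP⟩ : ∃ P : ℕ → Prop, P = fun q : ℕ =>
      ∃ θ ∈ Icc (z' + (q : ℝ) / R) (z' + ((q + 1 : ℕ) : ℝ) / R), W θ = M := ⟨_, rfl⟩
    have hP0 : P 0 := by
      rw [hP]
      refine ⟨z', ⟨by simp, ?_⟩, hz'⟩
      have : (0 : ℝ) ≤ ((0 + 1 : ℕ) : ℝ) / R := by positivity
      linarith
    have hPp : ¬ P p := by
      rw [hP]
      exact hp
    obtain ⟨q, hq⟩ : ∃ q, q = Nat.findGreatest P p := ⟨_, rfl⟩
    have hPq : P q := by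
      rw [hq]
      exact Nat.findGreatest_spec (Nat.zero_le p) hP0
    have hqp : q < p := by
      have h1 : q ≤ p := by
        rw [hq]
        exact Nat.findGreatest_le p
      rcases h1.eq_or_lt with h2 | h2
      · exact absurd (h2 ▸ hPq) hPp
      · exact h2
    have hgr : ∀ l, q < l → l ≤ p →
        ∀ θ ∈ Icc (z' + (l : ℝ) / R) (z' + ((l + 1 : ℕ) : ℝ) / R), W θ ≤ M - κ₁ := by
      intro l h1 h2
      rw [hq] at h1
      have h3 := Nat.findGreatest_is_greatest h1 h2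
      rw [hP] at h3
      exact (F4 l).resolve_left h3
    rw [hP] at hPq
    have hcont : ContinuousOn (fun t => ⟪κ, γ t⟫) (Icc a b) :=
      continuousOn_const.inner h.cont
    have hqp' : ((q + 1 : ℕ) : ℝ) ≤ ((p + 1 : ℕ) : ℝ) := by
      exact_mod_cast (by omega : q + 1 ≤ p + 1)
    obtain ⟨t, ht, hty, hts⟩ := exists_last (y := z' + ((q + 1 : ℕ) : ℝ) / R) h.le hcont
      (by
        rw [ha]
        have : (0 : ℝ) ≤ ((q + 1 : ℕ) : ℝ) / R := by positivity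
        linarith)
      (by
        rw [hb]
        have := div_le_div_of_nonneg_right hqp' hR0.le
        linarith)
    have h1 := step_zero hU hR F1 (F3 q hPq) (by linarith) hPq (ih q (by omega))
      (h.restrict (le_refl a) ht.1 ht.2) ha hty
    have h2 := F2 γ u t b (h.restrict ht.1 ht.2 (le_refl b)) (by
      intro s hs
      have hs1 := hts s hs
      have hs2 := hst s ⟨ht.1.trans hs.1, hs.2⟩
      -- the number of the cell
      by_cases hlast : z' + ((p : ℕ) : ℝ) / R ≤ ⟪κ, γ s⟫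
      · exact hp' _ ⟨hlast, hs2⟩
      push Not at hlast
      obtain ⟨l, hl⟩ : ∃ l : ℕ, l = ⌊(⟪κ, γ s⟫ - z') * R⌋₊ := ⟨_, rfl⟩
      have hnn : 0 ≤ (⟪κ, γ s⟫ - z') * R := by
        apply mul_nonneg _ hR0.le
        have : (0 : ℝ) ≤ ((q + 1 : ℕ) : ℝ) / R := by positivity
        linarith
      have hl1 : (l : ℝ) ≤ (⟪κ, γ s⟫ - z') * R := by
        rw [hl]
        exact Nat.floor_le hnn
      have hl2 : (⟪κ, γ s⟫ - z') * R < l + 1 := by
        rw [hl]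
        exact Nat.lt_floor_add_one _
      have hl3 : q < l := by
        have : q + 1 ≤ l := by
          rw [hl]
          apply Nat.le_floor
          rw [← div_le_iff₀ hR0]
          linarith
        omega
      have hl4 : l ≤ p := by
        have : (l : ℝ) < p := by
          refine lt_of_le_of_lt hl1 ?_
          rw [← lt_div_iff₀ hR0]
          linarith
        have : l < p := by exact_mod_cast this
        omega
      refine hgr l hl3 hl4 _ ⟨?_, ?_⟩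
      · have := (div_le_iff₀ hR0).2 hl1
        linarith
      · have := (le_div_iff₀ hR0).2 hl2.le
        push_cast
        linarith)
    rw [hty, hb] at h2
    have h3 := gain_add (w := w) (A := A) hU h ht.1 ht.2
    have h4 : E * ((q : ℝ) + 2) + e₂ ≤ E * (((p + 1 : ℕ) : ℝ) + 1) := by
      have h5 : ((q + 1 : ℕ) : ℝ) ≤ (p : ℝ) := by exact_mod_cast (by omega : q + 1 ≤ p)
      have h6 : E * ((q : ℝ) + 3) ≤ E * (((p + 1 : ℕ) : ℝ) + 1) := by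
        apply mul_le_mul_of_nonneg_left _ hE0
        push_cast at h5 ⊢
        linarith
      nlinarith
    linarith

/-! ### the theorem -/

private theorem wind_final (D : Data S U k ω W M) {Ψ : ℝ → ℝ} {R : ℕ} (hR : 0 < R)
    {z₀ κ₁ e₁ e₂ e₃ E q : ℝ} (hz₀ : W z₀ = M) (he₁ : 0 ≤ e₁) (he₂ : 0 ≤ e₂) (he₃ : 0 ≤ e₃)
    (F1 : ∀ θ, W θ = M → ∀ (x y : Vec n) (g : ℝ), |⟪kap S k, x⟫ - θ| ≤ 1 / (R : ℝ) →
      |⟪kap S k, y⟫ - θ| ≤ 1 / (R : ℝ) → Reach U w A x y g → g ≤ e₁)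
    (F2 : ∀ (γ u : ℝ → Vec n) (a b : ℝ), Crv γ u a b →
      (∀ t ∈ Icc a b, W ⟪kap S k, γ t⟫ ≤ M - κ₁) →
      gain U w A γ u a b ≤ -(Ψ ⟪kap S k, γ b⟫ - Ψ ⟪kap S k, γ a⟫) + e₂)
    (F3 : ∀ θ θ', θ' = θ + 1 / (R : ℝ) → (∃ z ∈ Icc θ θ', W z = M) → Ψ θ' - Ψ θ ≤ e₃)
    (F4 : ∀ P : ℤ, (∃ θ ∈ Icc (z₀ + P / R) (z₀ + (P + 1) / R), W θ = M) ∨
      ∀ θ ∈ Icc (z₀ + P / R) (z₀ + (P + 1) / R), W θ ≤ M - κ₁)
    (F5 : ∀ (θ : ℝ) (j : ℕ), Ψ (θ + j) - Ψ θ = j * q)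
    (hE : e₁ + e₂ + e₃ ≤ E) (hq : E * (R + 2) ≤ q / 2) (hcl : Closed S U w A)
    (h : Crv γ u a b) (m : Fin n → ℤ) (hm : γ b = γ a + iv S m) :
    gain U w A γ u a b ≤ -(q / 2) * ⟪kap S k, iv S m⟫ := by
  have hU := D.U_cont
  have hR0 : (0 : ℝ) < R := Nat.cast_pos.2 hR
  have h1R : (0 : ℝ) < 1 / R := by positivity
  have hE0 : 0 ≤ E := by linarith
  have hq0 : 0 ≤ q := by
    have : 0 ≤ E * (R + 2) := by positivity
    linarith
  obtain ⟨J, hJ⟩ : ∃ J : ℤ, ⟪kap S k, iv S m⟫ = (J : ℝ) := ⟨_, inner_kap_iv k m⟩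
  rw [hJ]
  rcases le_or_gt J 0 with hJ0 | hJ0
  · have h1 := hcl γ u a b h m hm
    have h2 : (J : ℝ) ≤ 0 := by exact_mod_cast hJ0
    nlinarith
  obtain ⟨j, rfl⟩ := Int.eq_ofNat_of_zero_le hJ0.le
  have hj1 : 1 ≤ j := by omega
  rw [Int.cast_natCast] at hJ ⊢
  have hj1' : (1 : ℝ) ≤ j := by exact_mod_cast hj1
  have hcont : ContinuousOn (fun t => ⟪kap S k, γ t⟫) (Icc a b) :=
    continuousOn_const.inner h.cont
  have hfb : ⟪kap S k, γ b⟫ = ⟪kap S k, γ a⟫ + j := by rw [hm, inner_add_right, hJ]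
  have hper : Function.Periodic W 1 := D.W_per
  -- a leaf with the maximal average
  obtain ⟨z', hz'⟩ : ∃ z', z' = z₀ + (⌈⟪kap S k, γ a⟫ - z₀⌉ : ℤ) := ⟨_, rfl⟩
  have hz'M : W z' = M := by
    have := hper.int_mul ⌈⟪kap S k, γ a⟫ - z₀⌉ z₀
    rw [mul_one] at this
    rw [hz', this, hz₀]
  have hz1 : ⟪kap S k, γ a⟫ ≤ z' := by
    have := Int.le_ceil (⟪kap S k, γ a⟫ - z₀)
    rw [hz']
    linarith
  have hz2 : z' ≤ ⟪kap S k, γ b⟫ := by
    have := Int.ceil_lt_add_one (⟪kap S k, γ a⟫ - z₀)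
    rw [hz', hfb]
    linarith
  obtain ⟨t, ht, hty, -⟩ := exists_first (y := z') h.le hcont hz1 hz2
  -- the rotated curve
  have hrot : Reach U w A (γ t) (γ t + iv S m) (gain U w A γ u a b) := by
    have r1 : Reach U w A (γ t) (γ a + iv S m) (gain U w A γ u t b) := by
      rw [← hm]
      exact (h.restrict ht.1 ht.2 (le_refl b)).reach
    have r2 := ((h.restrict (le_refl a) ht.1 ht.2).reach (U := U) (w := w) (A := A)).translate
      D.U_per m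
    have r3 := r1.trans hU r2
    rwa [add_comm (gain U w A γ u t b), gain_add hU h ht.1 ht.2] at r3
  obtain ⟨γ', u', a', b', h', e1, e2, e3⟩ := hrot
  rw [← e3]
  have ha' : ⟪kap S k, γ' a'⟫ = z' := by rw [e1, hty]
  have hb' : ⟪kap S k, γ' b'⟫ = z' + j := by rw [e2, inner_add_right, hty, hJ]
  have hcont' : ContinuousOn (fun t => ⟪kap S k, γ' t⟫) (Icc a' b') :=
    continuousOn_const.inner h'.cont
  obtain ⟨t', ht', hty', hts'⟩ := exists_first (y := z' + j) h'.le hcont'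
    (by rw [ha']; linarith) (by rw [hb'])
  have hlev : z' + ((j * R : ℕ) : ℝ) / R = z' + j := by
    push_cast
    field_simp
  have hcell : ∀ r : ℕ, z' + (r : ℝ) / R = z₀ +
      ((⌈⟪kap S k, γ a⟫ - z₀⌉ * R + r : ℤ) : ℝ) / R := by
    intro r
    rw [hz']
    push_cast
    field_simp
    ring
  have hcell' : ∀ r : ℕ, z' + ((r + 1 : ℕ) : ℝ) / R = z₀ +
      (((⌈⟪kap S k, γ a⟫ - z₀⌉ * R + r : ℤ) : ℝ) + 1) / R := by
    intro r
    rw [hz']
    push_cast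
    field_simp
    ring
  have hind := wind_ind (w := w) (A := A) (κ := kap S k) (Ψ := Ψ) (κ₁ := κ₁) (E := E) hU hR hz'M
    he₁ he₂ he₃ F1 F2
    (fun r hr => F3 _ _ (by push_cast; ring) hr)
    (fun r => by
      rw [hcell r, hcell' r]
      exact F4 _) hE (j * R) γ' u' a' t'
    (h'.restrict (le_refl a') ht'.1 ht'.2) ha' (by rw [hlev]; exact hty')
    (by rw [hlev]; exact hts')
  rw [hlev, F5] at hind
  have hWj : W (z' + j) = M := by
    have := hper.nat_mul j z'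
    rw [mul_one] at this
    rw [this, hz'M]
  have h2 := F1 (z' + j) hWj (γ' t') (γ' b') (gain U w A γ' u' t' b')
    (by rw [hty', sub_self, abs_zero]; exact h1R.le)
    (by rw [hb', sub_self, abs_zero]; exact h1R.le)
    (h'.restrict ht'.1 ht'.2 (le_refl b')).reach
  have h3 := gain_add (w := w) (A := A) hU h' ht'.1 ht'.2
  have h4 : E * ((j * R : ℕ) + 1) + E ≤ j * (q / 2) := by
    have h5 : E * ((j * R : ℕ) + 1) + E ≤ j * (E * (R + 2)) := by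
      push_cast
      nlinarith
    exact h5.trans (mul_le_mul_of_nonneg_left hq (by positivity))
  linarith

theorem wind (D : Data S U k ω W M) (hW : ∃ θ, W θ < M) :
    ∃ s : ℝ, 0 < s ∧ ∃ η : ℝ, 0 < η ∧ ∃ T₀ : ℝ, ∀ T ≥ T₀, ∀ A, |A - M| ≤ η →
      Closed S U (T • ω) A →
      ∀ (γ u : ℝ → Vec n) (a b : ℝ), Crv γ u a b → ∀ m, γ b = γ a + iv S m →
        gain U (T • ω) A γ u a b ≤ -s * ⟪kap S k, iv S m⟫ := by
  obtain ⟨θ₀, hθ₀⟩ := hW
  have hN : 0 < ‖kap S k‖ := norm_pos_iff.2 (kap_ne D.k_ne)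
  obtain ⟨κ₀, hκ₀⟩ : ∃ κ₀, κ₀ = (M - W θ₀) / 2 := ⟨_, rfl⟩
  have hκ₀p : 0 < κ₀ := by
    rw [hκ₀]
    linarith
  obtain ⟨q, hq⟩ : ∃ q, q = ∫ τ in (0 : ℝ)..1, chi S k W M κ₀ τ := ⟨_, rfl⟩
  have hqp : 0 < q := by
    rw [hq]
    exact chi_pos D.k_ne D.W_cont D.W_per (θ := θ₀) (by rw [hκ₀]; linarith)
  obtain ⟨μ, hμ⟩ : ∃ μ, μ = (q * ‖kap S k‖ / 48) ^ 2 := ⟨_, rfl⟩
  have hμp : 0 < μ := by
    rw [hμ]
    positivity
  have hsq : Real.sqrt μ = q * ‖kap S k‖ / 48 := by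
    rw [hμ]
    exact Real.sqrt_sq (by positivity)
  obtain ⟨R, hR, hunif⟩ := unif D.W_cont D.W_per hμp
  have hR0 : (0 : ℝ) < R := Nat.cast_pos.2 hR
  have hR1 : (1 : ℝ) ≤ R := by exact_mod_cast hR
  obtain ⟨z₀, hz₀⟩ := D.max
  obtain ⟨κ₁, hκ₁, hcells⟩ := cells D.W_cont D.W_per D.le hR z₀
  have hε : 0 < q / (24 * R) := by positivity
  obtain ⟨η₁, hη₁, T₁, hp⟩ := path_le D hμp (ρ := 1 / (R : ℝ)) (by positivity) hunif hε
  obtain ⟨η₂, hη₂, T₂, hc⟩ := cross D hκ₀p hκ₁ hε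
  refine ⟨q / 2, by positivity, min η₁ η₂, lt_min hη₁ hη₂, max T₁ T₂, ?_⟩
  intro T hT A hA hcl γ u a b h m hm
  rw [abs_le] at hA
  have hA1 : A ≤ M + η₁ := by linarith [min_le_left η₁ η₂]
  have hA2 : A ≥ M - η₂ := by linarith [min_le_right η₁ η₂]
  refine wind_final (Ψ := Psi S k W M κ₀) (κ₁ := κ₁)
    (e₁ := 3 * Real.sqrt μ * (1 / R) / ‖kap S k‖ + q / (24 * R)) (e₂ := q / (24 * R))
    (e₃ := Real.sqrt μ / ‖kap S k‖ * (1 / R)) (E := q / (6 * R)) D hR hz₀ (by positivity)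
    hε.le (by positivity)
    (fun θ hθ x y g hx hy hg => hp T ((le_max_left _ _).trans hT) A hA1 hcl θ hθ x y g hx hy hg)
    (fun γ u a b hγ hb => hc T ((le_max_right _ _).trans hT) A hA2 γ u a b hγ hb)
    (fun θ θ' hθ hz => ?_) hcells (fun θ j => ?_) ?_ ?_ hcl h m hm
  · obtain ⟨z, hz, hzM⟩ := hz
    have h1 : θ ≤ θ' := hz.1.trans hz.2
    have h2 := Psi_zero_cell (S := S) (k := k) (M := M) (κ := κ₀) D.k_ne D.W_cont
      hκ₀p.le hμp.le h1 (fun τ hτ => by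
        have h3 := hunif z τ (by
          rw [abs_le]
          constructor <;> linarith [hz.1, hz.2, hτ.1, hτ.2])
        rw [hzM] at h3
        exact (abs_le.1 h3).2)
    have h4 : θ' - θ = 1 / R := by rw [hθ]; ring
    rwa [h4] at h2
  · rw [hq]
    exact Psi_add_nat D.W_cont D.W_per κ₀ θ j
  · rw [hsq]
    have e1 : 3 * (q * ‖kap S k‖ / 48) * (1 / (R : ℝ)) / ‖kap S k‖ = q / (16 * R) := by
      field_simp
      ring
    have e2 : q * ‖kap S k‖ / 48 / ‖kap S k‖ * (1 / (R : ℝ)) = q / (48 * R) := by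
      field_simp
    rw [e1, e2]
    have e3 : q / (16 * (R : ℝ)) + q / (24 * R) + q / (24 * R) + q / (48 * R) = q / (6 * R) := by
      field_simp
      ring
    exact e3.le
  · have h5 : q / (6 * (R : ℝ)) * (R + 2) ≤ q / (6 * R) * (3 * R) := by
      apply mul_le_mul_of_nonneg_left _ (by positivity)
      linarith
    refine h5.trans (le_of_eq ?_)
    field_simp
    ring

/-! ### both directions -/

theorem Data.neg (D : Data S U k ω W M) : Data S U (-k) ω (fun θ => W (-θ)) M := by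
  refine ⟨D.U_cont, D.U_per, neg_ne_zero.2 D.k_ne, ?_, D.W_cont.comp continuous_neg, ?_,
    fun θ => D.le (-θ), ?_, ?_⟩
  · rw [kap_neg, inner_neg_left, D.orth, neg_zero]
  · intro θ
    have := D.W_per (-(θ + 1))
    rw [← this]
    congr 1
    ring
  · obtain ⟨z, hz⟩ := D.max
    exact ⟨-z, by simpa using hz⟩
  · intro δ hδ
    obtain ⟨f, h1, h2, h3⟩ := D.avg δ hδ
    refine ⟨f, h1, h2, fun x => ?_⟩
    have h4 := h3 x
    rw [kap_neg, inner_neg_left]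
    simpa using h4

theorem wind_abs (D : Data S U k ω W M) (hW : ∃ θ, W θ < M) :
    ∃ s : ℝ, 0 < s ∧ ∃ η : ℝ, 0 < η ∧ ∃ T₀ : ℝ, ∀ T ≥ T₀, ∀ A, |A - M| ≤ η →
      Closed S U (T • ω) A →
      ∀ (γ u : ℝ → Vec n) (a b : ℝ), Crv γ u a b → ∀ m, γ b = γ a + iv S m →
        gain U (T • ω) A γ u a b ≤ -s * |⟪kap S k, iv S m⟫| := by
  obtain ⟨s₁, hs₁, η₁, hη₁, T₁, h1⟩ := wind D hW
  obtain ⟨s₂, hs₂, η₂, hη₂, T₂, h2⟩ := wind D.neg (by
    obtain ⟨θ, hθ⟩ := hW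
    exact ⟨-θ, by simpa using hθ⟩)
  refine ⟨min s₁ s₂, lt_min hs₁ hs₂, min η₁ η₂, lt_min hη₁ hη₂, max T₁ T₂, ?_⟩
  intro T hT A hA hcl γ u a b h m hm
  have e1 := h1 T ((le_max_left _ _).trans hT) A (hA.trans (min_le_left _ _)) hcl γ u a b h m hm
  have e2 := h2 T ((le_max_right _ _).trans hT) A (hA.trans (min_le_right _ _)) hcl γ u a b h m hm
  rw [kap_neg, inner_neg_left] at e2
  have m1 := min_le_left s₁ s₂
  have m2 := min_le_right s₁ s₂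
  rcases le_or_gt 0 ⟪kap S k, iv S m⟫ with h0 | h0
  · rw [abs_of_nonneg h0]
    nlinarith
  · rw [abs_of_neg h0]
    nlinarith

end Pool.Agent.MechAlpha
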